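import Pool.Agent.Helper449.MST.Defs

/-! # matrix -/

namespace Pool.Agent.Helper449.MST

open MvPolynomial

theorem mat_two_two : (2 : K) ≠ 0 := by
  have : ((2 : ℕ) : K) ≠ 0 := fun h => by
    rw [CharP.cast_eq_zero_iff K 3] at h
    omega
  exact_mod_cast this

theorem mat_two_vd (a b c : K) (h1 : a + b * theta + c * theta ^ 2 = 0)
    (h2 : a + b * (theta + 1) + c * (theta + 1) ^ 2 = 0)
    (h3 : a + b * (theta - 1) + c * (theta - 1) ^ 2 = 0) : a = 0 ∧ b = 0 ∧ c = 0 := by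
  have hc : c = 0 := by
    have : (2 : K) * c = 0 := by linear_combination h2 + h3 - 2 * h1
    exact (mul_eq_zero.1 this).resolve_left mat_two_two
  subst hc
  have hb : b = 0 := by linear_combination h2 - h1
  subst hb
  refine ⟨by linear_combination h1, rfl, rfl⟩

theorem mat_two_lin (X Y Z X' Y' Z' a b c : K) (hx : ¬ (a = 0 ∧ b = 0 ∧ c = 0))
    (hX : ¬ (X = 0 ∧ Y = 0 ∧ Z = 0))
    (e1 : X * a + Y * b + Z * c = 0) (e2 : X * b + Y * c = 0) (e3 : Z * a + X * c = 0)
    (f1 : X' * a + Y' * b + Z' * c = 0) (f2 : X' * b + Y' * c = 0) (f3 : Z' * a + X' * c = 0) :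
    ∃ r : K, X' = r * X ∧ Y' = r * Y ∧ Z' = r * Z := by
  by_cases hc : c = 0
  · subst hc
    by_cases ha : a = 0
    · subst ha
      have hb : b ≠ 0 := fun h => hx ⟨rfl, h, rfl⟩
      have h1 : X = 0 := by
        have : X * b = 0 := by linear_combination e2
        exact (mul_eq_zero.1 this).resolve_right hb
      have h1' : X' = 0 := by
        have : X' * b = 0 := by linear_combination f2
        exact (mul_eq_zero.1 this).resolve_right hb
      have h2 : Y = 0 := by
        have : Y * b = 0 := by linear_combination e1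
        exact (mul_eq_zero.1 this).resolve_right hb
      have h2' : Y' = 0 := by
        have : Y' * b = 0 := by linear_combination f1
        exact (mul_eq_zero.1 this).resolve_right hb
      have h3 : Z ≠ 0 := fun h => hX ⟨h1, h2, h⟩
      refine ⟨Z' / Z, ?_, ?_, ?_⟩
      · rw [h1, h1', mul_zero]
      · rw [h2, h2', mul_zero]
      · field_simp
    · have h3 : Z = 0 := by
        have : Z * a = 0 := by linear_combination e3
        exact (mul_eq_zero.1 this).resolve_right ha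
      have h3' : Z' = 0 := by
        have : Z' * a = 0 := by linear_combination f3
        exact (mul_eq_zero.1 this).resolve_right ha
      have h1 : X = -(Y * b) / a := by
        rw [eq_div_iff ha]; linear_combination e1
      have h1' : X' = -(Y' * b) / a := by
        rw [eq_div_iff ha]; linear_combination f1
      have h2 : Y ≠ 0 := fun h => hX ⟨by rw [h1, h]; simp, h, h3⟩
      refine ⟨Y' / Y, ?_, ?_, ?_⟩
      · rw [h1, h1']; field_simp
      · field_simp
      · rw [h3, h3', mul_zero]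
  · have h1 : X = -(Z * a) / c := by
      rw [eq_div_iff hc]; linear_combination e3
    have h1' : X' = -(Z' * a) / c := by
      rw [eq_div_iff hc]; linear_combination f3
    have h2 : Y = -(X * b) / c := by
      rw [eq_div_iff hc]; linear_combination e2
    have h2' : Y' = -(X' * b) / c := by
      rw [eq_div_iff hc]; linear_combination f2
    have h3 : Z ≠ 0 := fun h => hX ⟨by rw [h1, h]; simp, by rw [h2, h1, h]; simp, h⟩
    refine ⟨Z' / Z, ?_, ?_, ?_⟩
    · rw [h1, h1']; field_simp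
    · rw [h2, h2', h1, h1']; field_simp
    · field_simp

theorem mat_two (x : Fin 3 → K) (hx : x ≠ 0) (c c' : Fin 3 → K) (hc : c ≠ 0)
    (h : (mat c).mulVec x = 0) (h' : (mat c').mulVec x = 0) : ∃ r : K, c' = r • c := by
  have e1 := congrFun h 0
  have e2 := congrFun h 1
  have e3 := congrFun h 2
  have f1 := congrFun h' 0
  have f2 := congrFun h' 1
  have f3 := congrFun h' 2
  simp only [mat, Matrix.mulVec, dotProduct, Fin.sum_univ_three, Matrix.of_apply,
    Matrix.cons_val_zero, Matrix.cons_val_one, Matrix.cons_val, Pi.zero_apply, Matrix.cons_val',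
    zero_mul, zero_add, add_zero] at e1 e2 e3 f1 f2 f3
  have hxx : ¬ (x 0 = 0 ∧ x 1 = 0 ∧ x 2 = 0) :=
    fun hh => hx (by funext i; fin_cases i <;> simp [hh.1, hh.2.1, hh.2.2])
  have hXX : ¬ (c 0 + c 1 * theta + c 2 * theta ^ 2 = 0 ∧
      c 0 + c 1 * (theta + 1) + c 2 * (theta + 1) ^ 2 = 0 ∧
      c 0 + c 1 * (theta - 1) + c 2 * (theta - 1) ^ 2 = 0) :=
    fun hh => hc (by
      have := mat_two_vd _ _ _ hh.1 hh.2.1 hh.2.2
      funext i; fin_cases i <;> simp [this.1, this.2.1, this.2.2])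
  obtain ⟨r, r1, r2, r3⟩ := mat_two_lin _ _ _ _ _ _ _ _ _ hxx hXX e1 e2 e3 f1 f2 f3
  refine ⟨r, ?_⟩
  have := mat_two_vd (c' 0 - r * c 0) (c' 1 - r * c 1) (c' 2 - r * c 2)
    (by linear_combination r1) (by linear_combination r2) (by linear_combination r3)
  funext i
  fin_cases i
  · simpa [sub_eq_zero] using this.1
  · simpa [sub_eq_zero] using this.2.1
  · simpa [sub_eq_zero] using this.2.2

theorem mat_ker_two : (2 : K) ≠ 0 := by
  have h : algebraMap (ZMod 3) K 2 ≠ 0 := by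
    intro h0
    have : (2 : ZMod 3) = 0 := (algebraMap (ZMod 3) K).injective (by rw [h0, map_zero])
    exact absurd this (by decide)
  intro h2
  apply h
  rw [map_ofNat, h2]

theorem mat_ker_w (X Y Z x0 x1 x2 y0 y1 y2 : K) (h1 : X * x0 + Y * x1 + Z * x2 = 0)
    (h2 : X * x1 + Y * x2 = 0) (h3 : Z * x0 + X * x2 = 0) (g1 : X * y0 + Y * y1 + Z * y2 = 0)
    (g2 : X * y1 + Y * y2 = 0) (g3 : Z * y0 + X * y2 = 0) (hne : ¬ (X = 0 ∧ Y = 0 ∧ Z = 0)) :
    x1 * y2 - x2 * y1 = 0 ∧ x2 * y0 - x0 * y2 = 0 ∧ x0 * y1 - x1 * y0 = 0 := by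
  set w0 := x1 * y2 - x2 * y1 with hw0
  set w1 := x2 * y0 - x0 * y2 with hw1
  set w2 := x0 * y1 - x1 * y0 with hw2
  have a1 : w0 * Y = 0 := by rw [hw0]; linear_combination y1 * h2 * (-1) + x1 * g2
  have a2 : w0 * X = 0 := by rw [hw0]; linear_combination y2 * h2 - x2 * g2
  have a3 : w1 * Y = w2 * X := by rw [hw1, hw2]; linear_combination y0 * h2 - x0 * g2
  have b1 : w1 * X = 0 := by rw [hw1]; linear_combination y0 * h3 - x0 * g3
  have b2 : w1 * Z = 0 := by rw [hw1]; linear_combination -y2 * h3 + x2 * g3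
  have b3 : w2 * Z = w0 * X := by rw [hw0, hw2]; linear_combination y1 * h3 - x1 * g3
  have c1 : w1 * Z = w2 * Y := by rw [hw1, hw2]; linear_combination y0 * h1 - x0 * g1
  have c2 : w2 * X = w0 * Z := by rw [hw0, hw2]; linear_combination y1 * h1 - x1 * g1
  refine ⟨?_, ?_, ?_⟩
  · by_contra hw
    apply hne
    have hX : X = 0 := (mul_eq_zero.1 a2).resolve_left hw
    have hY : Y = 0 := (mul_eq_zero.1 a1).resolve_left hw
    have hZ : w0 * Z = 0 := by rw [← c2, ← a3, hY, mul_zero]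
    exact ⟨hX, hY, (mul_eq_zero.1 hZ).resolve_left hw⟩
  · by_contra hw
    apply hne
    have hX : X = 0 := (mul_eq_zero.1 b1).resolve_left hw
    have hZ : Z = 0 := (mul_eq_zero.1 b2).resolve_left hw
    have hY : w1 * Y = 0 := by rw [a3, hX, mul_zero]
    exact ⟨hX, (mul_eq_zero.1 hY).resolve_left hw, hZ⟩
  · by_contra hw
    apply hne
    have hZ : Z = 0 := by
      have : w2 * Z = 0 := by rw [b3, a2]
      exact (mul_eq_zero.1 this).resolve_left hw
    have hY : Y = 0 := by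
      have : w2 * Y = 0 := by rw [← c1, b2]
      exact (mul_eq_zero.1 this).resolve_left hw
    have hX : w2 * X = 0 := by rw [c2, hZ, mul_zero]
    exact ⟨(mul_eq_zero.1 hX).resolve_left hw, hY, hZ⟩

theorem mat_ker_vdm (c : Fin 3 → K) (hc : c ≠ 0) :
    ¬ (c 0 + c 1 * theta + c 2 * theta ^ 2 = 0 ∧
      c 0 + c 1 * (theta + 1) + c 2 * (theta + 1) ^ 2 = 0 ∧
      c 0 + c 1 * (theta - 1) + c 2 * (theta - 1) ^ 2 = 0) := by
  rintro ⟨h1, h2, h3⟩
  apply hc
  have e2 : c 2 = 0 := by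
    have : 2 * c 2 = 0 := by linear_combination h2 + h3 - 2 * h1
    exact (mul_eq_zero.1 this).resolve_left mat_ker_two
  have e1 : c 1 = 0 := by
    rw [e2] at h1 h2
    linear_combination h2 - h1
  have e0 : c 0 = 0 := by
    rw [e2, e1] at h1
    linear_combination h1
  funext i
  fin_cases i
  · exact e0
  · exact e1
  · exact e2

theorem mat_ker_eqs (c : Fin 3 → K) (x : Fin 3 → K) (h : (mat c).mulVec x = 0) :
    (c 0 + c 1 * theta + c 2 * theta ^ 2) * x 0 +
      (c 0 + c 1 * (theta + 1) + c 2 * (theta + 1) ^ 2) * x 1 +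
      (c 0 + c 1 * (theta - 1) + c 2 * (theta - 1) ^ 2) * x 2 = 0 ∧
    (c 0 + c 1 * theta + c 2 * theta ^ 2) * x 1 +
      (c 0 + c 1 * (theta + 1) + c 2 * (theta + 1) ^ 2) * x 2 = 0 ∧
    (c 0 + c 1 * (theta - 1) + c 2 * (theta - 1) ^ 2) * x 0 +
      (c 0 + c 1 * theta + c 2 * theta ^ 2) * x 2 = 0 := by
  have h0 := congrFun h 0
  have h1 := congrFun h 1
  have h2 := congrFun h 2
  simp only [mat, Matrix.mulVec, dotProduct, Fin.sum_univ_three, Matrix.of_apply, Matrix.cons_val',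
    Matrix.cons_val_zero, Matrix.cons_val_one, Matrix.cons_val, Pi.zero_apply] at h0 h1 h2
  refine ⟨h0, ?_, ?_⟩
  · linear_combination h1
  · linear_combination h2

theorem mat_ker (c : Fin 3 → K) (hc : c ≠ 0) (x x' : Fin 3 → K) (hx : x ≠ 0)
    (h : (mat c).mulVec x = 0) (h' : (mat c).mulVec x' = 0) : ∃ r : K, x' = r • x := by
  obtain ⟨h1, h2, h3⟩ := mat_ker_eqs c x h
  obtain ⟨g1, g2, g3⟩ := mat_ker_eqs c x' h'
  obtain ⟨w0, w1, w2⟩ := mat_ker_w _ _ _ _ _ _ _ _ _ h1 h2 h3 g1 g2 g3 (mat_ker_vdm c hc)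
  have hi : ∃ i, x i ≠ 0 := by
    by_contra hcon
    push Not at hcon
    exact hx (funext hcon)
  obtain ⟨i, hi⟩ := hi
  refine ⟨x' i / x i, ?_⟩
  have key : ∀ j, x i * x' j = x j * x' i := by
    intro j
    fin_cases i <;> fin_cases j
    · rfl
    · show x 0 * x' 1 = x 1 * x' 0
      linear_combination w2
    · show x 0 * x' 2 = x 2 * x' 0
      linear_combination -w1
    · show x 1 * x' 0 = x 0 * x' 1
      linear_combination -w2
    · rfl
    · show x 1 * x' 2 = x 2 * x' 1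
      linear_combination w0
    · show x 2 * x' 0 = x 0 * x' 2
      linear_combination w1
    · show x 2 * x' 1 = x 1 * x' 2
      linear_combination -w0
    · rfl
  funext j
  rw [Pi.smul_apply, smul_eq_mul, div_mul_eq_mul_div, eq_div_iff hi]
  have := key j
  linear_combination this

private theorem mat_F3_indep (A B C : ZMod 3)
    (h : algebraMap (ZMod 3) K A + algebraMap (ZMod 3) K B * theta +
      algebraMap (ZMod 3) K C * theta ^ 2 = 0) : A = 0 ∧ B = 0 ∧ C = 0 := by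
  have ht := theta_pow
  have hN : algebraMap (ZMod 3) K (A * ((A + C) * (A + C) - B * (B + C)) +
      C * (-(B * (A + C) - C * (B + C))) + B * (B * B - C * (A + C))) = 0 := by
    simp only [map_add, map_mul, map_sub, map_neg]
    generalize algebraMap (ZMod 3) K A = a at *
    generalize algebraMap (ZMod 3) K B = b at *
    generalize algebraMap (ZMod 3) K C = c at *
    linear_combination
      (((a + c) * (a + c) - b * (b + c)) + (-(b * (a + c) - c * (b + c))) * theta +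
        (b * b - c * (a + c)) * theta ^ 2) * h -
      (b * (b * b - c * (a + c)) + c * (-(b * (a + c) - c * (b + c))) +
        c * (b * b - c * (a + c)) * theta) * ht
  have hN' : (A * ((A + C) * (A + C) - B * (B + C)) +
      C * (-(B * (A + C) - C * (B + C))) + B * (B * B - C * (A + C))) = 0 := by
    have := (algebraMap (ZMod 3) K).injective
    exact this (by rw [hN, map_zero])
  revert hN'
  clear hN h ht
  revert A B C
  decide

private theorem mat_F3_dec : ∀ a b c : ZMod 3,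
    (1*a^3 + 3*a^2*b + 1*a^2*c - 2*a*b^2 + 10*a*b*c + 14*a*c^2 + 11*b^2*c - 10*b*c^2 + 8*c^3 = 0 ∧
     3*a^2*b + 6*a^2*c + 6*a*b^2 + 23*a*c^2 - 1*b^3 + 13*b^2*c + 2*b*c^2 + 3*c^3 = 0 ∧
     3*a^2*c + 3*a*b^2 + 18*a*b*c - 3*a*c^2 + 3*b^3 - 6*b^2*c + 18*b*c^2 - 2*c^3 = 0) → a = 0 ∧ b = 0 ∧ c = 0 := by
  decide

private theorem mat_F3_det (a b c : K) : (mat ![a, b, c]).det =
    (1*a^3 + 3*a^2*b + 1*a^2*c - 2*a*b^2 + 10*a*b*c + 14*a*c^2 + 11*b^2*c - 10*b*c^2 + 8*c^3) +
    (3*a^2*b + 6*a^2*c + 6*a*b^2 + 23*a*c^2 - 1*b^3 + 13*b^2*c + 2*b*c^2 + 3*c^3) * theta +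
    (3*a^2*c + 3*a*b^2 + 18*a*b*c - 3*a*c^2 + 3*b^3 - 6*b^2*c + 18*b*c^2 - 2*c^3) * theta ^ 2 := by
  have ht := theta_pow
  simp only [mat, Matrix.det_fin_three, Matrix.of_apply, Matrix.cons_val', Matrix.cons_val_zero,
    Matrix.cons_val_one, Matrix.cons_val_fin_one, Matrix.cons_val]
  linear_combination (6*a*b*c + 3*a*c^2*theta + 12*a*c^2 + 1*b^3 + 3*b^2*c*theta + 12*b^2*c + 3*b*c^2*theta^2 + 15*b*c^2*theta - 11*b*c^2 + 1*c^3*theta^3 + 6*c^3*theta^2 - 6*c^3*theta + 7*c^3) * ht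

theorem mat_F3 (g : Fin 3 → ZMod 3) (hg : g ≠ 0) :
    (mat fun l => algebraMap (ZMod 3) K (g l)).det ≠ 0 := by
  intro h0
  have e1 : (fun l => algebraMap (ZMod 3) K (g l)) = ![algebraMap (ZMod 3) K (g 0),
      algebraMap (ZMod 3) K (g 1), algebraMap (ZMod 3) K (g 2)] := by
    funext l
    fin_cases l <;> rfl
  rw [e1, mat_F3_det] at h0
  obtain ⟨a, ha⟩ : ∃ a, a = g 0 := ⟨_, rfl⟩
  obtain ⟨b, hb⟩ : ∃ a, a = g 1 := ⟨_, rfl⟩
  obtain ⟨c, hc⟩ : ∃ a, a = g 2 := ⟨_, rfl⟩
  rw [← ha, ← hb, ← hc] at h0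
  have h1 := mat_F3_indep
    (1*a^3 + 3*a^2*b + 1*a^2*c - 2*a*b^2 + 10*a*b*c + 14*a*c^2 + 11*b^2*c - 10*b*c^2 + 8*c^3)
    (3*a^2*b + 6*a^2*c + 6*a*b^2 + 23*a*c^2 - 1*b^3 + 13*b^2*c + 2*b*c^2 + 3*c^3)
    (3*a^2*c + 3*a*b^2 + 18*a*b*c - 3*a*c^2 + 3*b^3 - 6*b^2*c + 18*b*c^2 - 2*c^3) (by
      simp only [map_add, map_mul, map_sub, map_pow, map_one, map_ofNat]
      exact h0)
  obtain ⟨h2, h3, h4⟩ := mat_F3_dec a b c h1
  apply hg
  funext l
  fin_cases l
  · exact ha.symm.trans h2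
  · exact hb.symm.trans h3
  · exact hc.symm.trans h4

theorem mat_key_smul (a : K) (c : Fin 3 → K) : mat (fun l => a * c l) = a • mat c := by
  ext i j
  fin_cases i <;> fin_cases j <;> simp [mat] <;> ring

theorem mat_key_pow (e : ℕ) (c : K) : (frobInv e c) ^ 3 ^ e = c := by
  have h := (iterateFrobeniusEquiv K 3 e).apply_symm_apply c
  rw [iterateFrobeniusEquiv_def] at h
  exact h

theorem mat_key_one (c : K) : frobInv 1 c = (frobInv 2 c) ^ 3 := by
  have h : frobInv 1 c = (iterateFrobeniusEquiv K 3 1).symm c := rfl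
  rw [h, RingEquiv.symm_apply_eq, iterateFrobeniusEquiv_def]
  have h2 := mat_key_pow 2 c
  rw [← pow_mul]
  norm_num at h2 ⊢
  exact h2.symm

theorem mat_key_F3 (g : K) (h : g ^ 3 = g) : ∃ z : ZMod 3, algebraMap (ZMod 3) K z = g := by
  have h1 : g * ((g - 1) * (g + 1)) = 0 := by linear_combination h
  rcases mul_eq_zero.1 h1 with h2 | h2
  · exact ⟨0, by simp [h2]⟩
  · rcases mul_eq_zero.1 h2 with h3 | h3
    · exact ⟨1, by rw [map_one]; linear_combination -h3⟩
    · exact ⟨-1, by rw [map_neg, map_one]; linear_combination -h3⟩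

theorem mat_key (c : Fin 3 → K) (hc : c ≠ 0) (x : Fin 3 → K)
    (h1 : (mat fun l => frobInv 1 (c l)).mulVec x = 0)
    (h2 : (mat fun l => frobInv 2 (c l)).mulVec x = 0) : x = 0 := by
  by_contra hx
  set w : Fin 3 → K := fun l => frobInv 2 (c l) with hw
  have hw1 : (fun l => frobInv 1 (c l)) = fun l => w l ^ 3 := by
    funext l; exact mat_key_one (c l)
  obtain ⟨l0, hl0⟩ : ∃ l, w l ≠ 0 := by
    by_contra hcon
    push Not at hcon
    apply hc
    funext l
    have h3 := mat_key_pow 2 (c l)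
    have h4 : frobInv 2 (c l) = 0 := hcon l
    rw [h4] at h3
    rw [← h3]
    simp
  have hne : (fun l => w l ^ 3) ≠ 0 := by
    intro h
    have := congrFun h l0
    exact hl0 (pow_eq_zero_iff (by norm_num) |>.1 this)
  rw [hw1] at h1
  obtain ⟨r, hr⟩ := mat_two x hx _ _ hne h1 h2
  have hr' : ∀ l, w l = r * w l ^ 3 := fun l => congrFun hr l
  have hr0 : r * w l0 ^ 2 = 1 := by
    have := hr' l0
    have h5 : w l0 * (r * w l0 ^ 2) = w l0 * 1 := by
      rw [mul_one]
      calc w l0 * (r * w l0 ^ 2) = r * w l0 ^ 3 := by ring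
        _ = w l0 := this.symm
    exact mul_left_cancel₀ hl0 h5
  have hg : ∀ l, (w l / w l0) ^ 3 = w l / w l0 := by
    intro l
    have h6 := hr' l
    have h7 : w l ^ 3 = w l * w l0 ^ 2 := by
      calc w l ^ 3 = (r * w l ^ 3) * w l0 ^ 2 := by
            have : (r * w l ^ 3) * w l0 ^ 2 = w l ^ 3 * (r * w l0 ^ 2) := by ring
            rw [this, hr0, mul_one]
        _ = w l * w l0 ^ 2 := by rw [← h6]
    rw [div_pow, h7]
    field_simp
  choose g hg' using fun l => mat_key_F3 _ (hg l)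
  have hg0 : g ≠ 0 := by
    intro h
    have h8 := hg' l0
    rw [h, div_self hl0] at h8
    simp at h8
  have hdet := mat_F3 g hg0
  have hmat : (mat fun l => w l ^ 3) = (w l0 ^ 3) • mat fun l => algebraMap (ZMod 3) K (g l) := by
    rw [← mat_key_smul]
    congr 1
    funext l
    rw [hg' l, ← hg l]
    field_simp
  rw [hmat, Matrix.smul_mulVec] at h1
  have h9 : (mat fun l => algebraMap (ZMod 3) K (g l)).mulVec x = 0 := by
    rcases smul_eq_zero.1 h1 with h | h
    · exact absurd h (pow_ne_zero 3 hl0)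
    · exact h
  exact hx (Matrix.eq_zero_of_mulVec_eq_zero hdet h9)

end Pool.Agent.Helper449.MST
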