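import Pool.Agent.Helper449.MST.A

/-! # lattice -/

namespace Pool.Agent.Helper449.MST

open MvPolynomial

theorem coef_eq_zero_of_top (F : ℕ →₀ K) (j : ℕ) (hj : F.support.sup id + 2 ≤ j) :
    coef F j = 0 := by
  funext l
  simp only [coef, Pi.zero_apply]
  split_ifs with h
  · rfl
  · by_contra hne
    have hmem : (3 * (2 * (j / 3) + j % 3 - 1) + (l : ℕ)) ∈ F.support :=
      Finsupp.mem_support_iff.mpr hne
    have hle := Finset.le_sup (f := id) hmem
    simp only [id] at hle
    have h1 := Nat.div_add_mod j 3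
    have h2 := Nat.mod_lt j (show 0 < 3 by norm_num)
    have h3 : F.support.sup id = F.support.sup (fun x => x) := rfl
    omega

private theorem mem_lattice_iff_coef_zero (e : ℕ) (c : Fin 3 → K) (hc : c = 0) (v : Fin 3 → K) :
    (mat fun l => frobInv e (c l)).mulVec v = 0 := by
  subst hc
  have h0 : (fun l : Fin 3 => frobInv e ((0 : Fin 3 → K) l)) = fun _ => (0 : K) := by
    funext l
    simp only [Pi.zero_apply]
    unfold frobInv
    exact map_zero _
  rw [h0]
  have h1 : mat (fun _ => (0 : K)) = 0 := by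
    ext a b
    fin_cases a <;> fin_cases b <;> simp [mat]
  rw [h1, Matrix.zero_mulVec]

private theorem mem_lattice_iff_top (F : ℕ →₀ K) (J : ℕ) (hJ : ∀ j, J < j → coef F j = 0)
    (x : ℕ → Fin 3 → K) (e i : ℕ) (he : 1 ≤ e) (hi : 1 ≤ i) :
    ∑ s ∈ Finset.range (F.support.sup id + 1),
      (mat fun l => frobInv e (coef F (i + 3 ^ e * s) l)).mulVec (x s) =
    ∑ s ∈ Finset.range (J + 1),
      (mat fun l => frobInv e (coef F (i + 3 ^ e * s) l)).mulVec (x s) := by
  have h3 : 3 ≤ 3 ^ e := by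
    calc 3 = 3 ^ 1 := (pow_one 3).symm
      _ ≤ 3 ^ e := Nat.pow_le_pow_right (by norm_num) he
  have hA : ∑ s ∈ Finset.range (F.support.sup id + 1),
      (mat fun l => frobInv e (coef F (i + 3 ^ e * s) l)).mulVec (x s) =
      ∑ s ∈ Finset.range (max (F.support.sup id) J + 1),
      (mat fun l => frobInv e (coef F (i + 3 ^ e * s) l)).mulVec (x s) := by
    apply Finset.sum_subset
    · intro s hs
      simp only [Finset.mem_range] at hs ⊢
      omega
    · intro s _ hs
      simp only [Finset.mem_range, not_lt] at hs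
      apply mem_lattice_iff_coef_zero
      apply coef_eq_zero_of_top
      have : 3 * s ≤ 3 ^ e * s := Nat.mul_le_mul_right s h3
      omega
  have hB : ∑ s ∈ Finset.range (J + 1),
      (mat fun l => frobInv e (coef F (i + 3 ^ e * s) l)).mulVec (x s) =
      ∑ s ∈ Finset.range (max (F.support.sup id) J + 1),
      (mat fun l => frobInv e (coef F (i + 3 ^ e * s) l)).mulVec (x s) := by
    apply Finset.sum_subset
    · intro s hs
      simp only [Finset.mem_range] at hs ⊢
      omega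
    · intro s _ hs
      simp only [Finset.mem_range, not_lt] at hs
      apply mem_lattice_iff_coef_zero
      apply hJ
      have : 3 * s ≤ 3 ^ e * s := Nat.mul_le_mul_right s h3
      omega
  rw [hA, hB]

theorem mem_lattice_iff (F : ℕ →₀ K) (J : ℕ) (hJ : ∀ j, J < j → coef F j = 0)
    (x : ℕ → Fin 3 → K) :
    x ∈ lattice F ↔ ∀ e i : ℕ, 1 ≤ e → 1 ≤ i → ¬ 3 ∣ i →
      ∑ s ∈ Finset.range (J + 1),
        (mat fun l => frobInv e (coef F (i + 3 ^ e * s) l)).mulVec (x s) = 0 := by
  have h : x ∈ lattice F ↔ ∀ e i : ℕ, 1 ≤ e → 1 ≤ i → ¬ 3 ∣ i →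
      ∑ s ∈ Finset.range (F.support.sup id + 1),
        (mat fun l => frobInv e (coef F (i + 3 ^ e * s) l)).mulVec (x s) = 0 := Iff.rfl
  rw [h]
  constructor
  · intro H e i he hi h3
    rw [← mem_lattice_iff_top F J hJ x e i he hi]
    exact H e i he hi h3
  · intro H e i he hi h3
    rw [mem_lattice_iff_top F J hJ x e i he hi]
    exact H e i he hi h3

theorem exists_top (F : ℕ →₀ K) (hF : F ≠ 0) :
    ∃ J, 1 ≤ J ∧ ¬ 3 ∣ J ∧ coef F J ≠ 0 ∧ ∀ j, J < j → coef F j = 0 := by
  classical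
  obtain ⟨i, hi⟩ : ∃ i, F i ≠ 0 := by
    by_contra h
    push Not at h
    exact hF (Finsupp.ext h)
  have hne : ∀ j, coef F j ≠ 0 → 1 ≤ j ∧ ¬ 3 ∣ j := by
    intro j hj
    have : ¬ 3 ∣ j := by
      intro h3
      apply hj
      funext l
      have : j % 3 = 0 := Nat.mod_eq_zero_of_dvd h3
      simp [coef, this]
    exact ⟨by omega, this⟩
  -- a nonzero coefficient
  have h0 : coef F (3 * (i / 3 / 2) + 1 + (i / 3) % 2) ≠ 0 := by
    intro h
    have h' := congrFun h ⟨i % 3, Nat.mod_lt _ (by norm_num)⟩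
    have e1 : ¬ (3 * (i / 3 / 2) + 1 + (i / 3) % 2) % 3 = 0 := by omega
    have e2 : 3 * (2 * ((3 * (i / 3 / 2) + 1 + (i / 3) % 2) / 3)
        + (3 * (i / 3 / 2) + 1 + (i / 3) % 2) % 3 - 1) + i % 3 = i := by omega
    unfold coef at h'
    simp only [if_neg e1, Pi.zero_apply] at h'
    rw [e2] at h'
    exact hi h'
  have hle : ∀ j, coef F j ≠ 0 → j ≤ F.support.sup id + 2 := by
    intro j hj
    by_contra hlt
    exact hj (coef_eq_zero_of_top F j (by omega))
  have hs := Nat.findGreatest_spec (P := fun j => coef F j ≠ 0) (hle _ h0) h0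
  refine ⟨Nat.findGreatest (fun j => coef F j ≠ 0) (F.support.sup id + 2), (hne _ hs).1,
    (hne _ hs).2, hs, ?_⟩
  intro j hj
  by_contra hc
  exact Nat.findGreatest_is_greatest hj (hle j hc) hc

theorem index_bound (F : ℕ →₀ K) (J : ℕ) (hJ : ∀ j, J < j → coef F j = 0) (i : ℕ)
    (hi : F i ≠ 0) : i < 6 * (J / 3) + 6 := by
  by_contra hcon
  push Not at hcon
  have h1 := hJ (3 * (i / 6) + (i / 3) % 2 + 1) (by omega)
  have h2 := congrFun h1 ⟨i % 3, Nat.mod_lt _ (by norm_num)⟩
  have h3 : 3 * (2 * ((3 * (i / 6) + (i / 3) % 2 + 1) / 3) +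
      (3 * (i / 6) + (i / 3) % 2 + 1) % 3 - 1) + i % 3 = i := by omega
  have h4 : ¬ (3 * (i / 6) + (i / 3) % 2 + 1) % 3 = 0 := by omega
  apply hi
  rw [← h3]
  simpa only [coef, if_neg h4, Pi.zero_apply] using h2

theorem coef_of_index (F : ℕ →₀ K) (n : ℕ) (hF : ∀ i, 6 * n ≤ i → F i = 0) (j : ℕ)
    (hj : 3 * n ≤ j) : coef F j = 0 := by
  funext l
  unfold coef
  by_cases h : j % 3 = 0
  · rw [if_pos h]
    rfl
  · rw [if_neg h, hF _ (by omega)]
    rfl

private theorem low_zero_mat0 : mat (fun _ => (0:K)) = 0 := by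
  unfold mat
  ext i j
  fin_cases i <;> fin_cases j <;> simp

private theorem low_zero_frob (e : ℕ) : frobInv e 0 = 0 := by
  unfold frobInv
  exact map_zero _

private theorem low_zero_aux (F : ℕ →₀ K) (J : ℕ) (hJ3 : ¬ 3 ∣ J)
    (hJ : ∀ j, J < j → coef F j = 0) (x : ℕ → Fin 3 → K) (hx : x ∈ lattice F) (s e : ℕ)
    (he : 1 ≤ e) (hlow : ∀ s' < s, x s' = 0) (hi : 3 ^ e * s < J) :
    (mat fun l => frobInv e (coef F J l)).mulVec (x s) = 0 := by
  have hdvd : ¬ 3 ∣ J - 3 ^ e * s := by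
    intro hd
    apply hJ3
    have h3 : 3 ∣ 3 ^ e * s := Dvd.dvd.mul_right (dvd_pow_self 3 (by omega)) s
    have := Nat.dvd_add hd h3
    rwa [Nat.sub_add_cancel hi.le] at this
  have h := (mem_lattice_iff F J hJ x).1 hx e (J - 3 ^ e * s) he (by omega) hdvd
  have hpos : 0 < 3 ^ e := pow_pos (by norm_num) e
  rw [Finset.sum_eq_single s] at h
  · have : J - 3 ^ e * s + 3 ^ e * s = J := Nat.sub_add_cancel hi.le
    rwa [this] at h
  · intro b _ hb
    rcases lt_or_gt_of_ne hb with hlt | hgt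
    · rw [hlow b hlt, Matrix.mulVec_zero]
    · have h1 : 3 ^ e * s < 3 ^ e * b := Nat.mul_lt_mul_of_pos_left hgt hpos
      have : coef F (J - 3 ^ e * s + 3 ^ e * b) = 0 := hJ _ (by omega)
      rw [this]
      simp only [Pi.zero_apply, low_zero_frob, low_zero_mat0, Matrix.zero_mulVec]
  · intro hs
    exfalso
    apply hs
    rw [Finset.mem_range]
    have : s ≤ 3 ^ e * s := Nat.le_mul_of_pos_left s hpos
    omega

theorem low_zero (F : ℕ →₀ K) (J : ℕ) (hJ1 : 1 ≤ J) (hJ3 : ¬ 3 ∣ J) (hJ0 : coef F J ≠ 0)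
    (hJ : ∀ j, J < j → coef F j = 0) (x : ℕ → Fin 3 → K) (hx : x ∈ lattice F) (s : ℕ)
    (hs : 9 * s < J) : x s = 0 := by
  induction s using Nat.strong_induction_on with
  | _ s ih =>
    have hlow : ∀ s' < s, x s' = 0 := fun s' h => ih s' h (by omega)
    exact mat_key (coef F J) hJ0 (x s)
      (low_zero_aux F J hJ3 hJ x hx s 1 (le_refl _) hlow (by norm_num; omega))
      (low_zero_aux F J hJ3 hJ x hx s 2 (by norm_num) hlow (by norm_num; omega))

theorem finiteDim (F : ℕ →₀ K) : FiniteDimensional K ((ℕ → Fin 3 → K) ⧸ lattice F) := by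
  set J := F.support.sup id + 2 with hJdef
  have hJ : ∀ j, J < j → coef F j = 0 := fun j hj => coef_eq_zero_of_top F j (by omega)
  let π : (ℕ → Fin 3 → K) →ₗ[K] (Fin (J + 1) → Fin 3 → K) :=
    LinearMap.funLeft K (Fin 3 → K) (fun i : Fin (J + 1) => (i : ℕ))
  have hker : LinearMap.ker π ≤ lattice F := by
    intro x hx
    rw [LinearMap.mem_ker] at hx
    rw [mem_lattice_iff F J hJ]
    intro e i _ _ _
    refine Finset.sum_eq_zero fun s hs => ?_
    have h0 : x s = 0 := congrFun hx ⟨s, Finset.mem_range.1 hs⟩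
    rw [h0, Matrix.mulVec_zero]
  have h1 : Module.Finite K ((ℕ → Fin 3 → K) ⧸ LinearMap.ker π) :=
    Module.Finite.equiv π.quotKerEquivRange.symm
  exact Module.Finite.of_surjective (Submodule.factor hker) (Submodule.factor_surjective hker)

theorem vfun_ge (F : ℕ →₀ K) (m : ℕ) (h : ∀ x ∈ lattice F, ∀ s < m, x s = 0) :
    3 * m ≤ vfun F := by
  haveI := finiteDim F
  let φ : (ℕ → Fin 3 → K) →ₗ[K] (Fin m → Fin 3 → K) :=
    LinearMap.funLeft K (Fin 3 → K) (fun s : Fin m => (s : ℕ))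
  have hker : lattice F ≤ LinearMap.ker φ := by
    intro x hx
    rw [LinearMap.mem_ker]
    funext s
    exact h x hx s s.2
  have hsurj : Function.Surjective ((lattice F).liftQ φ hker) := by
    intro y
    refine ⟨(lattice F).mkQ (fun s => if hs : s < m then y ⟨s, hs⟩ else 0), ?_⟩
    rw [← LinearMap.comp_apply, Submodule.liftQ_mkQ]
    funext s
    simp [φ, LinearMap.funLeft_apply]
  have h1 : Module.finrank K (Fin m → Fin 3 → K) ≤
      Module.finrank K ((ℕ → Fin 3 → K) ⧸ lattice F) :=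
    LinearMap.finrank_le_finrank_of_surjective (f := (lattice F).liftQ φ hker) hsurj
  have h2 : Module.finrank K (Fin m → Fin 3 → K) = 3 * m := by
    rw [Module.finrank_pi_fintype]
    simp [mul_comm]
  rw [h2] at h1
  exact h1

theorem support_bound (F : ℕ →₀ K) (i : ℕ) (hi : 6 * vfun F ≤ i) : F i = 0 := by
  by_contra h0
  have hF : F ≠ 0 := by
    intro h1
    rw [h1] at h0
    exact h0 rfl
  obtain ⟨J, hJ1, hJ3, hJ0, hJ⟩ := exists_top F hF
  have h1 := vfun_ge F ((J + 8) / 9) (fun x hx s hs =>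
    low_zero F J hJ1 hJ3 hJ0 hJ x hx s (by omega))
  have h2 := index_bound F J hJ i h0
  omega

private theorem vfun_zero_mat : (mat fun _ => (0 : K)) = 0 := by
  unfold mat
  ext i j
  fin_cases i <;> fin_cases j <;> simp

private theorem vfun_zero_top : lattice 0 = ⊤ := by
  rw [eq_top_iff]
  intro x _
  show ∀ e i : ℕ, 1 ≤ e → 1 ≤ i → ¬ 3 ∣ i →
    ∑ s ∈ Finset.range ((0 : ℕ →₀ K).support.sup id + 1),
      (mat fun l => frobInv e (coef 0 (i + 3 ^ e * s) l)).mulVec (x s) = 0
  intro e i _ _ _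
  apply Finset.sum_eq_zero
  intro s _
  have h1 : (fun l => frobInv e (coef 0 (i + 3 ^ e * s) l)) = fun _ => (0 : K) := by
    funext l
    have h2 : coef 0 (i + 3 ^ e * s) l = 0 := by
      unfold coef
      split_ifs <;> simp
    rw [h2]
    exact map_zero (iterateFrobeniusEquiv K 3 e).symm
  rw [h1, vfun_zero_mat, Matrix.zero_mulVec]

theorem vfun_zero : vfun 0 = 0 := by
  unfold vfun
  have : Subsingleton ((ℕ → Fin 3 → K) ⧸ lattice 0) :=
    Submodule.Quotient.subsingleton_iff.2 vfun_zero_top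
  exact Module.finrank_zero_of_subsingleton

theorem vfun_three (F : ℕ →₀ K) (hF : F ≠ 0) (h : ∀ i, 6 ≤ i → F i = 0) : vfun F = 3 := by
  obtain ⟨J, hJ1, hJ3, hJ0, hJ⟩ := exists_top F hF
  have hc : ∀ j, 3 ≤ j → coef F j = 0 := by
    intro j hj
    exact coef_of_index F 1 (fun i hi => h i (by omega)) j (by omega)
  have hmat0 : mat (fun _ => (0 : K)) = 0 := by
    unfold mat
    ext i j
    fin_cases i <;> fin_cases j <;> simp
  have hker : lattice F = LinearMap.ker (LinearMap.proj 0 : (ℕ → Fin 3 → K) →ₗ[K] (Fin 3 → K)) := by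
    ext x
    rw [LinearMap.mem_ker, LinearMap.proj_apply]
    constructor
    · intro hx
      exact low_zero F J hJ1 hJ3 hJ0 hJ x hx 0 (by omega)
    · intro hx
      rw [mem_lattice_iff F 2 (fun j hj => hc j (by omega))]
      intro e i he hi h3
      refine Finset.sum_eq_zero ?_
      intro s hs
      rcases Nat.eq_zero_or_pos s with hs0 | hs0
      · subst hs0
        rw [hx, Matrix.mulVec_zero]
      · have h3e : 3 ^ 1 ≤ 3 ^ e := Nat.pow_le_pow_right (by norm_num) he
        have hge : 3 ≤ 3 ^ e * s := by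
          calc 3 = 3 ^ 1 * 1 := by norm_num
            _ ≤ 3 ^ e * s := Nat.mul_le_mul h3e hs0
        have hz : coef F (i + 3 ^ e * s) = 0 := hc _ (by omega)
        have hz' : (fun l => frobInv e (coef F (i + 3 ^ e * s) l)) = fun _ => (0 : K) := by
          funext l
          rw [hz]
          simp only [Pi.zero_apply]
          unfold frobInv
          exact map_zero _
        rw [hz', hmat0, Matrix.zero_mulVec]
  have hsurj : Function.Surjective (LinearMap.proj 0 : (ℕ → Fin 3 → K) →ₗ[K] (Fin 3 → K)) :=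
    fun y => ⟨fun _ => y, rfl⟩
  unfold vfun
  rw [hker]
  rw [LinearEquiv.finrank_eq (LinearMap.quotKerEquivOfSurjective _ hsurj)]
  exact Module.finrank_fin_fun K

private theorem vfun_five_six_frob0 (e : ℕ) : frobInv e 0 = 0 := by
  unfold frobInv
  exact map_zero _

private theorem vfun_five_six_frob_ne (c : Fin 3 → K) (hc : c ≠ 0) :
    (fun l => frobInv 1 (c l)) ≠ 0 := by
  intro h0
  apply hc
  funext l
  have h1 := congrFun h0 l
  unfold frobInv at h1
  have h2 : (iterateFrobeniusEquiv K 3 1).symm (c l) = 0 := h1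
  rw [map_eq_zero_iff _ (RingEquiv.injective _)] at h2
  exact h2

private theorem vfun_five_six_mat0 : mat 0 = 0 := by
  unfold mat
  ext i j
  fin_cases i <;> fin_cases j <;> simp

private theorem vfun_five_six_T (F : ℕ →₀ K) (e j : ℕ) (hj : coef F j = 0) (y : Fin 3 → K) :
    (mat fun l => frobInv e (coef F j l)).mulVec y = 0 := by
  have h1 : (fun l => frobInv e (coef F j l)) = 0 := by
    funext l
    rw [hj]
    exact vfun_five_six_frob0 e
  rw [h1, vfun_five_six_mat0, Matrix.zero_mulVec]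

private theorem vfun_five_six_pow (e : ℕ) (he : 1 ≤ e) : 3 ≤ 3 ^ e := by
  calc 3 = 3 ^ 1 := by norm_num
    _ ≤ 3 ^ e := Nat.pow_le_pow_right (by norm_num) he

private theorem vfun_five_six_sum (F : ℕ →₀ K) (h6 : ∀ j, 6 ≤ j → coef F j = 0) (e i : ℕ)
    (he : 1 ≤ e) (x : ℕ → Fin 3 → K) :
    ∑ s ∈ Finset.range (5 + 1),
        (mat fun l => frobInv e (coef F (i + 3 ^ e * s) l)).mulVec (x s) =
      (mat fun l => frobInv e (coef F i l)).mulVec (x 0) +
      (mat fun l => frobInv e (coef F (i + 3 ^ e) l)).mulVec (x 1) := by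
  have h3 := vfun_five_six_pow e he
  rw [Finset.sum_range_succ, Finset.sum_range_succ, Finset.sum_range_succ, Finset.sum_range_succ,
    Finset.sum_range_succ, Finset.sum_range_one]
  rw [vfun_five_six_T F e (i + 3 ^ e * 2) (h6 _ (by omega)),
    vfun_five_six_T F e (i + 3 ^ e * 3) (h6 _ (by omega)),
    vfun_five_six_T F e (i + 3 ^ e * 4) (h6 _ (by omega)),
    vfun_five_six_T F e (i + 3 ^ e * 5) (h6 _ (by omega))]
  simp only [mul_zero, add_zero, mul_one]

private theorem vfun_five_six_mem (F : ℕ →₀ K) (h6 : ∀ j, 6 ≤ j → coef F j = 0)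
    (hne : coef F 4 ≠ 0 ∨ coef F 5 ≠ 0) (x : ℕ → Fin 3 → K) :
    x ∈ lattice F ↔ x 0 = 0 ∧ (mat fun l => frobInv 1 (coef F 4 l)).mulVec (x 1) = 0 ∧
      (mat fun l => frobInv 1 (coef F 5 l)).mulVec (x 1) = 0 := by
  rw [mem_lattice_iff F 5 (fun j hj => h6 j (by omega)) x]
  constructor
  · intro hx
    have hx' : ∀ e i : ℕ, 1 ≤ e → 1 ≤ i → ¬ 3 ∣ i →
        (mat fun l => frobInv e (coef F i l)).mulVec (x 0) +
        (mat fun l => frobInv e (coef F (i + 3 ^ e) l)).mulVec (x 1) = 0 := by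
      intro e i he hi h3
      rw [← vfun_five_six_sum F h6 e i he x]
      exact hx e i he hi h3
    have hx0 : x 0 = 0 := by
      rcases hne with hc | hc
      · have e1 := hx' 1 4 (by norm_num) (by norm_num) (by norm_num)
        have e2 := hx' 2 4 (by norm_num) (by norm_num) (by norm_num)
        rw [vfun_five_six_T F 1 (4 + 3 ^ 1) (h6 _ (by norm_num)), add_zero] at e1
        rw [vfun_five_six_T F 2 (4 + 3 ^ 2) (h6 _ (by norm_num)), add_zero] at e2
        exact mat_key _ hc _ e1 e2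
      · have e1 := hx' 1 5 (by norm_num) (by norm_num) (by norm_num)
        have e2 := hx' 2 5 (by norm_num) (by norm_num) (by norm_num)
        rw [vfun_five_six_T F 1 (5 + 3 ^ 1) (h6 _ (by norm_num)), add_zero] at e1
        rw [vfun_five_six_T F 2 (5 + 3 ^ 2) (h6 _ (by norm_num)), add_zero] at e2
        exact mat_key _ hc _ e1 e2
    have e1 := hx' 1 1 (by norm_num) (by norm_num) (by norm_num)
    have e2 := hx' 1 2 (by norm_num) (by norm_num) (by norm_num)
    rw [hx0, Matrix.mulVec_zero, zero_add] at e1 e2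
    exact ⟨hx0, e1, e2⟩
  · rintro ⟨hx0, h4, h5⟩ e i he hi h3
    rw [vfun_five_six_sum F h6 e i he x, hx0, Matrix.mulVec_zero, zero_add]
    by_cases hc : 6 ≤ i + 3 ^ e
    · exact vfun_five_six_T F e _ (h6 _ hc) _
    · have he1 : e = 1 := by
        by_contra hne1
        have : 3 ^ 2 ≤ 3 ^ e := Nat.pow_le_pow_right (by norm_num) (by omega)
        omega
      subst he1
      have : i = 1 ∨ i = 2 := by omega
      rcases this with rfl | rfl
      · exact h4
      · exact h5

/-- the common kernel -/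
private noncomputable def vfun_five_six_ker (F : ℕ →₀ K) : Submodule K (Fin 3 → K) :=
  LinearMap.ker (mat fun l => frobInv 1 (coef F 4 l)).mulVecLin ⊓
    LinearMap.ker (mat fun l => frobInv 1 (coef F 5 l)).mulVecLin

private theorem vfun_five_six_mem_ker (F : ℕ →₀ K) (u : Fin 3 → K) :
    u ∈ vfun_five_six_ker F ↔ (mat fun l => frobInv 1 (coef F 4 l)).mulVec u = 0 ∧
      (mat fun l => frobInv 1 (coef F 5 l)).mulVec u = 0 := by
  unfold vfun_five_six_ker
  rw [Submodule.mem_inf, LinearMap.mem_ker, LinearMap.mem_ker]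
  rfl

private theorem vfun_five_six_finrank (F : ℕ →₀ K) (h6 : ∀ j, 6 ≤ j → coef F j = 0)
    (hne : coef F 4 ≠ 0 ∨ coef F 5 ≠ 0) :
    vfun F + Module.finrank K (vfun_five_six_ker F) = 6 := by
  let Φ : (ℕ → Fin 3 → K) →ₗ[K] (Fin 3 → K) × ((Fin 3 → K) ⧸ vfun_five_six_ker F) :=
    LinearMap.prod (LinearMap.proj 0) ((vfun_five_six_ker F).mkQ ∘ₗ LinearMap.proj 1)
  have hsurj : Function.Surjective Φ := by
    rintro ⟨a, b⟩
    obtain ⟨b, rfl⟩ := Submodule.mkQ_surjective _ b
    refine ⟨fun n => if n = 0 then a else b, ?_⟩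
    simp [Φ]
  have hker : LinearMap.ker Φ = lattice F := by
    ext x
    rw [vfun_five_six_mem F h6 hne x, ← vfun_five_six_mem_ker]
    simp [Φ]
  have h1 : vfun F = Module.finrank K ((Fin 3 → K) × ((Fin 3 → K) ⧸ vfun_five_six_ker F)) := by
    unfold vfun
    rw [← hker]
    exact (LinearMap.quotKerEquivOfSurjective Φ hsurj).finrank_eq
  rw [h1, Module.finrank_prod, Module.finrank_fin_fun, add_assoc,
    Submodule.finrank_quotient_add_finrank, Module.finrank_fin_fun]

private theorem vfun_five_six_ker_le (F : ℕ →₀ K) (hne : coef F 4 ≠ 0 ∨ coef F 5 ≠ 0) :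
    Module.finrank K (vfun_five_six_ker F) ≤ 1 := by
  by_cases hb : vfun_five_six_ker F = ⊥
  · rw [hb, finrank_bot]; norm_num
  · obtain ⟨u, hu, hu0⟩ := (Submodule.ne_bot_iff _).mp hb
    refine finrank_le_one (⟨u, hu⟩ : vfun_five_six_ker F) ?_
    rintro ⟨w, hw⟩
    have hu' := (vfun_five_six_mem_ker F u).mp hu
    have hw' := (vfun_five_six_mem_ker F w).mp hw
    have : ∃ r : K, w = r • u := by
      rcases hne with hc | hc
      · exact mat_ker _ (vfun_five_six_frob_ne _ hc) u w hu0 hu'.1 hw'.1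
      · exact mat_ker _ (vfun_five_six_frob_ne _ hc) u w hu0 hu'.2 hw'.2
    obtain ⟨r, hr⟩ := this
    exact ⟨r, by ext1; simp [hr]⟩

theorem vfun_five_six (F : ℕ →₀ K) (h : ∀ i, 12 ≤ i → F i = 0) (h' : ∃ i, 6 ≤ i ∧ F i ≠ 0) :
    (vfun F = 5 ∨ vfun F = 6) ∧ (vfun F = 5 ↔ ∃ u : Fin 3 → K, u ≠ 0 ∧
      (mat fun l => frobInv 1 (coef F 4 l)).mulVec u = 0 ∧
      (mat fun l => frobInv 1 (coef F 5 l)).mulVec u = 0) := by
  have h6 : ∀ j, 6 ≤ j → coef F j = 0 := fun j hj => coef_of_index F 2 (fun i hi => h i hi) j hj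
  have hne : coef F 4 ≠ 0 ∨ coef F 5 ≠ 0 := by
    obtain ⟨i, hi, hFi⟩ := h'
    by_contra hcon
    push Not at hcon
    have hi12 : i < 12 := by
      by_contra hc
      exact hFi (h i (by omega))
    have h4 : ∀ l : Fin 3, F (6 + l) = 0 := by
      intro l
      have := congrFun hcon.1 l
      simpa [coef] using this
    have h5 : ∀ l : Fin 3, F (9 + l) = 0 := by
      intro l
      have := congrFun hcon.2 l
      simpa [coef] using this
    apply hFi
    have h40 := h4 0
    have h41 := h4 1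
    have h42 := h4 2
    have h50 := h5 0
    have h51 := h5 1
    have h52 := h5 2
    simp at h40 h41 h42 h50 h51 h52
    interval_cases i <;> assumption
  have hf := vfun_five_six_finrank F h6 hne
  have hk := vfun_five_six_ker_le F hne
  refine ⟨by omega, ?_⟩
  constructor
  · intro h5
    have hk1 : vfun_five_six_ker F ≠ ⊥ := by
      intro hb
      rw [hb, finrank_bot] at hf
      omega
    obtain ⟨u, hu, hu0⟩ := (Submodule.ne_bot_iff _).mp hk1
    exact ⟨u, hu0, (vfun_five_six_mem_ker F u).mp hu⟩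
  · rintro ⟨u, hu0, hu⟩
    have hk1 : Module.finrank K (vfun_five_six_ker F) ≠ 0 := by
      intro hz
      rw [Submodule.finrank_eq_zero] at hz
      have := (vfun_five_six_mem_ker F u).mpr hu
      rw [hz] at this
      exact hu0 ((Submodule.mem_bot K).mp this)
    omega

private theorem vfun_big_frob0 (e : ℕ) : frobInv e 0 = 0 := by
  unfold frobInv
  exact map_zero _

private theorem vfun_big_mat0 (v : Fin 3 → K) : (mat (fun _ => 0)).mulVec v = 0 := by
  ext i
  fin_cases i <;> simp [mat, Matrix.mulVec, dotProduct, Fin.sum_univ_three]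

private theorem vfun_big_term0 (F : ℕ →₀ K) (e j : ℕ) (h : coef F j = 0) (v : Fin 3 → K) :
    (mat fun l => frobInv e (coef F j l)).mulVec v = 0 := by
  have h1 : (fun l => frobInv e (coef F j l)) = (fun _ => 0) := by
    funext l
    rw [h]
    exact vfun_big_frob0 e
  rw [h1]
  exact vfun_big_mat0 v

private theorem vfun_big_lin (c1 c2 : Fin 3 → K) (hc1 : c1 ≠ 0)
    (L : Submodule K (ℕ → Fin 3 → K)) (hfin : FiniteDimensional K ((ℕ → Fin 3 → K) ⧸ L))
    (hL : ∀ x ∈ L, x 0 = 0 ∧ (mat c1).mulVec (x 1) = 0 ∧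
      (mat c2).mulVec (x 1) + (mat c1).mulVec (x 2) = 0) :
    6 ≤ Module.finrank K ((ℕ → Fin 3 → K) ⧸ L) := by
  classical
  let A : (Fin 3 → K) →ₗ[K] (Fin 3 → K) := (mat c1).mulVecLin
  let B : (Fin 3 → K) →ₗ[K] (Fin 3 → K) := (mat c2).mulVecLin
  have hAk : ∀ x x', x ≠ 0 → A x = 0 → A x' = 0 → ∃ r : K, x' = r • x := fun x x' hx h h' =>
    mat_ker c1 hc1 x x' hx h h'
  let P : (ℕ → Fin 3 → K) →ₗ[K] (Fin 3 → K) × (Fin 3 → K) × (Fin 3 → K) :=
    (LinearMap.proj 0).prod ((A ∘ₗ LinearMap.proj 1).prod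
      (B ∘ₗ LinearMap.proj 1 + A ∘ₗ LinearMap.proj 2))
  have hP : ∀ x, P x = (x 0, A (x 1), B (x 1) + A (x 2)) := fun x => rfl
  let P' : ((Fin 3 → K) × (Fin 3 → K) × (Fin 3 → K)) →ₗ[K]
      (Fin 3 → K) × (Fin 3 → K) × (Fin 3 → K) :=
    (LinearMap.fst K _ _).prod ((A ∘ₗ (LinearMap.fst K _ _) ∘ₗ (LinearMap.snd K _ _)).prod
      (B ∘ₗ (LinearMap.fst K _ _) ∘ₗ (LinearMap.snd K _ _) +
        A ∘ₗ (LinearMap.snd K _ _) ∘ₗ (LinearMap.snd K _ _)))
  have hP' : ∀ w, P' w = (w.1, A w.2.1, B w.2.1 + A w.2.2) := fun w => rfl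
  have hrange : LinearMap.range P' ≤ LinearMap.range P := by
    rintro _ ⟨w, rfl⟩
    refine ⟨fun s => if s = 0 then w.1 else if s = 1 then w.2.1 else if s = 2 then w.2.2 else 0, ?_⟩
    rw [hP, hP']
    simp
  obtain ⟨u0, hu0⟩ : ∃ u0 : Fin 3 → K, ∀ u, A u = 0 → ∃ r : K, u = r • u0 := by
    by_cases hex : ∃ x, x ≠ 0 ∧ A x = 0
    · obtain ⟨x, hx, hx0⟩ := hex
      exact ⟨x, fun u hu => hAk x u hx hx0 hu⟩
    · push Not at hex
      refine ⟨0, fun u hu => ⟨0, ?_⟩⟩
      by_contra hne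
      apply hex u _ hu
      intro h0
      apply hne
      rw [h0, smul_zero]
  have hker1 : ∀ w, w ∈ LinearMap.ker P' → w.1 = 0 ∧ A w.2.1 = 0 ∧ B w.2.1 + A w.2.2 = 0 := by
    intro w hw
    rw [LinearMap.mem_ker, hP'] at hw
    have h1 := congrArg Prod.fst hw
    have h2 := congrArg Prod.snd hw
    have h3 := congrArg Prod.fst h2
    have h4 := congrArg Prod.snd h2
    exact ⟨h1, h3, h4⟩
  obtain ⟨w0, hw0, hw0'⟩ : ∃ w0 ∈ LinearMap.ker P', ∀ w ∈ LinearMap.ker P', ∃ r : K,
      w.2.1 = r • w0.2.1 := by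
    by_cases hex : ∃ w ∈ LinearMap.ker P', w.2.1 ≠ 0
    · obtain ⟨w0, hw0, hne⟩ := hex
      exact ⟨w0, hw0, fun w hw => hAk _ _ hne (hker1 w0 hw0).2.1 (hker1 w hw).2.1⟩
    · push Not at hex
      refine ⟨0, Submodule.zero_mem _, fun w hw => ⟨0, ?_⟩⟩
      rw [hex w hw, zero_smul]
  have hkerle : LinearMap.ker P' ≤ Submodule.span K
      (({w0, (0, 0, u0)} : Finset ((Fin 3 → K) × (Fin 3 → K) × (Fin 3 → K))) :
        Set ((Fin 3 → K) × (Fin 3 → K) × (Fin 3 → K))) := by
    intro w hw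
    obtain ⟨r, hr⟩ := hw0' w hw
    have h1 := hker1 w hw
    have h2 := hker1 w0 hw0
    have h3 : A (w.2.2 - r • w0.2.2) = 0 := by
      rw [map_sub, map_smul]
      have h4 : A w.2.2 = - B w.2.1 := eq_neg_of_add_eq_zero_right h1.2.2
      have h5 : A w0.2.2 = - B w0.2.1 := eq_neg_of_add_eq_zero_right h2.2.2
      rw [h4, h5, hr, map_smul, smul_neg, sub_neg_eq_add, neg_add_cancel]
    obtain ⟨t, ht⟩ := hu0 _ h3
    have h4 : w = r • w0 + t • ((0, 0, u0) : (Fin 3 → K) × (Fin 3 → K) × (Fin 3 → K)) := by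
      refine Prod.ext ?_ (Prod.ext ?_ ?_)
      · simp [h1.1, h2.1]
      · simp [hr]
      · have h5 : w.2.2 = r • w0.2.2 + t • u0 := by rw [← ht]; abel
        simpa using h5
    rw [h4]
    apply Submodule.add_mem
    · exact Submodule.smul_mem _ _ (Submodule.subset_span (by simp))
    · exact Submodule.smul_mem _ _ (Submodule.subset_span (by simp))
  have hker2 : Module.finrank K (LinearMap.ker P') ≤ 2 := by
    refine (Submodule.finrank_mono hkerle).trans ?_
    refine (finrank_span_finset_le_card _).trans ?_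
    exact Finset.card_le_two
  have hrn := LinearMap.finrank_range_add_finrank_ker P'
  have h9 : Module.finrank K ((Fin 3 → K) × (Fin 3 → K) × (Fin 3 → K)) = 9 := by
    rw [Module.finrank_prod, Module.finrank_prod, Module.finrank_fin_fun]
  rw [h9] at hrn
  have hle : Module.finrank K (LinearMap.range P') ≤ Module.finrank K (LinearMap.range P) :=
    Submodule.finrank_mono hrange
  have hLk : L ≤ LinearMap.ker P := by
    intro x hx
    obtain ⟨e1, e2, e3⟩ := hL x hx
    rw [LinearMap.mem_ker, hP]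
    refine Prod.ext e1 (Prod.ext e2 e3)
  have hq : Module.finrank K (LinearMap.range P) ≤ Module.finrank K ((ℕ → Fin 3 → K) ⧸ L) := by
    have h1 := LinearMap.finrank_range_le (L.liftQ P hLk)
    rw [Submodule.range_liftQ] at h1
    exact h1
  omega

theorem vfun_big (F : ℕ →₀ K) (h : ∃ i, 12 ≤ i ∧ F i ≠ 0) : 6 ≤ vfun F := by
  obtain ⟨i, hi, hFi⟩ := h
  have hF : F ≠ 0 := by
    rintro rfl
    exact hFi rfl
  obtain ⟨J, hJ1, hJ3, hJ0, hJ⟩ := exists_top F hF
  have hib := index_bound F J hJ i hFi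
  have hJ7 : 7 ≤ J := by omega
  rcases Nat.lt_or_ge J 10 with hJ10 | hJ10
  · -- `J = 7` or `J = 8`
    have hfin := finiteDim F
    unfold vfun
    apply vfun_big_lin (fun l => frobInv 1 (coef F J l)) (fun l => frobInv 1 (coef F (J - 3) l))
      _ _ hfin
    · intro x hx
      have hx0 : x 0 = 0 := low_zero F J hJ1 hJ3 hJ0 hJ x hx 0 (by omega)
      have hm := (mem_lattice_iff F J hJ x).1 hx
      refine ⟨hx0, ?_, ?_⟩
      · have h1 := hm 1 (J - 3) le_rfl (by omega) (by omega)
        have hsub : Finset.range 2 ⊆ Finset.range (J + 1) :=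
          Finset.range_mono (by omega)
        rw [← Finset.sum_subset hsub] at h1
        · rw [Finset.sum_range_succ, Finset.sum_range_succ, Finset.sum_range_zero, zero_add,
            hx0, Matrix.mulVec_zero, zero_add] at h1
          have h2 : J - 3 + 3 ^ 1 * 1 = J := by omega
          rw [h2] at h1
          exact h1
        · intro s hs hs'
          rw [Finset.mem_range] at hs hs'
          exact vfun_big_term0 F 1 _ (hJ _ (by omega)) _
      · have h1 := hm 1 (J - 6) le_rfl (by omega) (by omega)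
        have hsub : Finset.range 3 ⊆ Finset.range (J + 1) :=
          Finset.range_mono (by omega)
        rw [← Finset.sum_subset hsub] at h1
        · rw [Finset.sum_range_succ, Finset.sum_range_succ, Finset.sum_range_succ,
            Finset.sum_range_zero, zero_add, hx0, Matrix.mulVec_zero, zero_add] at h1
          have h2 : J - 6 + 3 ^ 1 * 1 = J - 3 := by omega
          have h3 : J - 6 + 3 ^ 1 * 2 = J := by omega
          rw [h2, h3] at h1
          exact h1
        · intro s hs hs'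
          rw [Finset.mem_range] at hs hs'
          exact vfun_big_term0 F 1 _ (hJ _ (by omega)) _
    · intro hzero
      apply hJ0
      funext l
      have h1 := congrFun hzero l
      have h2 : frobInv 1 (coef F J l) = frobInv 1 0 := by
        rw [vfun_big_frob0]
        exact h1
      unfold frobInv at h2
      exact (iterateFrobeniusEquiv K 3 1).symm.injective h2
  · have h1 := vfun_ge F 2 (by
      intro x hx s hs
      exact low_zero F J hJ1 hJ3 hJ0 hJ x hx s (by omega))
    omega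

end Pool.Agent.Helper449.MST
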