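import Pool.Agent.Helper449.MST.B

/-! # constructibility -/

namespace Pool.Agent.Helper449.MST

open MvPolynomial

private theorem constr_rank_union {n : ℕ} {S T : Set (Fin n → K)} (hS : Constr S)
    (hT : Constr T) : Constr (S ∪ T) := by
  have h := Constr.compl (Constr.inter (Constr.compl hS) (Constr.compl hT))
  rwa [Set.compl_inter, compl_compl, compl_compl] at h

private theorem constr_rank_empty (n : ℕ) : Constr (∅ : Set (Fin n → K)) := by
  have h := Constr.compl (constr_univ n)
  rwa [Set.compl_univ] at h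

private theorem constr_rank_biUnion {n : ℕ} {ι : Type*} (s : Finset ι) (S : ι → Set (Fin n → K))
    (h : ∀ i, Constr (S i)) : Constr (⋃ i ∈ s, S i) := by
  classical
  induction s using Finset.induction_on with
  | empty =>
    simp only [Finset.notMem_empty, Set.iUnion_of_empty, Set.iUnion_empty]
    exact constr_rank_empty n
  | insert a s ha ih =>
    rw [Finset.set_biUnion_insert]
    exact constr_rank_union (h a) ih

private theorem constr_rank_iUnion {n : ℕ} {ι : Type*} [Fintype ι] (S : ι → Set (Fin n → K))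
    (h : ∀ i, Constr (S i)) : Constr (⋃ i, S i) := by
  have h2 := constr_rank_biUnion Finset.univ S h
  simp only [Finset.mem_univ, Set.iUnion_true] at h2
  exact h2

private theorem constr_rank_rows {F : Type*} [Field F] {m l : ℕ} (A : Matrix (Fin m) (Fin l) F)
    (r : ℕ) (hr : r ≤ A.rank) :
    ∃ f : Fin r → Fin m, (A.submatrix f id).rank = r ∧
      LinearIndependent F (A.submatrix f id).row := by
  obtain ⟨v, hv1, -, hv3⟩ := Submodule.exists_fun_fin_finrank_span_eq F (Set.range A.row)
  have hrk : Module.finrank F (Submodule.span F (Set.range A.row)) = A.rank :=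
    (Matrix.rank_eq_finrank_span_row A).symm
  choose ρ hρ using hv1
  have hle : r ≤ Module.finrank F (Submodule.span F (Set.range A.row)) := by rw [hrk]; exact hr
  have hli : LinearIndependent F (A.submatrix (fun i => ρ (Fin.castLE hle i)) id).row := by
    have h1 := hv3.comp (Fin.castLE hle) (Fin.castLE_injective hle)
    have h2 : (A.submatrix (fun i => ρ (Fin.castLE hle i)) id).row = v ∘ Fin.castLE hle := by
      funext i
      rw [Function.comp_apply, ← hρ]
      rfl
    rw [h2]
    exact h1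
  refine ⟨fun i => ρ (Fin.castLE hle i), ?_, hli⟩
  rw [hli.rank_matrix, Fintype.card_fin]

private theorem constr_rank_iff {F : Type*} [Field F] {m l : ℕ} (A : Matrix (Fin m) (Fin l) F)
    (r : ℕ) : r ≤ A.rank ↔
      ∃ (f : Fin r → Fin m) (g : Fin r → Fin l), (A.submatrix f g).det ≠ 0 := by
  constructor
  · intro hr
    obtain ⟨f, hf, -⟩ := constr_rank_rows A r hr
    have h1 : r ≤ (A.submatrix f id).transpose.rank := by
      rw [Matrix.rank_transpose, hf]
    obtain ⟨g, -, hg⟩ := constr_rank_rows (A.submatrix f id).transpose r h1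
    refine ⟨f, g, ?_⟩
    rw [Matrix.linearIndependent_rows_iff_isUnit, Matrix.isUnit_iff_isUnit_det] at hg
    have h2 : ((A.submatrix f id).transpose.submatrix g id) = (A.submatrix f g).transpose := by
      ext i j
      rfl
    rw [h2, Matrix.det_transpose] at hg
    exact hg.ne_zero
  · rintro ⟨f, g, h⟩
    have h1 : (A.submatrix f g).rank = r := by
      rw [Matrix.rank_of_det_ne_zero h, Fintype.card_fin]
    rw [← h1]
    exact Matrix.rank_submatrix_le A f g

private theorem constr_rank_ge {n m l : ℕ} (A : Matrix (Fin m) (Fin l) (MvPolynomial (Fin n) K))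
    (r : ℕ) : Constr {x : Fin n → K | r ≤ (A.map (eval x)).rank} := by
  have h : {x : Fin n → K | r ≤ (A.map (eval x)).rank} =
      ⋃ p : (Fin r → Fin m) × (Fin r → Fin l),
        {x : Fin n → K | eval x (A.submatrix p.1 p.2).det = 0}ᶜ := by
    ext x
    rw [Set.mem_iUnion]
    show r ≤ (A.map (eval x)).rank ↔ _
    rw [constr_rank_iff]
    have hdet : ∀ (f : Fin r → Fin m) (g : Fin r → Fin l),
        eval x (A.submatrix f g).det = ((A.map (eval x)).submatrix f g).det := by
      intro f g
      rw [RingHom.map_det]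
      rfl
    constructor
    · rintro ⟨f, g, hfg⟩
      refine ⟨(f, g), ?_⟩
      show ¬ (eval x (A.submatrix f g).det = 0)
      rw [hdet]
      exact hfg
    · rintro ⟨⟨f, g⟩, hfg⟩
      refine ⟨f, g, ?_⟩
      have h2 : ¬ (eval x (A.submatrix f g).det = 0) := hfg
      rw [hdet] at h2
      exact h2
  rw [h]
  exact constr_rank_iUnion _ fun p => Constr.compl (Constr.zero _)

theorem constr_rank {n m l : ℕ} (A : Matrix (Fin m) (Fin l) (MvPolynomial (Fin n) K)) (r : ℕ) :
    Constr {x : Fin n → K | (A.map (eval x)).rank = r} := by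
  have h : {x : Fin n → K | (A.map (eval x)).rank = r} =
      {x : Fin n → K | r ≤ (A.map (eval x)).rank} ∩
        {x : Fin n → K | r + 1 ≤ (A.map (eval x)).rank}ᶜ := by
    ext x
    show (A.map (eval x)).rank = r ↔ r ≤ (A.map (eval x)).rank ∧ ¬ (r + 1 ≤ (A.map (eval x)).rank)
    omega
  rw [h]
  exact Constr.inter (constr_rank_ge A r) (Constr.compl (constr_rank_ge A (r + 1)))

theorem vfun_eq_rank_rankmap {a b : Type} [Fintype a] [Fintype b] (φ : K ≃+* K)
    (A : Matrix a b K) : (A.map φ).rank = A.rank := by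
  classical
  have hmul : ∀ v : b → K, (A.map φ).mulVec (fun i => φ (v i)) = fun i => φ (A.mulVec v i) := by
    intro v
    funext i
    simp only [Matrix.mulVec, dotProduct, Matrix.map_apply, map_sum, map_mul]
  let j0 : LinearMap.range A.mulVecLin →+ LinearMap.range (A.map φ).mulVecLin :=
    { toFun := fun y => ⟨fun i => φ (y.1 i), by
        obtain ⟨y, v, rfl⟩ := y
        exact ⟨fun i => φ (v i), by simpa using hmul v⟩⟩
      map_zero' := by
        apply Subtype.ext; funext i; simp
      map_add' := by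
        intro y z; apply Subtype.ext; funext i; simp }
  have hj : Function.Bijective j0 := by
    constructor
    · intro y z h
      apply Subtype.ext; funext i
      have := congrFun (congrArg Subtype.val h) i
      exact φ.injective this
    · rintro ⟨z, v, rfl⟩
      refine ⟨⟨A.mulVec (fun i => φ.symm (v i)), ⟨_, rfl⟩⟩, ?_⟩
      apply Subtype.ext
      have := hmul (fun i => φ.symm (v i))
      simp only [RingEquiv.apply_symm_apply] at this
      exact this.symm
  have h := rank_eq_of_equiv_equiv (R := K) (R' := K) φ (AddEquiv.ofBijective j0 hj) φ.bijective (by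
    intro r m
    apply Subtype.ext
    funext i
    show φ (r • m.1 i) = φ r • φ (m.1 i)
    simp)
  rw [Matrix.rank, Matrix.rank, Module.finrank, Module.finrank, h]

/-- polynomial functions -/
def vfun_eq_rank_PF {n : ℕ} (f : (Fin n → K) → K) : Prop :=
  ∃ P : MvPolynomial (Fin n) K, ∀ x, eval x P = f x

theorem vfun_eq_rank_frob (E e : ℕ) (he : e ≤ E) (z : K) :
    iterateFrobeniusEquiv K 3 E (frobInv e z) = z ^ (3 ^ (E - e)) := by
  have h1 : (frobInv e z) ^ (3 ^ e) = z := by
    have := (iterateFrobeniusEquiv K 3 e).apply_symm_apply z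
    rwa [iterateFrobeniusEquiv_apply, iterateFrobenius_def] at this
  rw [iterateFrobeniusEquiv_apply, iterateFrobenius_def]
  have h2 : 3 ^ E = 3 ^ e * 3 ^ (E - e) := by rw [← pow_add]; congr 1; omega
  rw [h2, pow_mul, h1]

theorem vfun_eq_rank_coef {n : ℕ} (j : ℕ) (l : Fin 3) :
    vfun_eq_rank_PF (fun x : Fin n → K => coef (ofFin x) j l) := by
  unfold coef
  by_cases h : j % 3 = 0
  · exact ⟨0, fun x => by simp [h]⟩
  · by_cases h2 : 3 * (2 * (j / 3) + j % 3 - 1) + (l : ℕ) < n
    · exact ⟨X ⟨_, h2⟩, fun x => by simp [h, ofFin, h2]⟩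
    · exact ⟨0, fun x => by simp [h, ofFin, h2]⟩

theorem vfun_eq_rank_mat (k l : Fin 3) : ∃ a b d : K, ∀ c : Fin 3 → K,
    mat c k l = c 0 * a + c 1 * b + c 2 * d := by
  fin_cases k <;> fin_cases l <;> simp only [mat]
  · exact ⟨1, theta, theta ^ 2, fun c => by simp⟩
  · exact ⟨1, theta + 1, (theta + 1) ^ 2, fun c => by simp⟩
  · exact ⟨1, theta - 1, (theta - 1) ^ 2, fun c => by simp⟩
  · exact ⟨0, 0, 0, fun c => by simp⟩
  · exact ⟨1, theta, theta ^ 2, fun c => by simp⟩
  · exact ⟨1, theta + 1, (theta + 1) ^ 2, fun c => by simp⟩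
  · exact ⟨1, theta - 1, (theta - 1) ^ 2, fun c => by simp⟩
  · exact ⟨0, 0, 0, fun c => by simp⟩
  · exact ⟨1, theta, theta ^ 2, fun c => by simp⟩

theorem vfun_eq_rank_entry {n : ℕ} (E e : ℕ) (he : e ≤ E) (j : ℕ) (k l : Fin 3) :
    vfun_eq_rank_PF (fun x : Fin n → K => iterateFrobeniusEquiv K 3 E
      (mat (fun l' => frobInv e (coef (ofFin x) j l')) k l)) := by
  obtain ⟨a, b, d, h⟩ := vfun_eq_rank_mat k l
  obtain ⟨P0, hP0⟩ := vfun_eq_rank_coef (n := n) j 0
  obtain ⟨P1, hP1⟩ := vfun_eq_rank_coef (n := n) j 1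
  obtain ⟨P2, hP2⟩ := vfun_eq_rank_coef (n := n) j 2
  refine ⟨P0 ^ (3 ^ (E - e)) * C (iterateFrobeniusEquiv K 3 E a) +
    P1 ^ (3 ^ (E - e)) * C (iterateFrobeniusEquiv K 3 E b) +
    P2 ^ (3 ^ (E - e)) * C (iterateFrobeniusEquiv K 3 E d), fun x => ?_⟩
  refine Eq.trans ?_ (congrArg (iterateFrobeniusEquiv K 3 E)
    (h (fun l' => frobInv e (coef (ofFin x) j l')))).symm
  simp only [map_add, map_mul, map_pow, eval_C, hP0, hP1, hP2, vfun_eq_rank_frob E e he]

/-- the matrix over `K` -/
noncomputable def vfun_eq_rank_B (J E : ℕ) (F : ℕ →₀ K) :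
    Matrix (Fin E × Fin (J + 1) × Fin 3) (Fin J × Fin 3) K := fun r c =>
  if 3 ∣ (r.2.1 : ℕ) then 0 else
    mat (fun l' => frobInv ((r.1 : ℕ) + 1) (coef F ((r.2.1 : ℕ) + 3 ^ ((r.1 : ℕ) + 1) * ((c.1 : ℕ) + 1)) l'))
      r.2.2 c.2

theorem vfun_eq_rank_lat (J E : ℕ) (hE : J < 3 ^ E) (F : ℕ →₀ K) (hF : F ≠ 0)
    (hJ : ∀ j, J < j → coef F j = 0) (x : ℕ → Fin 3 → K) :
    x ∈ lattice F ↔ x 0 = 0 ∧
      (vfun_eq_rank_B J E F).mulVec (fun c => x ((c.1 : ℕ) + 1) c.2) = 0 := by
  have hmat0 : ∀ e : ℕ, ∀ v : Fin 3 → K, (mat fun l => frobInv e ((0 : Fin 3 → K) l)).mulVec v = 0 := by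
    intro e v
    have : (mat fun l => frobInv e ((0 : Fin 3 → K) l)) = 0 := by
      ext k l
      obtain ⟨a, b, d, h⟩ := vfun_eq_rank_mat k l
      rw [h]
      simp [frobInv]
    rw [this, Matrix.zero_mulVec]
  have hrow : ∀ (e : Fin E) (i : Fin (J + 1)) (k : Fin 3), ¬ 3 ∣ (i : ℕ) → x 0 = 0 →
      (vfun_eq_rank_B J E F).mulVec (fun c => x ((c.1 : ℕ) + 1) c.2) (e, i, k) =
      (∑ s ∈ Finset.range (J + 1),
        (mat fun l => frobInv ((e : ℕ) + 1) (coef F ((i : ℕ) + 3 ^ ((e : ℕ) + 1) * s) l)).mulVec (x s)) k := by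
    intro e i k hi hx0
    rw [Finset.sum_range_succ', hx0, Matrix.mulVec_zero, add_zero, Finset.sum_apply,
      Finset.sum_range]
    simp only [Matrix.mulVec, dotProduct, vfun_eq_rank_B, if_neg hi]
    rw [Fintype.sum_prod_type]
  constructor
  · intro hx
    have hx0 : x 0 = 0 := by
      obtain ⟨J', h1, h2, h3, h4⟩ := exists_top F hF
      exact low_zero F J' h1 h2 h3 h4 x hx 0 (by omega)
    refine ⟨hx0, ?_⟩
    funext r
    obtain ⟨e, i, k⟩ := r
    by_cases hi : 3 ∣ (i : ℕ)
    · simp only [Matrix.mulVec, dotProduct, vfun_eq_rank_B, if_pos hi, zero_mul,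
        Finset.sum_const_zero, Pi.zero_apply]
    · rw [hrow e i k hi hx0]
      have hi1 : 1 ≤ (i : ℕ) := by
        rcases Nat.eq_zero_or_pos (i : ℕ) with h | h
        · exact absurd (h ▸ dvd_zero 3) hi
        · exact h
      rw [(mem_lattice_iff F J hJ x).1 hx ((e : ℕ) + 1) i (by omega) hi1 hi]
      rfl
  · rintro ⟨hx0, hB⟩
    rw [mem_lattice_iff F J hJ x]
    intro e i he hi h3
    by_cases hcase : e ≤ E ∧ i ≤ J
    · obtain ⟨he2, hi2⟩ := hcase
      funext k
      have := hrow ⟨e - 1, by omega⟩ ⟨i, by omega⟩ k h3 hx0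
      rw [hB] at this
      have he3 : e - 1 + 1 = e := by omega
      simp only [he3] at this
      exact this.symm
    · apply Finset.sum_eq_zero
      intro s hs
      rcases Nat.eq_zero_or_pos s with rfl | hs0
      · rw [hx0, Matrix.mulVec_zero]
      · have hgt : J < i + 3 ^ e * s := by
          by_cases h : i ≤ J
          · have he2 : E < e := by
              by_contra hc
              exact hcase ⟨by omega, h⟩
            have : 3 ^ E ≤ 3 ^ e := Nat.pow_le_pow_right (by norm_num) he2.le
            have h5 : 3 ^ e ≤ 3 ^ e * s := Nat.le_mul_of_pos_right _ hs0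
            omega
          · omega
        rw [hJ _ hgt]
        exact hmat0 e _

theorem vfun_eq_rank_dim (J E : ℕ) (hE : J < 3 ^ E) (F : ℕ →₀ K) (hF : F ≠ 0)
    (hJ : ∀ j, J < j → coef F j = 0) :
    vfun F = 3 + (vfun_eq_rank_B J E F).rank := by
  set B := vfun_eq_rank_B J E F with hB
  let res : (ℕ → Fin 3 → K) →ₗ[K] (Fin J × Fin 3 → K) :=
    { toFun := fun x c => x ((c.1 : ℕ) + 1) c.2
      map_add' := fun x y => rfl
      map_smul' := fun r x => rfl }
  let Φ : (ℕ → Fin 3 → K) →ₗ[K] (Fin 3 → K) × LinearMap.range B.mulVecLin :=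
    (LinearMap.proj 0).prod (B.mulVecLin.rangeRestrict.comp res)
  have hker : LinearMap.ker Φ = lattice F := by
    ext x
    rw [vfun_eq_rank_lat J E hE F hF hJ x, LinearMap.mem_ker]
    constructor
    · intro h
      refine ⟨congrArg Prod.fst h, ?_⟩
      exact congrArg Subtype.val (congrArg Prod.snd h)
    · rintro ⟨h1, h2⟩
      refine Prod.ext h1 ?_
      exact Subtype.ext h2
  have hsurj : Function.Surjective Φ := by
    rintro ⟨a, ⟨y, v, rfl⟩⟩
    refine ⟨fun s => if s = 0 then a else fun l => if h : s - 1 < J then v (⟨s - 1, h⟩, l) else 0, ?_⟩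
    refine Prod.ext ?_ ?_
    · show (fun s : ℕ => if s = 0 then a else fun l : Fin 3 => if h : s - 1 < J then
        v (⟨s - 1, h⟩, l) else 0) 0 = a
      exact if_pos rfl
    · apply Subtype.ext
      show B.mulVec _ = B.mulVec v
      congr 1
      funext c
      obtain ⟨s, l⟩ := c
      show (if ((s : ℕ) + 1) = 0 then a else fun l => if h : (s : ℕ) + 1 - 1 < J then
        v (⟨(s : ℕ) + 1 - 1, h⟩, l) else 0) l = v (s, l)
      simp
  have h1 := (Φ.quotKerEquivOfSurjective hsurj).finrank_eq
  rw [hker] at h1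
  rw [vfun, h1, Module.finrank_prod, Matrix.rank]
  simp

theorem vfun_eq_rank (n : ℕ) : ∃ (m l : ℕ) (A : Matrix (Fin m) (Fin l) (MvPolynomial (Fin n) K)),
    ∀ x : Fin n → K, x ≠ 0 → vfun (ofFin x) = 3 + (A.map (eval x)).rank := by
  classical
  set J := 3 * n with hJdef
  have hE : J < 3 ^ J := Nat.lt_pow_self (by norm_num)
  have hent : ∀ (r : Fin J × Fin (J + 1) × Fin 3) (c : Fin J × Fin 3),
      ∃ P : MvPolynomial (Fin n) K, ∀ x : Fin n → K,
        eval x P = iterateFrobeniusEquiv K 3 J (vfun_eq_rank_B J J (ofFin x) r c) := by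
    intro r c
    by_cases h : 3 ∣ (r.2.1 : ℕ)
    · exact ⟨0, fun x => by simp [vfun_eq_rank_B, h]⟩
    · obtain ⟨P, hP⟩ := vfun_eq_rank_entry (n := n) J ((r.1 : ℕ) + 1) (by have := r.1.2; omega)
        ((r.2.1 : ℕ) + 3 ^ ((r.1 : ℕ) + 1) * ((c.1 : ℕ) + 1)) r.2.2 c.2
      exact ⟨P, fun x => by rw [hP]; simp [vfun_eq_rank_B, h]⟩
  choose A0 hA0 using hent
  let e1 := Fintype.equivFin (Fin J × Fin (J + 1) × Fin 3)
  let e2 := Fintype.equivFin (Fin J × Fin 3)
  refine ⟨_, _, Matrix.reindex e1 e2 (Matrix.of A0), fun x hx => ?_⟩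
  have hF : ofFin x ≠ 0 := by
    intro h
    apply hx
    funext i
    have := DFunLike.congr_fun h (i : ℕ)
    simpa [ofFin] using this
  have hJ : ∀ j, J < j → coef (ofFin x) j = 0 := by
    intro j hj
    refine coef_of_index (ofFin x) n ?_ j (by omega)
    intro i hi
    have : ¬ i < n := by omega
    simp [ofFin, this]
  rw [vfun_eq_rank_dim J J hE (ofFin x) hF hJ]
  congr 1
  have h1 : (Matrix.reindex e1 e2 (Matrix.of A0)).map (eval x) =
      Matrix.reindex e1 e2 ((vfun_eq_rank_B J J (ofFin x)).map (iterateFrobeniusEquiv K 3 J)) := by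
    ext r c
    simp [hA0]
  rw [h1, Matrix.rank_reindex, vfun_eq_rank_rankmap]

theorem constr_level_zero (n : ℕ) : Constr {x : Fin n → K | x = 0} := by
  have h : ∀ s : Finset (Fin n), Constr {x : Fin n → K | ∀ i ∈ s, x i = 0} := by
    intro s
    induction s using Finset.induction_on with
    | empty =>
      have h0 := constr_univ n
      have h1 : {x : Fin n → K | ∀ i ∈ (∅ : Finset (Fin n)), x i = 0} = Set.univ := by
        ext x; simp
      rw [h1]; exact h0
    | insert i s his ih =>
      have h1 := (Constr.zero (X i)).inter ih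
      have h2 : {x : Fin n → K | ∀ j ∈ insert i s, x j = 0} =
          {x : Fin n → K | eval x (X i) = 0} ∩ {x : Fin n → K | ∀ i ∈ s, x i = 0} := by
        ext x; simp
      rw [h2]; exact h1
  have h3 := h Finset.univ
  have h4 : {x : Fin n → K | x = 0} = {x : Fin n → K | ∀ i ∈ Finset.univ, x i = 0} := by
    ext x; simp [funext_iff]
  rw [h4]; exact h3

theorem constr_level_ofFin_zero (n : ℕ) : ofFin (0 : Fin n → K) = 0 := by
  ext i
  simp [ofFin]

theorem constr_level (a : ℕ) : Constr (level a) := by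
  rcases Nat.eq_zero_or_pos a with rfl | ha
  · have h1 : level 0 = Set.univ := by
      ext x
      have hx : x = 0 := by
        ext i
        exact absurd i.2 (by simp)
      simp only [level, Set.mem_setOf_eq, Set.mem_univ, iff_true]
      rw [hx, constr_level_ofFin_zero, vfun_zero]
    rw [h1]
    exact constr_univ _
  · obtain ⟨m, l, A, hA⟩ := vfun_eq_rank (6 * a)
    by_cases h3 : 3 ≤ a
    · have h1 : level a = {x : Fin (6 * a) → K | x = 0}ᶜ ∩
          {x : Fin (6 * a) → K | (A.map (eval x)).rank = a - 3} := by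
        ext x
        simp only [level, Set.mem_setOf_eq, Set.mem_inter_iff, Set.mem_compl_iff]
        constructor
        · intro hx
          have hx0 : x ≠ 0 := by
            rintro rfl
            rw [constr_level_ofFin_zero, vfun_zero] at hx
            omega
          refine ⟨hx0, ?_⟩
          rw [hA x hx0] at hx
          omega
        · rintro ⟨hx0, hx⟩
          rw [hA x hx0, hx]
          omega
      rw [h1]
      exact (constr_level_zero _).compl.inter (constr_rank A _)
    · have h1 : level a = Set.univᶜ := by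
        ext x
        simp only [level, Set.mem_setOf_eq, Set.compl_univ, Set.mem_empty_iff_false, iff_false]
        intro hx
        by_cases hx0 : x = 0
        · rw [hx0, constr_level_ofFin_zero, vfun_zero] at hx
          omega
        · rw [hA x hx0] at hx
          omega
      rw [h1]
      exact (constr_univ _).compl

end Pool.Agent.Helper449.MST
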