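import Mathlib

/-!
# Stringy motives of a wild quotient singularity: definitions

`K` is an algebraic closure of `𝔽₃`.

* `Gen`, `Rel`, `relSub`, `Fil`: the additive group of the Grothendieck ring of `K`-varieties
  with `L` inverted and `L^{1/27}` adjoined, by generators `{S} L^{b/27}` and relations, with its
  dimension filtration.
* `act`: the action of `ℤ[T]` on it, `T = L^{1/27}`.
* `mat`, `rho`: the linear action of `G = (ℤ/3)³` on `K^{6N}`.
* `lattice`, `vfun`: the function `v` of Yasuda on the space of `G`-torsors over `Spec K((t))`.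
-/

namespace Pool.Agent.Helper449.MST

open MvPolynomial

/-- The ground field: an algebraic closure of the field with three elements. -/
abbrev K : Type := AlgebraicClosure (ZMod 3)

/-- The Zariski-constructible subsets of affine space `K^n`: the Boolean algebra generated by the
zero sets of polynomials. -/
inductive Constr {n : ℕ} : Set (Fin n → K) → Prop
  | zero (P : MvPolynomial (Fin n) K) : Constr {x | eval x P = 0}
  | compl {S : Set (Fin n → K)} : Constr S → Constr Sᶜ
  | inter {S T : Set (Fin n → K)} : Constr S → Constr T → Constr (S ∩ T)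

/-- `f` is regular on `S`: its coordinates are quotients of polynomials whose denominators have no
zero on `S`. -/
def RegularOn {n m : ℕ} (S : Set (Fin n → K)) (f : (Fin n → K) → (Fin m → K)) : Prop :=
  ∀ i, ∃ P Q : MvPolynomial (Fin n) K, ∀ x ∈ S, eval x Q ≠ 0 ∧ f x i = eval x P / eval x Q

/-- `S` and `T` are isomorphic: there are mutually inverse regular maps between them. -/
def Isom {n m : ℕ} (S : Set (Fin n → K)) (T : Set (Fin m → K)) : Prop :=
  ∃ (f : (Fin n → K) → (Fin m → K)) (g : (Fin m → K) → (Fin n → K)),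
    RegularOn S f ∧ RegularOn T g ∧ Set.MapsTo f S T ∧ Set.MapsTo g T S ∧
      (∀ x ∈ S, g (f x) = x) ∧ ∀ y ∈ T, f (g y) = y

/-- The product `S × K` in `K^{n+1}`. -/
def cyl {n : ℕ} (S : Set (Fin n → K)) : Set (Fin (n + 1) → K) :=
  {x | (fun i : Fin n => x i.castSucc) ∈ S}

/-- A generator: the symbol `{S} L^{b/27}` for a constructible set `S` in some `K^n` and an
integer `b`. -/
structure Gen where
  n : ℕ
  S : Set (Fin n → K)
  constr : Constr S
  b : ℤ

/-- The relations: additivity for disjoint unions, invariance under isomorphism, and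
`{S × K} L^{b/27} = {S} L^{b/27 + 1}`. -/
inductive Rel : FreeAbelianGroup Gen → Prop
  | scissors {n : ℕ} {S T : Set (Fin n → K)} (hS : Constr S) (hT : Constr T)
      (hU : Constr (S ∪ T)) (h : Disjoint S T) (b : ℤ) :
      Rel (FreeAbelianGroup.of ⟨n, S ∪ T, hU, b⟩ -
        (FreeAbelianGroup.of ⟨n, S, hS, b⟩ + FreeAbelianGroup.of ⟨n, T, hT, b⟩))
  | iso {n m : ℕ} {S : Set (Fin n → K)} {T : Set (Fin m → K)} (hS : Constr S) (hT : Constr T)
      (h : Isom S T) (b : ℤ) :
      Rel (FreeAbelianGroup.of ⟨n, S, hS, b⟩ - FreeAbelianGroup.of ⟨m, T, hT, b⟩)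
  | line {n : ℕ} {S : Set (Fin n → K)} (hS : Constr S) (hC : Constr (cyl S)) (b : ℤ) :
      Rel (FreeAbelianGroup.of ⟨n + 1, cyl S, hC, b⟩ - FreeAbelianGroup.of ⟨n, S, hS, b + 27⟩)

/-- The subgroup generated by the relations. The quotient of `FreeAbelianGroup Gen` by it is the
additive group of `K₀(Var_K)[L⁻¹]` with `L^{1/27}` adjoined. -/
def relSub : AddSubgroup (FreeAbelianGroup Gen) := AddSubgroup.closure {x | Rel x}

/-- The step `m` of the dimension filtration: the subgroup generated by the symbols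
`{S} L^{b/27}` with `dim S + b/27 ≤ -m`, where `dim S` is the Krull dimension of the coordinate
ring of the Zariski closure of `S`. -/
def Fil (m : ℤ) : AddSubgroup (FreeAbelianGroup Gen) :=
  AddSubgroup.closure {x | ∃ (g : Gen) (D : ℕ),
    ringKrullDim (MvPolynomial (Fin g.n) K ⧸ vanishingIdeal K g.S) ≤ (D : WithBot ℕ∞) ∧
      27 * (D : ℤ) + g.b ≤ -(27 * m) ∧ x = FreeAbelianGroup.of g}

/-- Multiplication by `L^{j/27}`. -/
noncomputable def shift (j : ℤ) : FreeAbelianGroup Gen →+ FreeAbelianGroup Gen :=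
  FreeAbelianGroup.lift fun g => FreeAbelianGroup.of ⟨g.n, g.S, g.constr, g.b + j⟩

/-- Multiplication by `P(L^{1/27})` for an integer polynomial `P`. -/
noncomputable def act (P : Polynomial ℤ) (x : FreeAbelianGroup Gen) : FreeAbelianGroup Gen :=
  P.sum fun j c => c • shift (j : ℤ) x

theorem constr_univ (n : ℕ) : Constr (Set.univ : Set (Fin n → K)) := by
  have h := Constr.zero (n := n) 0
  have : {x : Fin n → K | eval x (0 : MvPolynomial (Fin n) K) = 0} = Set.univ := by
    ext x; simp
  rwa [this] at h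

/-- The class of a point, the unit element. -/
noncomputable def one : FreeAbelianGroup Gen := FreeAbelianGroup.of ⟨0, Set.univ, constr_univ 0, 0⟩

/-- The sequence `s` converges in the completed Grothendieck ring (it is a Cauchy sequence for
the dimension filtration). -/
def Converges (s : ℕ → FreeAbelianGroup Gen) : Prop :=
  ∀ m : ℤ, ∃ n₀, ∀ n ≥ n₀, ∀ n' ≥ n₀, s n - s n' ∈ relSub ⊔ Fil m

/-- The limit `M` of `s` in the completed Grothendieck ring satisfies
`Q(L^{1/27}) M = P(L^{1/27})` for some integer polynomials `P`, `Q` with `Q ≠ 0`. -/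
def LimitIsRational (s : ℕ → FreeAbelianGroup Gen) : Prop :=
  ∃ P Q : Polynomial ℤ, Q ≠ 0 ∧
    ∀ m : ℤ, ∃ n₀, ∀ n ≥ n₀, act Q (s n) - act P one ∈ relSub ⊔ Fil m

/-! ### The group action -/

theorem exists_theta : ∃ θ : K, θ ^ 3 = θ + 1 := by
  obtain ⟨θ, h⟩ := IsAlgClosed.exists_root (Polynomial.X ^ 3 - Polynomial.X - 1 : Polynomial K) (by
    have : (Polynomial.X ^ 3 - Polynomial.X - 1 : Polynomial K).degree = 3 := by
      compute_degree!
    rw [this]; decide)
  refine ⟨θ, ?_⟩
  simp only [Polynomial.IsRoot, Polynomial.eval_sub, Polynomial.eval_pow, Polynomial.eval_X,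
    Polynomial.eval_one] at h
  linear_combination h

/-- A generator of `𝔽₂₇` over `𝔽₃`: `θ³ = θ + 1`, so `1, θ, θ²` is an `𝔽₃`-basis of `𝔽₂₇ ⊂ K`. -/
noncomputable def theta : K := Classical.choose exists_theta

theorem theta_pow : theta ^ 3 = theta + 1 := Classical.choose_spec exists_theta

/-- The matrix `M(c)` for `c ∈ K³`: with `X = c₀ + c₁ θ + c₂ θ²`, `Y = c₀ + c₁ θ³ + c₂ θ⁶`,
`Z = c₀ + c₁ θ⁹ + c₂ θ¹⁸` it is `((X, Y, Z), (0, X, Y), (Z, 0, X))`. For `c = g ∈ 𝔽₃³` one has
`(X, Y, Z) = (γ, γ³, γ⁹)` with `γ = g₀ + g₁ θ + g₂ θ² ∈ 𝔽₂₇`. -/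
noncomputable def mat (c : Fin 3 → K) : Matrix (Fin 3) (Fin 3) K :=
  let X := c 0 + c 1 * theta + c 2 * theta ^ 2
  let Y := c 0 + c 1 * (theta + 1) + c 2 * (theta + 1) ^ 2
  let Z := c 0 + c 1 * (theta - 1) + c 2 * (theta - 1) ^ 2
  !![X, Y, Z; 0, X, Y; Z, 0, X]

/-- The representation space of dimension `6N`: `N` copies of `K³ × K³`. -/
abbrev V (N : ℕ) : Type := Fin N → (Fin 3 → K) × (Fin 3 → K)

/-- The action of `g ∈ G = (ℤ/3)³` on `K^{6N}`: on each copy `(x, y) ↦ (x, y + M(g) x)`. -/
noncomputable def rho (N : ℕ) (g : Fin 3 → ZMod 3) : V N →ₗ[K] V N where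
  toFun w := fun r => ((w r).1, (w r).2 + (mat fun l => algebraMap (ZMod 3) K (g l)).mulVec (w r).1)
  map_add' w w' := by
    funext r
    simp only [Pi.add_apply, Prod.fst_add, Prod.snd_add, Matrix.mulVec_add, Prod.mk_add_mk]
    refine Prod.ext rfl ?_
    simp only
    abel
  map_smul' a w := by
    funext r
    simp only [Pi.smul_apply, Prod.smul_fst, Prod.smul_snd, Matrix.mulVec_smul, RingHom.id_apply,
      Prod.smul_mk, smul_add]

/-! ### Torsors and the function `v` -/

/-- `c ↦ c^{1/3^e}` on `K`. -/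
noncomputable def frobInv (e : ℕ) : K → K := (iterateFrobeniusEquiv K 3 e).symm

/-- `G`-torsors over `Spec K((t))` are classified by `H¹ = (K((t)) / ℘ K((t)))³`, `℘ f = f³ - f`;
each class has exactly one representative `f = ∑_j c_j t^{-j}` with `c_j ∈ K³` and `j` running
through the positive integers not divisible by `3`. So the set of torsors is `ℕ →₀ K`; `coef F j` is
the vector `c_j` of the torsor with coordinates `F`: the coordinates `F 0, F 1, F 2` are those of
`c_1`, `F 3, F 4, F 5` those of `c_2`, `F 6, F 7, F 8` those of `c_4`, and so on. -/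
noncomputable def coef (F : ℕ →₀ K) (j : ℕ) : Fin 3 → K :=
  fun l => if j % 3 = 0 then 0 else F (3 * (2 * (j / 3) + j % 3 - 1) + l)

/-- The lattice `Λ(f) ⊆ K[[t]]³` of the `x = ∑ x_s t^s` such that `M(α) x + y` is integral for some
`y ∈ K((t))³`, where `α` with `α³ - α = f` (componentwise) generates the torsor: the projection to
`K[[t]]³` of the module of `G`-equivariant maps from the normalisation of `Spec K[[t]]` in the
torsor to `K³ × K³`. As `α = ∑_{e ≥ 1} f^{1/3^e}` (up to constants), the condition is that for all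
`e, i ≥ 1` with `3 ∤ i` the coefficient `∑_s M(c_{i + 3^e s}^{1/3^e}) x_s` of `M(α) x` at
`t^{-i/3^e}` vanishes. -/
noncomputable def lattice (F : ℕ →₀ K) : Submodule K (ℕ → Fin 3 → K) where
  carrier := {x | ∀ e i : ℕ, 1 ≤ e → 1 ≤ i → ¬ 3 ∣ i →
    ∑ s ∈ Finset.range (F.support.sup id + 1),
      (mat fun l => frobInv e (coef F (i + 3 ^ e * s) l)).mulVec (x s) = 0}
  add_mem' {x y} hx hy e i he hi h3 := by
    simp only [Pi.add_apply, Matrix.mulVec_add, Finset.sum_add_distrib]
    rw [hx e i he hi h3, hy e i he hi h3, add_zero]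
  zero_mem' e i _ _ _ := by simp
  smul_mem' a x hx e i he hi h3 := by
    simp only [Pi.smul_apply, Matrix.mulVec_smul, ← Finset.smul_sum]
    rw [hx e i he hi h3, smul_zero]

/-- The value of Yasuda's function `v` at the torsor `F` for the representation `K³ × K³`
(one copy): the length of `K[[t]]³ / Λ(f)`. For `N` copies the value is `N * vfun F`. -/
noncomputable def vfun (F : ℕ →₀ K) : ℕ :=
  Module.finrank K ((ℕ → Fin 3 → K) ⧸ lattice F)

/-- The torsor with the given first `n` coordinates, all others being zero. -/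
noncomputable def ofFin {n : ℕ} (x : Fin n → K) : ℕ →₀ K :=
  Finsupp.onFinset (Finset.range n) (fun i => if h : i < n then x ⟨i, h⟩ else 0) (by
    intro i hi
    by_contra h
    exact hi (by simp only [Finset.mem_range] at h; rw [dif_neg h]))

/-- The level set `v = a` (for one copy; the level set `v = N a` for `N` copies), a subset of the
space `K^{6a}` of the torsors with only the first `6a` coordinates nonzero. -/
def level (a : ℕ) : Set (Fin (6 * a) → K) := {x | vfun (ofFin x) = a}

end Pool.Agent.Helper449.MST
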