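import Pool.Agent.Helper449.MST.Defs

/-!
# The matrices of the representation, torsors and Yasuda's function `v`
-/

namespace Pool.Agent.Helper449.MST

open MvPolynomial

/-! ### The representation -/

/-- The coordinates of `K^{6N}`: `N` copies of `K³ × K³`. -/
abbrev Idx (N : ℕ) : Type := (Fin 3 ⊕ Fin 3) × Fin N

/-- The matrix `M(g)` for `g ∈ G = (ℤ/3)³`. -/
noncomputable def matG (g : Fin 3 → ZMod 3) : Matrix (Fin 3) (Fin 3) K :=
  mat fun l => algebraMap (ZMod 3) K (g l)

/-- The matrix of `g ∈ G` on `K^{6N}`: on each of the `N` copies of `K³ × K³` it is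
`(x, y) ↦ (x, y + M(g) x)`. -/
noncomputable def rep (N : ℕ) (g : Fin 3 → ZMod 3) : Matrix (Idx N) (Idx N) K :=
  Matrix.blockDiagonal fun _ => Matrix.fromBlocks 1 0 (matG g) 1

/-! ### Tuning modules -/

section General

variable {G ι A L : Type} [Fintype ι] [CommRing A] [CommRing L] [Algebra A L]

/-- Let `A = K[[t]]`, let `L` be the algebra of a `G`-torsor over `Spec K((t))`, with the action
`σ` of `G`, and let `𝓞 L` be the integral closure of `A` in `L`. For a representation `R` of `G`
this is the set of the `G`-equivariant maps from `Spec 𝓞 L` to the representation space, that is of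
the `w ∈ (𝓞 L)^ι` with `σ_g (w) = R(g) w` for all `g` (the tuning module). -/
def tuning (σ : G → L → L) (R : G → Matrix ι ι A) : Set (ι → integralClosure A L) :=
  {w | ∀ g i, σ g (w i) = ∑ k, algebraMap A L (R g i k) * w k}

omit [Fintype ι] in
/-- The length over `A` of `O^ι` modulo the `O`-submodule generated by `T`. -/
noncomputable def spanColength (A : Type) {O : Type} [CommRing A] [CommRing O] [Algebra A O]
    (T : Set (ι → O)) : ℕ∞ :=
  Module.length A ((ι → O) ⧸ Submodule.span O T)

/-- The length over `A` of `(𝓞 L)^ι` modulo the `𝓞 L`-submodule generated by the tuning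
module. -/
noncomputable def colength (σ : G → L → L) (R : G → Matrix ι ι A) : ℕ∞ :=
  spanColength A (tuning σ R)

end General

/-! ### Artin-Schreier torsors -/

section ArtinSchreier

variable {E : Type} [CommRing E]

/-- The ideal of the relations `A_l³ - A_l = f_l`, `l = 0, 1, 2`. -/
noncomputable def asIdeal (f : Fin 3 → E) : Ideal (MvPolynomial (Fin 3) E) :=
  Ideal.span (Set.range fun l : Fin 3 => X l ^ 3 - X l - C (f l))

/-- The algebra of the `(ℤ/3)³`-torsor over `Spec E` with the class of `f` (Artin-Schreier theory):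
generated by `A₀, A₁, A₂` with the relations `A_l³ - A_l = f_l`. -/
abbrev AS (f : Fin 3 → E) : Type := MvPolynomial (Fin 3) E ⧸ asIdeal f

/-- The generators `A_l`. -/
noncomputable def gen (f : Fin 3 → E) (l : Fin 3) : AS f := Ideal.Quotient.mk (asIdeal f) (X l)

theorem gen_pow (f : Fin 3 → E) (l : Fin 3) :
    gen f l ^ 3 - gen f l = algebraMap E (AS f) (f l) := by
  have h : Ideal.Quotient.mk (asIdeal f) (X l ^ 3 - X l - C (f l)) = 0 :=
    Ideal.Quotient.eq_zero_iff_mem.2 (Ideal.subset_span ⟨l, rfl⟩)
  rw [map_sub, map_sub, map_pow, sub_eq_zero] at h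
  exact h

theorem sigma_aux [CharP E 3] (f : Fin 3 → E) (g : Fin 3 → ZMod 3) :
    ∀ P ∈ asIdeal f, aeval (fun l => gen f l + ((g l).val : AS f)) P = (0 : AS f) := by
  intro P hP
  have h3 : (3 : AS f) = 0 := by
    have h1 : (3 : E) = 0 := by
      have := CharP.cast_eq_zero E 3
      exact_mod_cast this
    calc (3 : AS f) = algebraMap E (AS f) 3 := (map_ofNat _ 3).symm
      _ = 0 := by rw [h1, map_zero]
  have hle : asIdeal f ≤ RingHom.ker (aeval (R := E)
      (fun l => gen f l + ((g l).val : AS f))).toRingHom := by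
    refine Ideal.span_le.2 ?_
    rintro _ ⟨l, rfl⟩
    have hv : ((g l).val : AS f) ^ 3 = ((g l).val : AS f) := by
      have hlt : (g l).val < 3 := ZMod.val_lt (g l)
      interval_cases h : (g l).val
      · simp
      · simp
      · push_cast
        linear_combination 2 * h3
    have hg := gen_pow f l
    simp only [SetLike.mem_coe, RingHom.mem_ker, AlgHom.toRingHom_eq_coe, RingHom.coe_coe,
      map_sub, map_pow, aeval_X, algHom_C]
    rw [← hg]
    linear_combination hv + (gen f l ^ 2 * ((g l).val : AS f) +
      gen f l * ((g l).val : AS f) ^ 2) * h3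
  exact hle hP

/-- The homomorphism from the polynomial ring with `A_l ↦ A_l + g_l`. -/
noncomputable def sigmaPoly (f : Fin 3 → E) (g : Fin 3 → ZMod 3) :
    MvPolynomial (Fin 3) E →+* AS f :=
  eval₂Hom (algebraMap E (AS f)) fun l => gen f l + ((g l).val : AS f)

theorem sigmaPoly_eq_zero [CharP E 3] (f : Fin 3 → E) (g : Fin 3 → ZMod 3) :
    ∀ P ∈ asIdeal f, sigmaPoly f g P = 0 := sigma_aux f g

/-- The action of `g ∈ G = (ℤ/3)³` on the torsor: `A_l ↦ A_l + g_l`. -/
noncomputable def sigma [CharP E 3] (f : Fin 3 → E) (g : Fin 3 → ZMod 3) : AS f → AS f :=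
  Ideal.Quotient.lift (asIdeal f) (sigmaPoly f g) (sigmaPoly_eq_zero f g)

end ArtinSchreier

/-! ### The function `v` -/

instance charLS : CharP (LaurentSeries K) 3 :=
  charP_of_injective_algebraMap (algebraMap K (LaurentSeries K)).injective 3

/-- The Laurent polynomials `f_l = ∑_j c_j(l) t^{-j}`, `l = 0, 1, 2`, of the torsor `F`. -/
noncomputable def fser (F : ℕ →₀ K) (l : Fin 3) : LaurentSeries K :=
  ∑ j ∈ Finset.range (F.support.sup id + 2), HahnSeries.single (-(j : ℤ)) (coef F j l)

/-- `|G| = 27` times the value at the torsor `F` of Yasuda's function `v` of the representation of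
`G = (ℤ/3)³` on `K^{6N}`: the length of `(𝓞 L)^{6N}` modulo the submodule generated by the tuning
module, where `L` is the algebra of the torsor. -/
noncomputable def v27 (N : ℕ) (F : ℕ →₀ K) : ℕ∞ :=
  colength (A := PowerSeries K) (L := AS (fser F)) (sigma (fser F))
    fun g => (rep N g).map PowerSeries.C

/-- The level set `v = b / 27`, as a subset of the space `K^b` of the torsors with only the first
`b` coordinates nonzero. -/
def levelY (N b : ℕ) : Set (Fin b → K) := {x | v27 N (ofFin x) = b}

end Pool.Agent.Helper449.MST
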