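import Pool.Agent.Helper449.MST.B
import Pool.Agent.Helper449.MST.D

/-! # counting -/

namespace Pool.Agent.Helper449.MST

open MvPolynomial

private def curve_count_wp (F : Type) [Field F] [CharP F 3] : F →+ F where
  toFun x := x - x ^ 3
  map_zero' := by ring
  map_add' x y := by
    have : Fact (Nat.Prime 3) := ⟨Nat.prime_three⟩
    rw [add_pow_char]
    ring

private theorem curve_count_wp_apply (F : Type) [Field F] [CharP F 3] (x : F) :
    curve_count_wp F x = x - x ^ 3 := rfl

open Classical in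
private theorem curve_count_ker (F : Type) [Field F] [Fintype F] [CharP F 3] :
    (Finset.univ.filter (fun x : F => x - x ^ 3 = 0)).card = 3 := by
  have h2 : (2 : F) ≠ 0 := by
    intro h
    have h3 : ((3 : ℕ) : F) = 0 := CharP.cast_eq_zero F 3
    have h4 : (1 : F) = 0 := by
      push_cast at h3
      linear_combination h3 - h
    exact one_ne_zero h4
  have he : Finset.univ.filter (fun x : F => x - x ^ 3 = 0) = {0, 1, -1} := by
    ext x
    simp only [Finset.mem_filter, Finset.mem_univ, true_and, Finset.mem_insert,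
      Finset.mem_singleton]
    constructor
    · intro h
      have h1 : x * ((x - 1) * (x + 1)) = 0 := by linear_combination -h
      rcases mul_eq_zero.1 h1 with h | h
      · exact Or.inl h
      · rcases mul_eq_zero.1 h with h | h
        · exact Or.inr (Or.inl (sub_eq_zero.1 h))
        · exact Or.inr (Or.inr (eq_neg_of_add_eq_zero_left h))
    · rintro (h | h | h)
      · rw [h]; ring
      · rw [h]; ring
      · rw [h]; ring
  rw [he, Finset.card_insert_of_notMem, Finset.card_pair]
  · intro h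
    apply h2
    linear_combination h
  · simp only [Finset.mem_insert, Finset.mem_singleton, not_or]
    constructor
    · exact zero_ne_one
    · intro h
      exact one_ne_zero (neg_eq_zero.1 h.symm)

private theorem curve_count_T (F : Type) [Field F] [Fintype F] [CharP F 3] :
    ∃ T : F →+ ZMod 3, Function.Surjective T ∧ ∀ c, T c = 0 ↔ ∃ x, x - x ^ 3 = c := by
  classical
  have : Fact (Nat.Prime 3) := ⟨Nat.prime_three⟩
  have h1 : Nat.card (curve_count_wp F).ker = 3 := by
    rw [Nat.card_eq_fintype_card, ← curve_count_ker F]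
    rw [Fintype.card_subtype]
    congr 1
    ext x
    rw [Finset.mem_filter, Finset.mem_filter, AddMonoidHom.mem_ker, curve_count_wp_apply]
  have h2 := AddSubgroup.card_mul_index (curve_count_wp F).ker
  rw [AddSubgroup.index_ker, h1] at h2
  have h3 := AddSubgroup.card_mul_index (curve_count_wp F).range
  have h4 : (curve_count_wp F).range.index = 3 := by
    have hpos : 0 < Nat.card (curve_count_wp F).range := Nat.card_pos
    have h5 : Nat.card (curve_count_wp F).range * (curve_count_wp F).range.index =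
        Nat.card (curve_count_wp F).range * 3 := by
      rw [h3, ← h2]
      ring
    exact Nat.eq_of_mul_eq_mul_left hpos h5
  have h5 : Nat.card (F ⧸ (curve_count_wp F).range) = 3 := h4
  have h6 : Nat.card (ZMod 3) = 3 := Nat.card_zmod 3
  let e : (F ⧸ (curve_count_wp F).range) ≃+ ZMod 3 := addEquivOfPrimeCardEq h5 h6
  refine ⟨e.toAddMonoidHom.comp (QuotientAddGroup.mk' (curve_count_wp F).range), ?_, ?_⟩
  · exact e.surjective.comp (QuotientAddGroup.mk'_surjective _)
  · intro c
    show e (QuotientAddGroup.mk c) = 0 ↔ _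
    rw [AddEquiv.map_eq_zero_iff, QuotientAddGroup.eq_zero_iff]
    exact Iff.rfl

theorem curve_count (F : Type) [Field F] [Fintype F] [CharP F 3] (l : ℕ)
    (hF : Fintype.card F = 3 ^ (2 * l)) (hl : 0 < l) :
    ∃ G : ℤ, (G = 3 ^ l ∨ G = -3 ^ l) ∧
      (Nat.card {p : F × F // p.2 ^ 2 = p.1 - p.1 ^ 3} : ℤ) = 3 ^ (2 * l) + 2 * G := by
  classical
  obtain ⟨T, hTs, hT0⟩ := curve_count_T F
  have h3F : (3 : F) = 0 := by
    have : ((3 : ℕ) : F) = 0 := CharP.cast_eq_zero F 3
    exact_mod_cast this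
  have h2 : (2 : F) ≠ 0 := by
    intro h
    have h4 : (1 : F) = 0 := by linear_combination h3F - h
    exact one_ne_zero h4
  obtain ⟨q, hq⟩ : ∃ q : ℤ, q = 3 ^ (2 * l) := ⟨_, rfl⟩
  have hcard : (∑ _y : F, (1 : ℤ)) = q := by
    rw [Finset.sum_const, Finset.card_univ, hF, hq]
    simp
  -- fibres of x - x^3
  have hfib : ∀ c : F, (∑ x : F, if x - x ^ 3 = c then (1 : ℤ) else 0) =
      3 * (if T c = 0 then 1 else 0) := by
    intro c
    by_cases hc : T c = 0
    · rw [if_pos hc, mul_one]
      obtain ⟨x0, hx0⟩ := (hT0 c).1 hc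
      rw [← Equiv.sum_comp (Equiv.addRight x0)]
      have e1 : ∀ x : F, ((Equiv.addRight x0) x - ((Equiv.addRight x0) x) ^ 3 = c) ↔
          x - x ^ 3 = 0 := by
        intro x
        have h5 := map_add (curve_count_wp F) x x0
        rw [curve_count_wp_apply, curve_count_wp_apply, curve_count_wp_apply, hx0] at h5
        show (x + x0) - (x + x0) ^ 3 = c ↔ _
        rw [h5]
        exact add_eq_right
      simp only [e1]
      rw [Finset.sum_boole, curve_count_ker F]
      rfl
    · rw [if_neg hc, mul_zero]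
      apply Finset.sum_eq_zero
      intro x _
      rw [if_neg]
      intro h
      exact hc ((hT0 c).2 ⟨x, h⟩)
  -- counts
  obtain ⟨n, hn⟩ : ∃ n : ZMod 3 → ℤ, ∀ i, n i = ∑ y : F, if T (y ^ 2) = i then (1 : ℤ) else 0 :=
    ⟨_, fun i => rfl⟩
  -- total count
  have hN : (Nat.card {p : F × F // p.2 ^ 2 = p.1 - p.1 ^ 3} : ℤ) = 3 * n 0 := by
    rw [Nat.card_eq_fintype_card, Fintype.card_subtype]
    have e1 : ((Finset.univ.filter (fun p : F × F => p.2 ^ 2 = p.1 - p.1 ^ 3)).card : ℤ) =
        ∑ p : F × F, if p.2 ^ 2 = p.1 - p.1 ^ 3 then (1 : ℤ) else 0 := by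
      rw [Finset.sum_boole]
    rw [e1, Fintype.sum_prod_type, Finset.sum_comm, hn, Finset.mul_sum]
    apply Finset.sum_congr rfl
    intro y _
    rw [← hfib]
    apply Finset.sum_congr rfl
    intro x _
    show (if y ^ 2 = x - x ^ 3 then (1 : ℤ) else 0) = _
    simp only [eq_comm]
  -- sum of the n i
  have hsum : n 0 + n 1 + n 2 = q := by
    have e1 : ∑ i : ZMod 3, n i = q := by
      simp only [hn]
      rw [Finset.sum_comm, ← hcard]
      apply Finset.sum_congr rfl
      intro y _
      rw [Finset.sum_ite_eq]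
      simp
    rw [← e1]
    exact (Fin.sum_univ_three n).symm
  -- symmetry
  have hsym : n 1 = n 2 := by
    have hsq : IsSquare (-1 : F) := by
      rw [FiniteField.isSquare_neg_one_iff, hF]
      have : 3 ^ (2 * l) % 4 = 1 := by
        rw [pow_mul]
        norm_num [Nat.pow_mod]
      omega
    obtain ⟨j, hj⟩ := hsq
    have hj0 : j ≠ 0 := by
      rintro rfl
      have : (-1 : F) ≠ 0 := neg_ne_zero.2 one_ne_zero
      exact this (by rw [hj]; ring)
    rw [hn, hn, ← Equiv.sum_comp (Equiv.mulLeft₀ j hj0)]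
    apply Finset.sum_congr rfl
    intro y _
    have e1 : T ((Equiv.mulLeft₀ j hj0 y) ^ 2) = - T (y ^ 2) := by
      rw [← map_neg]
      congr 1
      show (j * y) ^ 2 = _
      linear_combination (-(y ^ 2)) * hj
    rw [e1]
    have e2 : (- T (y ^ 2) = 1) ↔ (T (y ^ 2) = 2) := by
      generalize T (y ^ 2) = a
      revert a
      decide
    simp only [e2]
  -- kernel of T
  obtain ⟨κ, hκ⟩ : ∃ κ : ℤ, κ = ∑ v : F, if T v = 0 then (1 : ℤ) else 0 := ⟨_, rfl⟩
  have hκi : ∀ i : ZMod 3, (∑ v : F, if T v = i then (1 : ℤ) else 0) = κ := by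
    intro i
    obtain ⟨w, hw⟩ := hTs i
    rw [hκ, ← Equiv.sum_comp (Equiv.addRight w)]
    apply Finset.sum_congr rfl
    intro v _
    have e1 : T ((Equiv.addRight w) v) = T v + i := by
      show T (v + w) = _
      rw [map_add, hw]
    rw [e1]
    simp only [add_eq_right]
  have h3κ : 3 * κ = q := by
    have e1 : ∑ i : ZMod 3, (∑ v : F, if T v = i then (1 : ℤ) else 0) = q := by
      rw [Finset.sum_comm, ← hcard]
      apply Finset.sum_congr rfl
      intro y _
      rw [Finset.sum_ite_eq]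
      simp
    simp only [hκi] at e1
    rw [Finset.sum_const, Finset.card_univ, ZMod.card] at e1
    rw [← e1]
    simp
  -- pairs
  have hpair1 : (∑ y : F, ∑ z : F, if T (y ^ 2 - z ^ 2) = 0 then (1 : ℤ) else 0) =
      n 0 ^ 2 + n 1 ^ 2 + n 2 ^ 2 := by
    have e1 : ∀ y z : F, (if T (y ^ 2 - z ^ 2) = 0 then (1 : ℤ) else 0) =
        ∑ i : ZMod 3, (if T (y ^ 2) = i then (1 : ℤ) else 0) *
          (if T (z ^ 2) = i then (1 : ℤ) else 0) := by
      intro y z
      rw [map_sub]
      generalize T (y ^ 2) = a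
      generalize T (z ^ 2) = b
      revert a b
      decide
    simp only [e1]
    have e2 : (∑ y : F, ∑ z : F, ∑ i : ZMod 3, (if T (y ^ 2) = i then (1 : ℤ) else 0) *
          (if T (z ^ 2) = i then (1 : ℤ) else 0)) = ∑ i : ZMod 3, n i ^ 2 := by
      have e3 : ∀ y : F, (∑ z : F, ∑ i : ZMod 3, (if T (y ^ 2) = i then (1 : ℤ) else 0) *
          (if T (z ^ 2) = i then (1 : ℤ) else 0)) =
          ∑ i : ZMod 3, (if T (y ^ 2) = i then (1 : ℤ) else 0) * n i := by
        intro y
        rw [Finset.sum_comm]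
        apply Finset.sum_congr rfl
        intro i _
        rw [← Finset.mul_sum, hn]
      simp only [e3]
      rw [Finset.sum_comm]
      apply Finset.sum_congr rfl
      intro i _
      rw [← Finset.sum_mul, ← hn, sq]
    rw [e2]
    exact Fin.sum_univ_three (fun i => n i ^ 2)
  have hpair2 : (∑ y : F, ∑ z : F, if T (y ^ 2 - z ^ 2) = 0 then (1 : ℤ) else 0) =
      q + (q - 1) * κ := by
    have e1 : (∑ y : F, ∑ z : F, if T (y ^ 2 - z ^ 2) = 0 then (1 : ℤ) else 0) =
        ∑ u : F, ∑ v : F, if T (u * v) = 0 then (1 : ℤ) else 0 := by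
      calc (∑ y : F, ∑ z : F, if T (y ^ 2 - z ^ 2) = 0 then (1 : ℤ) else 0)
          = ∑ z : F, ∑ y : F, if T (y ^ 2 - z ^ 2) = 0 then (1 : ℤ) else 0 := Finset.sum_comm
        _ = ∑ z : F, ∑ u : F, if T (u * (u + 2 * z)) = 0 then (1 : ℤ) else 0 := by
            apply Finset.sum_congr rfl
            intro z _
            rw [← Equiv.sum_comp (Equiv.addRight z)]
            apply Finset.sum_congr rfl
            intro u _
            have e2 : ((Equiv.addRight z) u) ^ 2 - z ^ 2 = u * (u + 2 * z) := by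
              show (u + z) ^ 2 - z ^ 2 = _
              ring
            rw [e2]
        _ = ∑ u : F, ∑ z : F, if T (u * (u + 2 * z)) = 0 then (1 : ℤ) else 0 := Finset.sum_comm
        _ = ∑ u : F, ∑ v : F, if T (u * v) = 0 then (1 : ℤ) else 0 := by
            apply Finset.sum_congr rfl
            intro u _
            rw [← Equiv.sum_comp ((Equiv.mulLeft₀ (2 : F) h2).trans (Equiv.addLeft u))
              (fun v => if T (u * v) = 0 then (1 : ℤ) else 0)]
            rfl
    rw [e1, ← Finset.add_sum_erase Finset.univ _ (Finset.mem_univ (0 : F))]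
    have e2 : (∑ v : F, if T (0 * v) = 0 then (1 : ℤ) else 0) = q := by
      simp only [zero_mul, map_zero, if_true]
      exact hcard
    have e3 : ∀ u ∈ Finset.univ.erase (0 : F),
        (∑ v : F, if T (u * v) = 0 then (1 : ℤ) else 0) = κ := by
      intro u hu
      have hu0 : u ≠ 0 := Finset.ne_of_mem_erase hu
      rw [hκ, ← Equiv.sum_comp (Equiv.mulLeft₀ u hu0) (fun v => if T v = 0 then (1 : ℤ) else 0)]
      rfl
    rw [e2, Finset.sum_congr rfl e3, Finset.sum_const, Finset.card_erase_of_mem (Finset.mem_univ _),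
      Finset.card_univ, hF, nsmul_eq_mul, Nat.cast_sub (Nat.one_le_pow _ _ (by norm_num)), hq]
    push_cast
    ring
  -- conclusion
  have hG : (n 0 - n 1) ^ 2 = (3 ^ l) ^ 2 := by
    have e1 : ((3 : ℤ) ^ l) ^ 2 = q := by
      rw [hq, ← pow_mul, mul_comm]
    rw [e1]
    rw [hpair1] at hpair2
    rw [← hsym] at hsum hpair2
    have e2 : n 0 = q - 2 * n 1 := by linarith
    rw [e2] at hpair2 ⊢
    nlinarith
  refine ⟨n 0 - n 1, sq_eq_sq_iff_eq_or_eq_neg.1 hG, ?_⟩
  rw [hN, ← hq]
  rw [← hsym] at hsum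
  linarith

theorem cone_count_bij (F : Type) [Field F] :
    ∃ f : Fˣ × Option {p : F × F // p.2 ^ 2 = p.1 - p.1 ^ 3} →
      {p : F × F × F // p ≠ 0 ∧ p.1 ^ 3 + p.2.1 ^ 2 * p.2.2 - p.1 * p.2.2 ^ 2 = 0},
      Function.Bijective f := by
  refine ⟨fun t => match t with
    | (u, none) => ⟨((0 : F), (u : F), (0 : F)), ?_, ?_⟩
    | (u, some c) => ⟨((u : F) * c.1.1, (u : F) * c.1.2, (u : F)), ?_, ?_⟩, ?_, ?_⟩
  · intro h
    exact u.ne_zero (congrArg (fun p : F × F × F => p.2.1) h)
  · simp
  · intro h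
    exact u.ne_zero (congrArg (fun p : F × F × F => p.2.2) h)
  · have hc := c.2
    simp only
    linear_combination (u : F) ^ 3 * hc
  · rintro ⟨u, c⟩ ⟨u', c'⟩ h
    rcases c with _ | c
    · rcases c' with _ | c'
      · have h1 := congrArg (fun p => p.1.2.1) h
        simp only at h1
        rw [Units.ext h1]
      · have h1 := congrArg (fun p => p.1.2.2) h
        simp only at h1
        exact absurd h1.symm u'.ne_zero
    · rcases c' with _ | c'
      · have h1 := congrArg (fun p => p.1.2.2) h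
        simp only at h1
        exact absurd h1 u.ne_zero
      · have h1 := congrArg (fun p => p.1.2.2) h
        have h2 := congrArg (fun p => p.1.1) h
        have h3 := congrArg (fun p => p.1.2.1) h
        simp only at h1 h2 h3
        have hu : u = u' := Units.ext h1
        subst hu
        have h4 : c.1.1 = c'.1.1 := mul_left_cancel₀ u.ne_zero h2
        have h5 : c.1.2 = c'.1.2 := mul_left_cancel₀ u.ne_zero h3
        have h6 : c = c' := Subtype.ext (Prod.ext h4 h5)
        rw [h6]
  · rintro ⟨⟨X, Y, Z⟩, h0, h1⟩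
    simp only at h1
    by_cases hZ : Z = 0
    · subst hZ
      have hX : X = 0 := by
        have : X ^ 3 = 0 := by linear_combination h1
        exact pow_eq_zero_iff (by norm_num) |>.1 this
      subst hX
      have hY : Y ≠ 0 := by
        rintro rfl
        exact h0 rfl
      exact ⟨(Units.mk0 Y hY, none), rfl⟩
    · refine ⟨(Units.mk0 Z hZ, some ⟨(X / Z, Y / Z), ?_⟩), ?_⟩
      · simp only
        field_simp
        linear_combination h1
      · refine Subtype.ext ?_
        simp only [Units.val_mk0]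
        rw [mul_div_cancel₀ _ hZ, mul_div_cancel₀ _ hZ]

theorem cone_count (F : Type) [Field F] [Fintype F] [CharP F 3] (l : ℕ)
    (hF : Fintype.card F = 3 ^ (2 * l)) (hl : 0 < l) :
    ∃ G : ℤ, (G = 3 ^ l ∨ G = -3 ^ l) ∧
      (Nat.card {p : F × F × F // p ≠ 0 ∧ p.1 ^ 3 + p.2.1 ^ 2 * p.2.2 - p.1 * p.2.2 ^ 2 = 0} : ℤ) =
        (3 ^ (2 * l) - 1) * (3 ^ (2 * l) + 1 + 2 * G) := by
  obtain ⟨G, hG, hc⟩ := curve_count F l hF hl
  refine ⟨G, hG, ?_⟩
  obtain ⟨f, hf⟩ := cone_count_bij F
  have h1 := Nat.card_congr (Equiv.ofBijective f hf)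
  have h2 : Nat.card Fˣ = 3 ^ (2 * l) - 1 := by
    rw [Nat.card_units, Nat.card_eq_fintype_card, hF]
  rw [← h1, Nat.card_prod, Finite.card_option, h2]
  have h3 : 1 ≤ 3 ^ (2 * l) := Nat.one_le_pow _ _ (by norm_num)
  push_cast [Nat.cast_sub h3]
  rw [hc]
  ring

theorem det_count_h3 : (3 : K) = 0 := by exact_mod_cast CharP.cast_eq_zero K 3

theorem det_count_det (c : Fin 3 → K) (X Y Z : K)
    (hX : c 0 + c 1 * theta + c 2 * theta ^ 2 = X)
    (hY : c 0 + c 1 * (theta + 1) + c 2 * (theta + 1) ^ 2 = Y)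
    (hZ : c 0 + c 1 * (theta - 1) + c 2 * (theta - 1) ^ 2 = Z) :
    (mat c).det = X ^ 3 + Y ^ 2 * Z - X * Z ^ 2 := by
  unfold mat
  simp only [hX, hY, hZ]
  rw [Matrix.det_fin_three]
  simp
  ring

theorem det_count_theta (k : ℕ) : theta ^ 3 ^ (3 * k) = theta := by
  have h27 : theta ^ 27 = theta := by
    have h1 := theta_pow
    have h2 : theta ^ 9 = theta + 1 + 1 := by
      have : theta ^ 9 = (theta ^ 3) ^ 3 := by ring
      rw [this, h1]
      linear_combination h1 + (theta ^ 2 + theta) * det_count_h3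
    have : theta ^ 27 = (theta ^ 9) ^ 3 := by ring
    rw [this, h2]
    linear_combination h1 + (2 * theta ^ 2 + 4 * theta + 3) * det_count_h3
  induction k with
  | zero => simp
  | succ k ih =>
    have : 3 ^ (3 * (k + 1)) = 3 ^ (3 * k) * 27 := by
      rw [mul_add, pow_add]; norm_num
    rw [this, pow_mul, ih, h27]

theorem det_count (j : ℕ) :
    ∃ G : ℤ, (G = w j ∨ G = -w j) ∧
      ({c : Fin 3 → K | (∀ i, c i ^ q j = c i) ∧ c ≠ 0 ∧ (mat c).det = 0}.ncard : ℤ) =
        ((q j : ℤ) - 1) * (q j + 1 + 2 * G) := by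
  classical
  set n : ℕ := 54 * j.factorial with hn
  have hn0 : 0 < n := by have := j.factorial_pos; omega
  have hq : q j = 3 ^ n := rfl
  set F : Subfield K := (iterateFrobenius K 3 n).eqLocusField (RingHom.id K) with hF
  have hmem : ∀ z : K, z ∈ F ↔ z ^ q j = z := by
    intro z
    change iterateFrobenius K 3 n z = z ↔ z ^ q j = z
    rw [iterateFrobenius_def, hq]
  have hcoe : (F : Set K) = {z : K | z ^ (3 ^ n) = z} := by
    ext z
    exact hmem z
  have hcard : Nat.card F = 3 ^ n := by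
    have h1 := card_fixed n hn0
    rw [← hcoe] at h1
    exact h1
  have hfin : Finite F := Nat.finite_of_card_ne_zero (by rw [hcard]; positivity)
  let _ : Fintype F := Fintype.ofFinite F
  have : CharP F 3 := (algebraMap F K).charP (algebraMap F K).injective 3
  have hθ : theta ∈ F := by
    rw [hmem, hq]
    have : n = 3 * (18 * j.factorial) := by rw [hn]; ring
    rw [this]
    exact det_count_theta _
  obtain ⟨G, hG, hGc⟩ := cone_count F (27 * j.factorial) (by
    rw [← Nat.card_eq_fintype_card, hcard, hn]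
    congr 1
    ring) (by have := j.factorial_pos; omega)
  refine ⟨G, ?_, ?_⟩
  · rcases hG with h | h
    · left; rw [h]; simp [w]
    · right; rw [h]; simp [w]
  have hq2 : (3 ^ (2 * (27 * j.factorial)) : ℤ) = q j := by
    rw [hq, hn]
    push_cast
    congr 1
    ring
  rw [hq2] at hGc
  rw [← hGc]
  congr 1
  let ψ : F × F × F → (Fin 3 → K) := fun p =>
    ![(p.1 : K) - (theta * -((p.1 : K) + p.2.1 + p.2.2) - ((p.2.1 : K) - p.2.2)) * theta -
        (-((p.1 : K) + p.2.1 + p.2.2)) * theta ^ 2,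
      theta * -((p.1 : K) + p.2.1 + p.2.2) - ((p.2.1 : K) - p.2.2),
      -((p.1 : K) + p.2.1 + p.2.2)]
  have hψ0 : ∀ p, ψ p 0 = (p.1 : K) - (theta * -((p.1 : K) + p.2.1 + p.2.2) -
      ((p.2.1 : K) - p.2.2)) * theta - (-((p.1 : K) + p.2.1 + p.2.2)) * theta ^ 2 := fun p => rfl
  have hψ1 : ∀ p, ψ p 1 = theta * -((p.1 : K) + p.2.1 + p.2.2) - ((p.2.1 : K) - p.2.2) :=
    fun p => rfl
  have hψ2 : ∀ p, ψ p 2 = -((p.1 : K) + p.2.1 + p.2.2) := fun p => rfl
  have hψX : ∀ p, ψ p 0 + ψ p 1 * theta + ψ p 2 * theta ^ 2 = p.1 := by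
    intro p; rw [hψ0, hψ1, hψ2]; ring
  have hψY : ∀ p, ψ p 0 + ψ p 1 * (theta + 1) + ψ p 2 * (theta + 1) ^ 2 = p.2.1 := by
    intro p; rw [hψ0, hψ1, hψ2]
    linear_combination (theta * -((p.1 : K) + p.2.1 + p.2.2) - p.2.1) * det_count_h3
  have hψZ : ∀ p, ψ p 0 + ψ p 1 * (theta - 1) + ψ p 2 * (theta - 1) ^ 2 = p.2.2 := by
    intro p; rw [hψ0, hψ1, hψ2]
    linear_combination (-(theta * -((p.1 : K) + p.2.1 + p.2.2)) - p.2.2) * det_count_h3
  have hψinj : Function.Injective ψ := by
    intro p p' h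
    have e1 : (p.1 : K) = p'.1 := by rw [← hψX p, ← hψX p', h]
    have e2 : (p.2.1 : K) = p'.2.1 := by rw [← hψY p, ← hψY p', h]
    have e3 : (p.2.2 : K) = p'.2.2 := by rw [← hψZ p, ← hψZ p', h]
    exact Prod.ext (Subtype.ext e1) (Prod.ext (Subtype.ext e2) (Subtype.ext e3))
  have hset : {c : Fin 3 → K | (∀ i, c i ^ q j = c i) ∧ c ≠ 0 ∧ (mat c).det = 0} =
      ψ '' {p : F × F × F | p ≠ 0 ∧ p.1 ^ 3 + p.2.1 ^ 2 * p.2.2 - p.1 * p.2.2 ^ 2 = 0} := by
    ext c
    constructor
    · rintro ⟨h1, h2, h3⟩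
      have m0 : c 0 ∈ F := (hmem _).2 (h1 0)
      have m1 : c 1 ∈ F := (hmem _).2 (h1 1)
      have m2 : c 2 ∈ F := (hmem _).2 (h1 2)
      have hX : c 0 + c 1 * theta + c 2 * theta ^ 2 ∈ F :=
        F.add_mem (F.add_mem m0 (F.mul_mem m1 hθ)) (F.mul_mem m2 (F.pow_mem hθ 2))
      have hY : c 0 + c 1 * (theta + 1) + c 2 * (theta + 1) ^ 2 ∈ F :=
        F.add_mem (F.add_mem m0 (F.mul_mem m1 (F.add_mem hθ F.one_mem)))
          (F.mul_mem m2 (F.pow_mem (F.add_mem hθ F.one_mem) 2))
      have hZ : c 0 + c 1 * (theta - 1) + c 2 * (theta - 1) ^ 2 ∈ F :=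
        F.add_mem (F.add_mem m0 (F.mul_mem m1 (F.sub_mem hθ F.one_mem)))
          (F.mul_mem m2 (F.pow_mem (F.sub_mem hθ F.one_mem) 2))
      have hψc : ψ (⟨_, hX⟩, ⟨_, hY⟩, ⟨_, hZ⟩) = c := by
        funext i
        fin_cases i
        · change ψ _ 0 = c 0
          rw [hψ0]
          simp only
          linear_combination ((-c 1 * theta - c 2 * theta ^ 2 * 3) + (2 * c 0 * theta ^ 2 + 2 * c 1 * theta + 2 * c 1 * theta ^ 3 + 6 * theta ^ 2 * c 2 + 2 * theta ^ 4 * c 2)) * det_count_h3
        · change ψ _ 1 = c 1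
          rw [hψ1]
          simp only
          linear_combination (-(theta * c 0) - 2 * theta * c 2 - theta ^ 2 * c 1 - theta ^ 3 * c 2 - c 1) * det_count_h3
        · change ψ _ 2 = c 2
          rw [hψ2]
          simp only
          linear_combination (-(c 0) - c 1 * theta - theta ^ 2 * c 2 - c 2) * det_count_h3
      refine ⟨(⟨_, hX⟩, ⟨_, hY⟩, ⟨_, hZ⟩), ⟨?_, ?_⟩, hψc⟩
      · intro h0
        apply h2
        rw [← hψc, h0]
        funext i
        fin_cases i
        · change ψ _ 0 = 0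
          rw [hψ0]; simp
        · change ψ _ 1 = 0
          rw [hψ1]; simp
        · change ψ _ 2 = 0
          rw [hψ2]; simp
      · rw [det_count_det c _ _ _ rfl rfl rfl] at h3
        apply Subtype.ext
        push_cast
        exact h3
    · rintro ⟨p, ⟨h1, h2⟩, rfl⟩
      have mY : -((p.1 : K) + p.2.1 + p.2.2) ∈ F :=
        F.neg_mem (F.add_mem (F.add_mem p.1.2 p.2.1.2) p.2.2.2)
      have m1 : theta * -((p.1 : K) + p.2.1 + p.2.2) - ((p.2.1 : K) - p.2.2) ∈ F :=
        F.sub_mem (F.mul_mem hθ mY) (F.sub_mem p.2.1.2 p.2.2.2)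
      refine ⟨?_, ?_, ?_⟩
      · intro i
        rw [← hmem]
        fin_cases i
        · change ψ p 0 ∈ F
          rw [hψ0]
          exact F.sub_mem (F.sub_mem p.1.2 (F.mul_mem m1 hθ)) (F.mul_mem mY (F.pow_mem hθ 2))
        · change ψ p 1 ∈ F
          rw [hψ1]
          exact m1
        · change ψ p 2 ∈ F
          rw [hψ2]
          exact mY
      · intro h0
        apply h1
        have e1 := hψX p
        have e2 := hψY p
        have e3 := hψZ p
        rw [h0] at e1 e2 e3
        simp only [Pi.zero_apply, zero_mul, add_zero] at e1 e2 e3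
        exact Prod.ext (Subtype.ext e1.symm) (Prod.ext (Subtype.ext e2.symm) (Subtype.ext e3.symm))
      · rw [det_count_det (ψ p) _ _ _ (hψX p) (hψY p) (hψZ p)]
        exact_mod_cast congrArg (Subtype.val) h2
  rw [hset, Set.ncard_image_of_injective _ hψinj]
  rfl

private theorem pair_count_smul (r : K) (c : Fin 3 → K) : mat (r • c) = r • mat c := by
  ext i k
  fin_cases i <;> fin_cases k <;> simp [mat] <;> ring

private theorem pair_count_zero : mat (0 : Fin 3 → K) = 0 := by
  have h := pair_count_smul 0 0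
  rwa [zero_smul, zero_smul] at h

theorem pair_count (j : ℕ) :
    {p : (Fin 3 → K) × (Fin 3 → K) | (∀ i, p.1 i ^ q j = p.1 i) ∧ (∀ i, p.2 i ^ q j = p.2 i) ∧
        p ≠ 0 ∧ ∃ u : Fin 3 → K, u ≠ 0 ∧ (mat p.1).mulVec u = 0 ∧ (mat p.2).mulVec u = 0}.ncard =
      (q j + 1) * {c : Fin 3 → K | (∀ i, c i ^ q j = c i) ∧ c ≠ 0 ∧ (mat c).det = 0}.ncard := by
  have hqpos : 0 < 54 * j.factorial := Nat.mul_pos (by norm_num) (Nat.factorial_pos j)
  have hq0 : q j ≠ 0 := pow_ne_zero _ (by norm_num)
  set S : Set (Fin 3 → K) := {c | (∀ i, c i ^ q j = c i) ∧ c ≠ 0 ∧ (mat c).det = 0} with hS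
  set Fq : Set K := {z | z ^ (3 ^ (54 * j.factorial)) = z} with hFq
  have hFqcard : Fq.ncard = q j := card_fixed _ hqpos
  have hFqmem : ∀ z : K, z ∈ Fq ↔ z ^ q j = z := fun z => Iff.rfl
  have hSfin : S.Finite := by
    refine (pts_finite j (Set.univ : Set (Fin 3 → K))).subset ?_
    rintro c ⟨hc, -, -⟩
    exact ⟨Set.mem_univ _, hc⟩
  have hFqfin : Fq.Finite := by
    refine Set.finite_of_ncard_ne_zero ?_
    rw [hFqcard]
    exact hq0
  have hdet : ∀ c : Fin 3 → K, (mat c).det = 0 ↔ ∃ u : Fin 3 → K, u ≠ 0 ∧ (mat c).mulVec u = 0 :=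
    fun c => Matrix.exists_mulVec_eq_zero_iff.symm
  have hP : {p : (Fin 3 → K) × (Fin 3 → K) | (∀ i, p.1 i ^ q j = p.1 i) ∧
        (∀ i, p.2 i ^ q j = p.2 i) ∧
        p ≠ 0 ∧ ∃ u : Fin 3 → K, u ≠ 0 ∧ (mat p.1).mulVec u = 0 ∧ (mat p.2).mulVec u = 0} =
      (fun cr : (Fin 3 → K) × K => (cr.1, cr.2 • cr.1)) '' (S ×ˢ Fq) ∪
        (fun c : Fin 3 → K => ((0 : Fin 3 → K), c)) '' S := by
    ext p
    constructor
    · rintro ⟨h1, h2, h3, u, hu, hu1, hu2⟩
      by_cases hp : p.1 = 0
      · right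
        refine ⟨p.2, ⟨h2, ?_, (hdet _).2 ⟨u, hu, hu2⟩⟩, Prod.ext hp.symm rfl⟩
        intro h0
        exact h3 (Prod.ext hp h0)
      · left
        obtain ⟨r, hr⟩ := mat_two u hu p.1 p.2 hp hu1 hu2
        obtain ⟨i, hi⟩ : ∃ i, p.1 i ≠ 0 := by
          by_contra hcon
          push Not at hcon
          exact hp (funext hcon)
        have hri : p.2 i = r * p.1 i := by
          rw [hr, Pi.smul_apply, smul_eq_mul]
        have hrq : r ^ q j = r := by
          have h4 := h2 i
          rw [hri, mul_pow, h1 i] at h4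
          exact mul_right_cancel₀ hi h4
        exact ⟨(p.1, r), ⟨⟨h1, hp, (hdet _).2 ⟨u, hu, hu1⟩⟩, hrq⟩, Prod.ext rfl hr.symm⟩
    · rintro (⟨⟨c, r⟩, ⟨⟨hc1, hc2, hc3⟩, hr⟩, rfl⟩ | ⟨c, ⟨hc1, hc2, hc3⟩, rfl⟩)
      · obtain ⟨u, hu, hu1⟩ := (hdet c).1 hc3
        refine ⟨hc1, fun i => ?_, fun h0 => hc2 (congrArg Prod.fst h0), u, hu, hu1, ?_⟩
        · have hr' : r ^ q j = r := hr
          change (r * c i) ^ q j = r * c i
          rw [mul_pow, hr', hc1 i]
        · change (mat (r • c)).mulVec u = 0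
          rw [pair_count_smul, Matrix.smul_mulVec, hu1, smul_zero]
      · obtain ⟨u, hu, hu1⟩ := (hdet c).1 hc3
        refine ⟨fun i => ?_, hc1, fun h0 => hc2 (congrArg Prod.snd h0), u, hu, ?_, hu1⟩
        · change (0 : K) ^ q j = 0
          exact zero_pow hq0
        · change (mat (0 : Fin 3 → K)).mulVec u = 0
          rw [pair_count_zero, Matrix.zero_mulVec]
  rw [hP, Set.ncard_union_eq ?_ ((hSfin.prod hFqfin).image _) (hSfin.image _),
    Set.ncard_image_of_injOn ?_, Set.ncard_image_of_injective _ ?_, Set.ncard_prod, hFqcard]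
  · ring
  · intro c c' h
    exact congrArg Prod.snd h
  · rintro ⟨c, r⟩ ⟨⟨-, hc, -⟩, -⟩ ⟨c', r'⟩ - h
    have h1 : c = c' := congrArg Prod.fst h
    subst h1
    have h2 : r • c = r' • c := congrArg Prod.snd h
    have h3 : (r - r') • c = 0 := by rw [sub_smul, h2, sub_self]
    rcases smul_eq_zero.1 h3 with h4 | h4
    · rw [sub_eq_zero.1 h4]
    · exact absurd h4 hc
  · rw [Set.disjoint_left]
    rintro p ⟨⟨c, r⟩, ⟨⟨-, hc, -⟩, -⟩, rfl⟩ ⟨c', -, h⟩
    exact hc (congrArg Prod.fst h).symm

theorem cnt_level_zero (j : ℕ) : cnt j (level 0) = 1 := by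
  have h0 : ∀ x : Fin (6 * 0) → K, ofFin x = 0 := by
    intro x
    ext i
    simp [ofFin]
  have hsing : pts j (level 0) = {(fun i => i.elim0 : Fin (6 * 0) → K)} := by
    ext x
    constructor
    · intro _
      exact Set.mem_singleton_iff.2 (funext fun i => i.elim0)
    · intro _
      refine ⟨?_, fun i => i.elim0⟩
      show vfun (ofFin x) = 0
      rw [h0 x]
      exact vfun_zero
  rw [cnt, hsing, Set.ncard_singleton]

theorem cnt_level_empty (j a : ℕ) (ha : a = 1 ∨ a = 2 ∨ a = 4) : cnt j (level a) = 0 := by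
  have hv : ∀ F : ℕ →₀ K, vfun F ≠ a := by
    intro F hF
    have h3 : vfun F = 0 ∨ vfun F = 3 ∨ vfun F = 5 ∨ 6 ≤ vfun F := by
      by_cases h0 : F = 0
      · left
        rw [h0]
        exact vfun_zero
      · by_cases h6 : ∀ i, 6 ≤ i → F i = 0
        · right; left
          exact vfun_three F h0 h6
        · by_cases h12 : ∀ i, 12 ≤ i → F i = 0
          · have h6' : ∃ i, 6 ≤ i ∧ F i ≠ 0 := by
              push_neg at h6
              exact h6
            rcases (vfun_five_six F h12 h6').1 with h | h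
            · right; right; left; exact h
            · right; right; right; omega
          · right; right; right
            apply vfun_big
            push_neg at h12
            exact h12
    omega
  have hempty : level a = ∅ := by
    ext x
    simp only [level, Set.mem_setOf_eq, Set.mem_empty_iff_false, iff_false]
    exact hv _
  have hp : pts j (level a) = ∅ := by
    rw [hempty]
    ext x
    simp [pts]
  unfold cnt
  rw [hp, Set.ncard_empty]

private theorem cnt_level_three_apply {n : ℕ} (x : Fin n → K) (i : ℕ) :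
    ofFin x i = if h : i < n then x ⟨i, h⟩ else 0 := rfl

private theorem cnt_level_three_iff (F : ℕ →₀ K) :
    vfun F = 3 ↔ F ≠ 0 ∧ ∀ i, 6 ≤ i → F i = 0 := by
  constructor
  · intro h
    refine ⟨?_, ?_⟩
    · rintro rfl
      rw [vfun_zero] at h
      omega
    · by_contra hcon
      push Not at hcon
      obtain ⟨i, hi6, hi0⟩ := hcon
      by_cases h12 : ∃ i, 12 ≤ i ∧ F i ≠ 0
      · have := vfun_big F h12
        omega
      · push Not at h12
        have := (vfun_five_six F h12 ⟨i, hi6, hi0⟩).1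
        omega
  · rintro ⟨h1, h2⟩
    exact vfun_three F h1 h2

/-- extension by zero -/
private noncomputable def cnt_level_three_ext (y : Fin 6 → K) : Fin (6 * 3) → K :=
  fun i => if h : (i : ℕ) < 6 then y ⟨i, h⟩ else 0

private theorem cnt_level_three_inj : Function.Injective cnt_level_three_ext := by
  intro y y' h
  funext i
  have := congrFun h ⟨i.1, by omega⟩
  unfold cnt_level_three_ext at this
  simp only [i.2, dif_pos] at this
  exact this

private theorem cnt_level_three_set (j : ℕ) :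
    pts j (level 3) = cnt_level_three_ext '' (pts j (Set.univ : Set (Fin 6 → K)) \ {0}) := by
  have hq : q j ≠ 0 := by unfold q; positivity
  ext x
  constructor
  · rintro ⟨hx, hx2⟩
    have hx3 : vfun (ofFin x) = 3 := hx
    rw [cnt_level_three_iff] at hx3
    obtain ⟨h1, h2⟩ := hx3
    have hext : cnt_level_three_ext (fun i : Fin 6 => x ⟨i.1, by omega⟩) = x := by
      funext i
      unfold cnt_level_three_ext
      by_cases h : (i : ℕ) < 6
      · rw [dif_pos h]
      · rw [dif_neg h]
        have := h2 i.1 (by omega)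
        rw [cnt_level_three_apply, dif_pos i.2] at this
        exact this.symm
    refine ⟨fun i : Fin 6 => x ⟨i.1, by omega⟩, ⟨⟨Set.mem_univ _, fun i => hx2 _⟩, ?_⟩, hext⟩
    intro h0
    rw [Set.mem_singleton_iff] at h0
    apply h1
    ext i
    rw [cnt_level_three_apply]
    by_cases h : i < 6 * 3
    · rw [dif_pos h, ← hext, h0]
      unfold cnt_level_three_ext
      simp
    · rw [dif_neg h]; rfl
  · rintro ⟨y, ⟨⟨-, hy2⟩, hy3⟩, rfl⟩
    refine ⟨?_, ?_⟩
    · show vfun (ofFin (cnt_level_three_ext y)) = 3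
      rw [cnt_level_three_iff]
      refine ⟨?_, ?_⟩
      · intro h0
        apply hy3
        rw [Set.mem_singleton_iff]
        funext i
        have := DFunLike.congr_fun h0 i.1
        rw [cnt_level_three_apply, dif_pos (by omega)] at this
        unfold cnt_level_three_ext at this
        simp only [i.2, dif_pos] at this
        exact this
      · intro i hi
        rw [cnt_level_three_apply]
        by_cases h : i < 6 * 3
        · rw [dif_pos h]
          unfold cnt_level_three_ext
          rw [dif_neg (by simpa using hi)]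
        · rw [dif_neg h]
    · intro i
      unfold cnt_level_three_ext
      by_cases h : (i : ℕ) < 6
      · rw [dif_pos h]; exact hy2 _
      · rw [dif_neg h, zero_pow hq]

theorem cnt_level_three (j : ℕ) : (cnt j (level 3) : ℤ) = (q j : ℤ) ^ 6 - 1 := by
  have hq : q j ≠ 0 := by unfold q; positivity
  have h0 : (0 : Fin 6 → K) ∈ pts j (Set.univ : Set (Fin 6 → K)) :=
    ⟨Set.mem_univ _, fun i => by rw [Pi.zero_apply, zero_pow hq]⟩
  have h1 : cnt j (level 3) = q j ^ 6 - 1 := by
    unfold cnt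
    rw [cnt_level_three_set, Set.ncard_image_of_injective _ cnt_level_three_inj,
      Set.ncard_sdiff_singleton_of_mem h0]
    have := cnt_univ 6 j
    unfold cnt at this
    rw [this]
  have h2 : 1 ≤ q j ^ 6 := Nat.one_le_pow _ _ (Nat.pos_of_ne_zero hq)
  rw [h1]
  push_cast [h2]
  ring

private theorem cnt_level_five_ofFin {n : ℕ} (x : Fin n → K) (i : ℕ) (h : i < n) :
    ofFin x i = x ⟨i, h⟩ := by
  simp only [ofFin, Finsupp.onFinset_apply, dif_pos h]

private theorem cnt_level_five_ofFin' {n : ℕ} (x : Fin n → K) (i : ℕ) (h : n ≤ i) :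
    ofFin x i = 0 := by
  simp only [ofFin, Finsupp.onFinset_apply, dif_neg (not_lt.mpr h)]

private theorem cnt_level_five_c4 (x : Fin (6 * 5) → K) :
    coef (ofFin x) 4 = fun l : Fin 3 => x ⟨6 + l, by omega⟩ := by
  funext l
  have h : 3 * (2 * (4 / 3) + 4 % 3 - 1) + (l : ℕ) = 6 + l := by omega
  simp only [coef]
  rw [if_neg (by decide)]
  exact (congrArg (fun m => (ofFin x) m) h).trans (cnt_level_five_ofFin x _ _)

private theorem cnt_level_five_c5 (x : Fin (6 * 5) → K) :
    coef (ofFin x) 5 = fun l : Fin 3 => x ⟨9 + l, by omega⟩ := by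
  funext l
  have h : 3 * (2 * (5 / 3) + 5 % 3 - 1) + (l : ℕ) = 9 + l := by omega
  simp only [coef]
  rw [if_neg (by decide)]
  exact (congrArg (fun m => (ofFin x) m) h).trans (cnt_level_five_ofFin x _ _)

private theorem cnt_level_five_mem (x : Fin (6 * 5) → K) :
    x ∈ level 5 ↔ (∀ i : Fin (6 * 5), 12 ≤ (i : ℕ) → x i = 0) ∧
      (∃ i : Fin (6 * 5), 6 ≤ (i : ℕ) ∧ x i ≠ 0) ∧
      ∃ u : Fin 3 → K, u ≠ 0 ∧
        (mat fun l : Fin 3 => frobInv 1 (x ⟨6 + l, by omega⟩)).mulVec u = 0 ∧
        (mat fun l : Fin 3 => frobInv 1 (x ⟨9 + l, by omega⟩)).mulVec u = 0 := by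
  have hl : x ∈ level 5 ↔ vfun (ofFin x) = 5 := Iff.rfl
  rw [hl]
  constructor
  · intro h
    have h12 : ∀ i, 12 ≤ i → ofFin x i = 0 := by
      by_contra hc
      push Not at hc
      have := vfun_big _ hc
      omega
    have h6 : ∃ i, 6 ≤ i ∧ ofFin x i ≠ 0 := by
      by_contra hc
      push Not at hc
      by_cases h0 : ofFin x = 0
      · rw [h0, vfun_zero] at h
        omega
      · have := vfun_three _ h0 hc
        omega
    have h56 := (vfun_five_six _ h12 h6).2.mp h
    rw [cnt_level_five_c4, cnt_level_five_c5] at h56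
    refine ⟨fun i hi => ?_, ?_, h56⟩
    · rw [← cnt_level_five_ofFin x i i.2]
      exact h12 _ hi
    · obtain ⟨i, hi, hi'⟩ := h6
      by_cases hn : i < 6 * 5
      · exact ⟨⟨i, hn⟩, hi, by rwa [cnt_level_five_ofFin x i hn] at hi'⟩
      · exact absurd (cnt_level_five_ofFin' x i (not_lt.mp hn)) hi'
  · rintro ⟨h12, ⟨i, hi, hi'⟩, hu⟩
    refine (vfun_five_six _ ?_ ?_).2.mpr ?_
    · intro i hi
      by_cases hn : i < 6 * 5
      · rw [cnt_level_five_ofFin x i hn]
        exact h12 _ hi
      · exact cnt_level_five_ofFin' x i (not_lt.mp hn)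
    · exact ⟨i, hi, by rw [cnt_level_five_ofFin x i i.2]; exact hi'⟩
    · rw [cnt_level_five_c4, cnt_level_five_c5]
      exact hu

private theorem cnt_level_five_inj : Function.Injective (frobInv 1) :=
  (iterateFrobeniusEquiv K 3 1).symm.injective

private theorem cnt_level_five_pow (z : K) : frobInv 1 (z ^ 3) = z := by
  have h : iterateFrobeniusEquiv K 3 1 z = z ^ 3 := by
    rw [iterateFrobeniusEquiv_apply]
    simp [frobenius_def]
  rw [← h]
  exact (iterateFrobeniusEquiv K 3 1).symm_apply_apply z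

private theorem cnt_level_five_zero : frobInv 1 (0 : K) = 0 := map_zero (iterateFrobeniusEquiv K 3 1).symm

private theorem cnt_level_five_fix (z : K) (n : ℕ) (h : z ^ n = z) :
    frobInv 1 z ^ n = frobInv 1 z := by
  have h1 : frobInv 1 (z ^ n) = frobInv 1 z ^ n := map_pow (iterateFrobeniusEquiv K 3 1).symm z n
  rw [← h1, h]

theorem cnt_level_five (j : ℕ) :
    cnt j (level 5) = q j ^ 6 *
      {p : (Fin 3 → K) × (Fin 3 → K) | (∀ i, p.1 i ^ q j = p.1 i) ∧ (∀ i, p.2 i ^ q j = p.2 i) ∧
        p ≠ 0 ∧ ∃ u : Fin 3 → K, u ≠ 0 ∧ (mat p.1).mulVec u = 0 ∧ (mat p.2).mulVec u = 0}.ncard := by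
  rw [← cnt_univ 6 j]
  unfold cnt
  rw [← Set.ncard_prod]
  refine Set.ncard_congr
    (fun x _ => (fun i : Fin 6 => x ⟨i, by omega⟩,
      (fun l : Fin 3 => frobInv 1 (x ⟨6 + l, by omega⟩),
        fun l : Fin 3 => frobInv 1 (x ⟨9 + l, by omega⟩)))) ?_ ?_ ?_
  · rintro x ⟨hx, hq⟩
    rw [cnt_level_five_mem] at hx
    obtain ⟨h12, ⟨i, hi, hi'⟩, hu⟩ := hx
    refine Set.mk_mem_prod ⟨Set.mem_univ _, fun i => hq _⟩ ⟨?_, ?_, ?_, hu⟩
    · exact fun l => cnt_level_five_fix _ _ (hq _)
    · exact fun l => cnt_level_five_fix _ _ (hq _)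
    · intro h0
      have h1 := congrArg Prod.fst h0
      have h2 := congrArg Prod.snd h0
      simp only [Prod.fst_zero, Prod.snd_zero] at h1 h2
      have hi12 : (i : ℕ) < 12 := by
        by_contra hc
        exact hi' (h12 i (not_lt.mp hc))
      by_cases h9 : (i : ℕ) < 9
      · have h3 := congrFun h1 ⟨(i : ℕ) - 6, by omega⟩
        simp only [Pi.zero_apply] at h3
        rw [← cnt_level_five_zero] at h3
        have h4 := cnt_level_five_inj h3
        apply hi'
        rw [← h4]
        congr 1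
        apply Fin.ext
        simp only
        omega
      · have h3 := congrFun h2 ⟨(i : ℕ) - 9, by omega⟩
        simp only [Pi.zero_apply] at h3
        rw [← cnt_level_five_zero] at h3
        have h4 := cnt_level_five_inj h3
        apply hi'
        rw [← h4]
        congr 1
        apply Fin.ext
        simp only
        omega
  · rintro x x' ⟨hx, hq⟩ ⟨hx', hq'⟩ h
    rw [cnt_level_five_mem] at hx hx'
    simp only [Prod.mk.injEq] at h
    obtain ⟨h1, h2, h3⟩ := h
    funext i
    by_cases h6 : (i : ℕ) < 6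
    · exact congrFun h1 ⟨i, h6⟩
    · by_cases h9 : (i : ℕ) < 9
      · have h4 := cnt_level_five_inj (congrFun h2 ⟨(i : ℕ) - 6, by omega⟩)
        have h5 : (⟨6 + ((i : ℕ) - 6), by omega⟩ : Fin (6 * 5)) = i := Fin.ext (by simp only; omega)
        simp only [h5] at h4
        exact h4
      · by_cases h12 : (i : ℕ) < 12
        · have h4 := cnt_level_five_inj (congrFun h3 ⟨(i : ℕ) - 9, by omega⟩)
          have h5 : (⟨9 + ((i : ℕ) - 9), by omega⟩ : Fin (6 * 5)) = i := Fin.ext (by simp only; omega)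
          simp only [h5] at h4
          exact h4
        · rw [hx.1 i (not_lt.mp h12), hx'.1 i (not_lt.mp h12)]
  · rintro ⟨y, p1, p2⟩ ⟨⟨-, hy⟩, hp1, hp2, hp0, hu⟩
    simp only at hy hp1 hp2 hp0 hu
    let x : Fin (6 * 5) → K := fun i =>
      if h6 : (i : ℕ) < 6 then y ⟨i, h6⟩
      else if h9 : (i : ℕ) < 9 then p1 ⟨(i : ℕ) - 6, by omega⟩ ^ 3
      else if h12 : (i : ℕ) < 12 then p2 ⟨(i : ℕ) - 9, by omega⟩ ^ 3
      else 0
    have hx0 : ∀ i : Fin 6, x ⟨i, by omega⟩ = y i := by
      intro i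
      simp only [x]
      rw [dif_pos i.2]
    have hx1 : ∀ l : Fin 3, x ⟨6 + l, by omega⟩ = p1 l ^ 3 := by
      intro l
      simp only [x]
      rw [dif_neg (by omega), dif_pos (by omega)]
      congr 2
      apply Fin.ext
      simp only
      omega
    have hx2 : ∀ l : Fin 3, x ⟨9 + l, by omega⟩ = p2 l ^ 3 := by
      intro l
      simp only [x]
      rw [dif_neg (by omega), dif_neg (by omega), dif_pos (by omega)]
      congr 2
      apply Fin.ext
      simp only
      omega
    have hxz : ∀ i : Fin (6 * 5), 12 ≤ (i : ℕ) → x i = 0 := by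
      intro i hi
      simp only [x]
      rw [dif_neg (by omega), dif_neg (by omega), dif_neg (by omega)]
    have hq0 : q j ≠ 0 := by unfold q; positivity
    refine ⟨x, ⟨?_, ?_⟩, ?_⟩
    · rw [cnt_level_five_mem]
      refine ⟨hxz, ?_, ?_⟩
      · by_contra hc
        push Not at hc
        apply hp0
        refine Prod.ext ?_ ?_
        · funext l
          have h1 := hc ⟨6 + l, by omega⟩ (by simp only; omega)
          rw [hx1] at h1
          simpa using h1
        · funext l
          have h1 := hc ⟨9 + l, by omega⟩ (by simp only; omega)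
          rw [hx2] at h1
          simpa using h1
      · simp only [hx1, hx2, cnt_level_five_pow]
        exact hu
    · intro i
      by_cases h6 : (i : ℕ) < 6
      · have := hx0 ⟨i, h6⟩
        simp only [Fin.eta] at this
        rw [this]
        exact hy _
      · by_cases h9 : (i : ℕ) < 9
        · have h5 : (⟨6 + ((i : ℕ) - 6), by omega⟩ : Fin (6 * 5)) = i := Fin.ext (by simp only; omega)
          have := hx1 ⟨(i : ℕ) - 6, by omega⟩
          simp only [h5] at this
          rw [this, pow_right_comm, hp1]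
        · by_cases h12 : (i : ℕ) < 12
          · have h5 : (⟨9 + ((i : ℕ) - 9), by omega⟩ : Fin (6 * 5)) = i := Fin.ext (by simp only; omega)
            have := hx2 ⟨(i : ℕ) - 9, by omega⟩
            simp only [h5] at this
            rw [this, pow_right_comm, hp2]
          · rw [hxz i (not_lt.mp h12)]
            exact zero_pow hq0
    · simp only [hx0, hx1, hx2, cnt_level_five_pow]

theorem cnt_level_le (j a : ℕ) : cnt j (level a) ≤ q j ^ (6 * a) := by
  rw [← cnt_univ (6 * a) j]
  unfold cnt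
  apply Set.ncard_le_ncard _ (pts_finite j _)
  intro x hx
  exact ⟨Set.mem_univ _, hx.2⟩

end Pool.Agent.Helper449.MST
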