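import Pool.Agent.Helper449.MST.C
import Pool.Agent.Helper449.MST.E

/-! # final -/

namespace Pool.Agent.Helper449.MST

open MvPolynomial

/-- the partial sums of the stringy motive of `K^{6N} / G`: `∑_{a ≤ n} {v = N a} L^{6N - N a}` -/
noncomputable def partialSum (N n : ℕ) : FreeAbelianGroup Gen :=
  ∑ a ∈ Finset.range (n + 1),
    FreeAbelianGroup.of ⟨6 * a, level a, constr_level a, 27 * (6 * (N : ℤ) - N * a)⟩

theorem mu_partialSum (j N n : ℕ) : mu j (partialSum N n) =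
    ∑ a ∈ Finset.range (n + 1), (cnt j (level a) : ℝ) * (y j : ℝ) ^ (27 * (6 * (N : ℤ) - N * a)) := by
  unfold partialSum mu
  rw [map_sum]
  refine Finset.sum_congr rfl fun a _ => ?_
  rw [FreeAbelianGroup.lift_apply_of]

theorem analytic_tail (qq : ℝ) (hq : 1 ≤ qq) (c : ℕ → ℕ) (k : ℕ)
    (hle : ∀ a, (c a : ℝ) ≤ qq ^ (6 * a)) :
    0 ≤ ∑ x ∈ Finset.range k, (c (6 + x) : ℝ) * qq ^ (-(100 * (x : ℤ))) ∧
    ∑ x ∈ Finset.range k, (c (6 + x) : ℝ) * qq ^ (-(100 * (x : ℤ))) ≤ k * qq ^ 36 := by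
  have hq0 : 0 < qq := by linarith
  constructor
  · refine Finset.sum_nonneg fun x _ => ?_
    positivity
  · have h1 : ∀ x ∈ Finset.range k, (c (6 + x) : ℝ) * qq ^ (-(100 * (x : ℤ))) ≤ qq ^ 36 := by
      intro x _
      have h2 : (c (6 + x) : ℝ) * qq ^ (-(100 * (x : ℤ))) ≤
          qq ^ (6 * (6 + x)) * qq ^ (-(100 * (x : ℤ))) :=
        mul_le_mul_of_nonneg_right (hle _) (by positivity)
      refine h2.trans ?_
      rw [← zpow_natCast qq (6 * (6 + x)), ← zpow_add₀ hq0.ne', ← zpow_natCast qq 36]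
      apply zpow_le_zpow_right₀ hq
      push_cast
      have : (0 : ℤ) ≤ x := Int.natCast_nonneg x
      omega
    refine (Finset.sum_le_sum h1).trans ?_
    rw [Finset.sum_const, Finset.card_range, nsmul_eq_mul]

theorem analytic_sum (yy qq g : ℝ) (hy : 1 ≤ yy) (hqy : qq = yy ^ 27) (c : ℕ → ℕ) (n : ℕ)
    (hn : 5 ≤ n) (h0 : c 0 = 1) (h1 : c 1 = 0) (h2 : c 2 = 0) (h3 : (c 3 : ℝ) = qq ^ 6 - 1)
    (h4 : c 4 = 0) (h5 : (c 5 : ℝ) = qq ^ 6 * (qq + 1) * ((qq - 1) * (qq + 1 + 2 * g)))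
    (hle : ∀ a, (c a : ℝ) ≤ qq ^ (6 * a)) :
    ∃ E : ℝ, 0 ≤ E ∧ E ≤ n * qq ^ 36 ∧
      ∑ a ∈ Finset.range (n + 1), (c a : ℝ) *
        yy ^ (27 * (6 * ((100 : ℕ) : ℤ) - ((100 : ℕ) : ℤ) * (a : ℤ))) =
      qq ^ 600 + (qq ^ 6 - 1) * qq ^ 300 + qq ^ 106 * (qq ^ 2 - 1) * (qq + 1) +
        2 * g * (qq ^ 106 * (qq ^ 2 - 1)) + E := by
  have hq : 1 ≤ qq := by rw [hqy]; exact one_le_pow₀ hy
  obtain ⟨k, rfl⟩ := Nat.exists_eq_add_of_le hn
  have ht := analytic_tail qq hq c k hle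
  refine ⟨_, ht.1, ht.2.trans ?_, ?_⟩
  · apply mul_le_mul_of_nonneg_right _ (by positivity)
    push_cast
    linarith
  · have hz : ∀ z : ℤ, yy ^ (27 * z) = qq ^ z := by
      intro z
      rw [zpow_mul, hqy]
      congr 1
    simp only [hz]
    have e1 : 5 + k + 1 = 6 + k := by omega
    rw [e1, Finset.sum_range_add]
    congr 1
    · simp only [Finset.sum_range_succ, Finset.sum_range_zero, h0, h1, h2, h3, h4, h5]
      have z0 : qq ^ (6 * ((100 : ℕ) : ℤ) - ((100 : ℕ) : ℤ) * ((0 : ℕ) : ℤ)) = qq ^ 600 := by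
        rw [← zpow_natCast]; norm_num
      have z3 : qq ^ (6 * ((100 : ℕ) : ℤ) - ((100 : ℕ) : ℤ) * ((3 : ℕ) : ℤ)) = qq ^ 300 := by
        rw [← zpow_natCast]; norm_num
      have z5 : qq ^ (6 * ((100 : ℕ) : ℤ) - ((100 : ℕ) : ℤ) * ((5 : ℕ) : ℤ)) = qq ^ 100 := by
        rw [← zpow_natCast]; norm_num
      rw [z0, z3, z5]
      push_cast
      ring
    · refine Finset.sum_congr rfl fun x _ => ?_
      congr 2
      push_cast
      ring

theorem analytic_parity (U R : Polynomial ℝ) (hU : U ≠ 0) (yy F : ℕ → ℝ)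
    (hy : Filter.Tendsto yy Filter.atTop Filter.atTop)
    (hF : ∀ j, F j ^ 2 = 4 * (U.eval (yy j)) ^ 2 * (yy j) ^ 27)
    (h : Filter.Tendsto (fun j => R.eval (yy j) / F j) Filter.atTop (nhds 1)) : False := by
  obtain ⟨T, hTd⟩ : ∃ T : Polynomial ℝ, T = Polynomial.C 4 * U ^ 2 * Polynomial.X ^ 27 := ⟨_, rfl⟩
  have h4 : (Polynomial.C 4 : Polynomial ℝ) ≠ 0 := by
    rw [Ne, Polynomial.C_eq_zero]
    norm_num
  have hX : (Polynomial.X ^ 27 : Polynomial ℝ) ≠ 0 := pow_ne_zero _ Polynomial.X_ne_zero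
  have hT : T ≠ 0 := by
    rw [hTd]
    exact mul_ne_zero (mul_ne_zero h4 (pow_ne_zero _ hU)) hX
  have hdegT : T.natDegree = 2 * U.natDegree + 27 := by
    rw [hTd, Polynomial.natDegree_mul (mul_ne_zero h4 (pow_ne_zero _ hU)) hX,
      Polynomial.natDegree_mul h4 (pow_ne_zero _ hU), Polynomial.natDegree_C,
      Polynomial.natDegree_pow, Polynomial.natDegree_X_pow]
    ring
  have hdeg : (R ^ 2).degree ≠ T.degree := by
    intro he
    have h1 := Polynomial.natDegree_eq_of_degree_eq he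
    rw [Polynomial.natDegree_pow, hdegT] at h1
    omega
  have h2 : Filter.Tendsto (fun j => (R ^ 2).eval (yy j) / T.eval (yy j)) Filter.atTop
      (nhds 1) := by
    have h3 := h.pow 2
    rw [one_pow] at h3
    refine h3.congr fun j => ?_
    rw [div_pow, hF, hTd]
    simp
  rcases lt_or_gt_of_ne hdeg with hlt | hgt
  · have h3 := (Polynomial.div_tendsto_atTop_zero_of_degree_lt _ _ hlt).comp hy
    exact one_ne_zero (tendsto_nhds_unique h2 h3)
  · have h3 := (Polynomial.abs_div_tendsto_atTop_atTop_of_degree_gt _ _ hgt hT).comp hy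
    exact not_tendsto_nhds_of_tendsto_atTop h3 _ h2.abs

theorem analytic_ytendsto : Filter.Tendsto (fun j => (y j : ℝ)) Filter.atTop Filter.atTop := by
  refine Filter.tendsto_atTop_mono (f := fun j : ℕ => (j : ℝ)) (fun j => ?_)
    tendsto_natCast_atTop_atTop
  have h1 : j ≤ y j := by
    unfold y
    have h2 : j < 3 ^ j := Nat.lt_pow_self (by norm_num)
    have h3 : j ≤ 2 * j.factorial := by
      have := Nat.self_le_factorial j
      omega
    have h4 : 3 ^ j ≤ 3 ^ (2 * j.factorial) := Nat.pow_le_pow_right (by norm_num) h3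
    omega
  exact_mod_cast h1

theorem analytic_est (C n Qv Pv Rv Uv A V E qq g p : ℝ) (hn : 0 ≤ n)
    (hm : |Qv * (A + 2 * g * V + E) - Pv| ≤ C) (hR : Rv = Pv - Qv * A) (hU : Uv = Qv * V)
    (hE0 : 0 ≤ E) (hE1 : E ≤ n * p) (hp : 1 ≤ p) (hq : 3 ≤ qq) (hg : g ^ 2 = qq)
    (hV : p * qq ≤ V) (hQ1 : 1 ≤ |Qv|) :
    |Rv / (2 * g * Uv) - 1| ≤ (|C| + n) / qq := by
  have hV0 : 0 ≤ V := le_trans (by positivity) hV
  have hq0 : 0 < qq := by linarith
  have hdiff : |Rv - 2 * g * Uv| ≤ |C| + |Qv| * (n * p) := by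
    have e1 : Rv - 2 * g * Uv = -(Qv * (A + 2 * g * V + E) - Pv) + Qv * E := by
      rw [hR, hU]; ring
    rw [e1]
    refine (abs_add_le _ _).trans ?_
    rw [abs_neg, abs_mul, abs_of_nonneg hE0]
    exact add_le_add (hm.trans (le_abs_self _)) (mul_le_mul_of_nonneg_left hE1 (abs_nonneg _))
  have hg1 : 1 ≤ |g| := by
    by_contra hlt
    push Not at hlt
    have : g ^ 2 < 1 := by
      rw [← sq_abs]
      have := abs_nonneg g
      nlinarith
    linarith
  have hF : |Qv| * (p * qq) ≤ |2 * g * Uv| := by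
    rw [hU, abs_mul, abs_mul, abs_mul, abs_two, abs_of_nonneg hV0]
    have e2 : 0 ≤ |Qv| * V := by positivity
    have e3 : |Qv| * (p * qq) ≤ |Qv| * V := mul_le_mul_of_nonneg_left hV (abs_nonneg _)
    have e4 : 1 * (|Qv| * V) ≤ (2 * |g|) * (|Qv| * V) :=
      mul_le_mul_of_nonneg_right (by linarith) e2
    linarith
  have hFpos : 0 < |2 * g * Uv| := lt_of_lt_of_le (by positivity) hF
  have hF0 : 2 * g * Uv ≠ 0 := abs_pos.1 hFpos
  have e4 : Rv / (2 * g * Uv) - 1 = (Rv - 2 * g * Uv) / (2 * g * Uv) := by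
    rw [sub_div, div_self hF0]
  rw [e4, abs_div, div_le_div_iff₀ hFpos hq0]
  have hnn : 0 ≤ |C| + n := by positivity
  have e6 : |C| + |Qv| * (n * p) ≤ (|C| + n) * (|Qv| * p) := by
    have e7 : 1 ≤ |Qv| * p := one_le_mul_of_one_le_of_one_le hQ1 hp
    have e8 : |C| * 1 ≤ |C| * (|Qv| * p) := mul_le_mul_of_nonneg_left e7 (abs_nonneg _)
    nlinarith
  calc |Rv - 2 * g * Uv| * qq ≤ ((|C| + n) * (|Qv| * p)) * qq :=
        mul_le_mul_of_nonneg_right (hdiff.trans e6) hq0.le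
    _ = (|C| + n) * (|Qv| * (p * qq)) := by ring
    _ ≤ (|C| + n) * |2 * g * Uv| := mul_le_mul_of_nonneg_left hF hnn

theorem analytic_pow (qq : ℝ) (hqj : 3 ≤ qq) : qq ^ 36 * qq ≤ qq ^ 106 * (qq ^ 2 - 1) := by
  have e3 : 1 ≤ qq ^ 2 - 1 := by nlinarith
  have e1 : qq ^ 36 * qq = qq ^ 37 := by rw [← pow_succ]
  rw [e1]
  have e2 : qq ^ 37 ≤ qq ^ 106 := pow_le_pow_right₀ (by linarith) (by norm_num)
  have e4 : 0 ≤ qq ^ 106 := pow_nonneg (by linarith) _
  exact e2.trans (le_mul_of_one_le_right e4 e3)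

theorem analytic (P Q : Polynomial ℤ) (hQ : Q ≠ 0) (n : ℕ) (hn : 5 ≤ n) (C : ℝ) (N : ℕ)
    (hN : N = 100) (c : ℕ → ℕ → ℕ) (G : ℕ → ℤ)
    (h0 : ∀ j, c j 0 = 1) (h1 : ∀ j, c j 1 = 0) (h2 : ∀ j, c j 2 = 0)
    (h3 : ∀ j, (c j 3 : ℤ) = (q j : ℤ) ^ 6 - 1) (h4 : ∀ j, c j 4 = 0)
    (h5 : ∀ j, (c j 5 : ℤ) = (q j : ℤ) ^ 6 * ((q j : ℤ) + 1) * (((q j : ℤ) - 1) * (q j + 1 + 2 * G j)))
    (hG : ∀ j, G j = w j ∨ G j = -w j)
    (hle : ∀ j a, c j a ≤ q j ^ (6 * a)) (j₀ : ℕ)
    (hmain : ∀ j ≥ j₀, |Polynomial.aeval (y j : ℝ) Q *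
        (∑ a ∈ Finset.range (n + 1), (c j a : ℝ) * (y j : ℝ) ^ (27 * (6 * (N : ℤ) - N * a)))
        - Polynomial.aeval (y j : ℝ) P| ≤ C) : False := by
  subst hN
  obtain ⟨Qr, hQr⟩ : ∃ Qr : Polynomial ℝ, Qr = Q.map (algebraMap ℤ ℝ) := ⟨_, rfl⟩
  obtain ⟨Pr, hPr⟩ : ∃ Pr : Polynomial ℝ, Pr = P.map (algebraMap ℤ ℝ) := ⟨_, rfl⟩
  have hQe : ∀ t : ℝ, Polynomial.aeval t Q = Qr.eval t := fun t => by
    rw [hQr, Polynomial.eval_map_algebraMap]
  have hPe : ∀ t : ℝ, Polynomial.aeval t P = Pr.eval t := fun t => by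
    rw [hPr, Polynomial.eval_map_algebraMap]
  have hQr0 : Qr ≠ 0 := by
    rw [hQr]
    exact (Polynomial.map_ne_zero_iff (algebraMap ℤ ℝ).injective_int).2 hQ
  have hy1 : ∀ j, (1 : ℝ) ≤ y j := by
    intro j
    have : 1 ≤ y j := Nat.one_le_pow _ _ (by norm_num)
    exact_mod_cast this
  have hqy : ∀ j, (q j : ℝ) = (y j : ℝ) ^ 27 := by
    intro j
    have : q j = y j ^ 27 := by
      unfold q y
      rw [← pow_mul]
      congr 1
      ring
    rw [this]
    push_cast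
    rfl
  have hq3 : ∀ j, (3 : ℝ) ≤ q j := by
    intro j
    have h6 : 3 ^ 1 ≤ 3 ^ (54 * j.factorial) := Nat.pow_le_pow_right (by norm_num) (by
      have := Nat.factorial_pos j
      omega)
    have : 3 ≤ q j := by
      unfold q
      omega
    exact_mod_cast this
  have hGq : ∀ j, (G j : ℝ) ^ 2 = q j := by
    intro j
    have h6 : (w j : ℤ) ^ 2 = q j := by
      have : w j ^ 2 = q j := by
        unfold w q
        rw [← pow_mul]
        congr 1
        ring
      exact_mod_cast this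
    have h7 : (G j) ^ 2 = (q j : ℤ) := by
      rcases hG j with h | h
      · rw [h, h6]
      · rw [h, neg_sq, h6]
    exact_mod_cast h7
  -- the polynomials
  obtain ⟨U, hU⟩ : ∃ U : Polynomial ℝ, U = Qr * ((Polynomial.X ^ 27) ^ 106 *
      (Polynomial.X ^ 54 - 1)) := exists_eq
  obtain ⟨R, hR⟩ : ∃ R : Polynomial ℝ, R = Pr - Qr * ((Polynomial.X ^ 27) ^ 600 +
      ((Polynomial.X ^ 27) ^ 6 - 1) * (Polynomial.X ^ 27) ^ 300 +
      (Polynomial.X ^ 27) ^ 106 * ((Polynomial.X ^ 27) ^ 2 - 1) * (Polynomial.X ^ 27 + 1)) :=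
    exists_eq
  have hU0 : U ≠ 0 := by
    rw [hU]
    refine mul_ne_zero hQr0 (mul_ne_zero (pow_ne_zero _ (pow_ne_zero _ Polynomial.X_ne_zero)) ?_)
    intro h
    have h6 := congrArg (Polynomial.eval (0 : ℝ)) h
    simp at h6
  have hUe : ∀ j, U.eval (y j : ℝ) = Qr.eval (y j : ℝ) * ((q j : ℝ) ^ 106 * ((q j : ℝ) ^ 2 - 1)) := by
    intro j
    rw [hU, hqy]
    simp only [Polynomial.eval_mul, Polynomial.eval_pow, Polynomial.eval_X, Polynomial.eval_sub,
      Polynomial.eval_one]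
    ring
  have hRe : ∀ j, R.eval (y j : ℝ) = Pr.eval (y j : ℝ) - Qr.eval (y j : ℝ) * ((q j : ℝ) ^ 600 +
      ((q j : ℝ) ^ 6 - 1) * (q j : ℝ) ^ 300 + (q j : ℝ) ^ 106 * ((q j : ℝ) ^ 2 - 1) *
        ((q j : ℝ) + 1)) := by
    intro j
    rw [hR, hqy]
    simp only [Polynomial.eval_mul, Polynomial.eval_pow, Polynomial.eval_X, Polynomial.eval_sub,
      Polynomial.eval_one, Polynomial.eval_add]
  refine analytic_parity U R hU0 (fun j => (y j : ℝ)) (fun j => 2 * G j * U.eval (y j : ℝ))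
    analytic_ytendsto (fun j => ?_) ?_
  · have h6 := hGq j
    rw [hqy] at h6
    rw [mul_pow, mul_pow, h6]
    ring
  · -- the ratio tends to one
    rw [tendsto_iff_norm_sub_tendsto_zero]
    have hlim : Filter.Tendsto (fun j => (|C| + n) / (q j : ℝ)) Filter.atTop (nhds 0) := by
      apply Filter.Tendsto.div_atTop tendsto_const_nhds
      refine Filter.tendsto_atTop_mono (fun j => ?_) analytic_ytendsto
      rw [hqy]
      exact le_self_pow₀ (hy1 j) (by norm_num)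
    have hev : ∀ᶠ j in Filter.atTop, ¬ Qr.IsRoot (y j : ℝ) :=
      analytic_ytendsto.eventually (Polynomial.eventually_atTop_not_isRoot _ hQr0)
    refine squeeze_zero' (Filter.Eventually.of_forall fun j => norm_nonneg _) ?_ hlim
    filter_upwards [hev, Filter.eventually_ge_atTop j₀] with j hj hjj
    have hm := hmain j hjj
    obtain ⟨E, hE0, hE1, hE2⟩ := analytic_sum (y j) (q j) (G j) (hy1 j) (hqy j) (c j) n hn (h0 j)
      (h1 j) (h2 j) (by exact_mod_cast congrArg (fun z : ℤ => (z : ℝ)) (h3 j)) (h4 j)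
      (by exact_mod_cast congrArg (fun z : ℤ => (z : ℝ)) (h5 j))
      (fun a => by exact_mod_cast hle j a)
    rw [hE2, hQe, hPe] at hm
    have hint : ∃ z : ℤ, Qr.eval (y j : ℝ) = z := by
      refine ⟨Q.eval (y j : ℤ), ?_⟩
      rw [hQr]
      have := Polynomial.eval_intCast_map (algebraMap ℤ ℝ) Q (y j : ℤ)
      simpa using this
    obtain ⟨z, hz⟩ := hint
    have hz0 : z ≠ 0 := by
      rintro rfl
      apply hj
      rw [Polynomial.IsRoot, hz]
      simp
    have hQ1 : 1 ≤ |Qr.eval (y j : ℝ)| := by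
      rw [hz]
      have := Int.one_le_abs hz0
      exact_mod_cast this
    have hUj := hUe j
    have hRj := hRe j
    have hGj := hGq j
    have hqj := hq3 j
    rw [Real.norm_eq_abs]
    refine analytic_est C n (Qr.eval (y j : ℝ)) (Pr.eval (y j : ℝ)) _ _ _ _ E (q j : ℝ) (G j : ℝ)
      ((q j : ℝ) ^ 36) (Nat.cast_nonneg n) hm hRj hUj hE0 hE1 (one_le_pow₀ (by linarith)) hqj hGj
      ?_ hQ1
    exact analytic_pow _ hqj

theorem not_rational : ¬ LimitIsRational (partialSum 100) := by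
  rintro ⟨P, Q, hQ, h⟩
  obtain ⟨n₀, hn₀⟩ := h 0
  have hmem := hn₀ (max n₀ 5) (le_max_left _ _)
  obtain ⟨x, hx, z, hz, hxz⟩ := AddSubgroup.mem_sup.mp hmem
  obtain ⟨j₁, hj₁⟩ := mu_rel x hx
  obtain ⟨C, j₂, hj₂⟩ := mu_fil z hz
  choose G hG1 hG2 using det_count
  refine analytic P Q hQ (max n₀ 5) (le_max_right _ _) C 100 rfl
    (fun j a => cnt j (level a)) G cnt_level_zero
    (fun j => cnt_level_empty j 1 (Or.inl rfl)) (fun j => cnt_level_empty j 2 (Or.inr (Or.inl rfl)))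
    cnt_level_three (fun j => cnt_level_empty j 4 (Or.inr (Or.inr rfl))) ?_ hG1 cnt_level_le
    (max j₁ j₂) ?_
  · intro j
    have h5 := cnt_level_five j
    rw [pair_count] at h5
    show ((cnt j (level 5) : ℕ) : ℤ) = _
    rw [h5]
    push_cast
    rw [hG2 j]
    ring
  · intro j hj
    have e1 : mu j (act Q (partialSum 100 (max n₀ 5)) - act P one) = mu j x + mu j z := by
      rw [← hxz, map_add]
    rw [hj₁ j (le_trans (le_max_left _ _) hj), zero_add, map_sub, mu_act, mu_act, mu_one, mul_one,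
      mu_partialSum] at e1
    have h2 := hj₂ j (le_trans (le_max_right _ _) hj)
    rw [← e1] at h2
    exact h2

theorem converges_gen (m : ℤ) (a : ℕ) (ha : (600 + m).toNat ≤ a) :
    FreeAbelianGroup.of (⟨6 * a, level a, constr_level a,
      27 * (6 * ((100 : ℕ) : ℤ) - ((100 : ℕ) : ℤ) * a)⟩ : Gen) ∈ Fil m := by
  apply AddSubgroup.subset_closure
  refine ⟨⟨6 * a, level a, constr_level a,
      27 * (6 * ((100 : ℕ) : ℤ) - ((100 : ℕ) : ℤ) * a)⟩, 6 * a, ?_, ?_, rfl⟩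
  · refine (ringKrullDim_quotient_le _).trans ?_
    rw [MvPolynomial.ringKrullDim_of_isNoetherianRing, ringKrullDim_eq_zero_of_field, zero_add,
      Nat.card_eq_fintype_card, Fintype.card_fin]
  · show 27 * ((6 * a : ℕ) : ℤ) + 27 * (6 * ((100 : ℕ) : ℤ) - ((100 : ℕ) : ℤ) * a) ≤ -(27 * m)
    push_cast
    have : 600 + m ≤ (a : ℤ) := by omega
    omega

theorem converges_aux (m : ℤ) (n : ℕ) (hn : (600 + m).toNat ≤ n) :
    partialSum 100 n - partialSum 100 (600 + m).toNat ∈ Fil m := by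
  induction n, hn using Nat.le_induction with
  | base => rw [sub_self]; exact (Fil m).zero_mem
  | succ n hn ih =>
    have h1 : partialSum 100 (n + 1) - partialSum 100 (600 + m).toNat =
        (partialSum 100 n - partialSum 100 (600 + m).toNat) +
        FreeAbelianGroup.of (⟨6 * (n + 1), level (n + 1), constr_level (n + 1),
          27 * (6 * ((100 : ℕ) : ℤ) - ((100 : ℕ) : ℤ) * ((n + 1 : ℕ) : ℤ))⟩ : Gen) := by
      unfold partialSum
      rw [Finset.sum_range_succ (fun a => FreeAbelianGroup.of (⟨6 * a, level a, constr_level a,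
          27 * (6 * ((100 : ℕ) : ℤ) - ((100 : ℕ) : ℤ) * a)⟩ : Gen)) (n + 1)]
      abel
    rw [h1]
    exact (Fil m).add_mem ih (converges_gen m (n + 1) (by omega))

theorem converges : Converges (partialSum 100) := by
  intro m
  refine ⟨(600 + m).toNat, fun n hn n' hn' => ?_⟩
  apply (le_sup_right : Fil m ≤ relSub ⊔ Fil m)
  have h := (Fil m).sub_mem (converges_aux m n hn) (converges_aux m n' hn')
  rwa [sub_sub_sub_cancel_right] at h

theorem rho_injective_mat_sub (c c' : Fin 3 → K) : mat (fun l => c l - c' l) = mat c - mat c' := by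
  ext i j
  fin_cases i <;> fin_cases j <;> simp [mat] <;> ring

theorem rho_injective (N : ℕ) (hN : 1 ≤ N) : Function.Injective (rho N) := by
  intro g h hgh
  by_contra hne
  have hsub : g - h ≠ 0 := sub_ne_zero.2 hne
  apply mat_F3 (g - h) hsub
  have e1 : (mat fun l => algebraMap (ZMod 3) K ((g - h) l)) =
      (mat fun l => algebraMap (ZMod 3) K (g l)) - (mat fun l => algebraMap (ZMod 3) K (h l)) := by
    rw [← rho_injective_mat_sub]
    congr 1
    funext l
    rw [Pi.sub_apply, map_sub]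
  rw [e1]
  apply Matrix.exists_mulVec_eq_zero_iff.1
  refine ⟨Pi.single 0 1, ?_, ?_⟩
  · intro h0
    have := congrFun h0 0
    simp at this
  · have h1 := LinearMap.congr_fun hgh (fun _ => ((Pi.single 0 1 : Fin 3 → K), (0 : Fin 3 → K)))
    have h2 := congrFun h1 ⟨0, hN⟩
    have h3 := congrArg Prod.snd h2
    have h4 : (0 : Fin 3 → K) + (mat fun l => algebraMap (ZMod 3) K (g l)).mulVec (Pi.single 0 1) =
        (0 : Fin 3 → K) + (mat fun l => algebraMap (ZMod 3) K (h l)).mulVec (Pi.single 0 1) := h3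
    rw [zero_add, zero_add] at h4
    rw [Matrix.sub_mulVec, h4, sub_self]

theorem rho_add (N : ℕ) (g h : Fin 3 → ZMod 3) : rho N (g + h) = rho N g ∘ₗ rho N h := by
  have hmat : (mat fun l => algebraMap (ZMod 3) K ((g + h) l)) =
      (mat fun l => algebraMap (ZMod 3) K (g l)) + (mat fun l => algebraMap (ZMod 3) K (h l)) := by
    ext i j
    fin_cases i <;> fin_cases j <;>
      simp only [mat, Pi.add_apply, map_add, Matrix.add_apply, Matrix.of_apply, Matrix.cons_val',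
        Matrix.cons_val_zero, Matrix.cons_val_one, Matrix.cons_val, Matrix.cons_val_fin_one,
        Fin.isValue, Fin.mk_zero, Fin.mk_one, Fin.zero_eta, Fin.reduceFinMk, add_zero] <;>
      ring
  refine LinearMap.ext fun w => ?_
  funext r
  show ((w r).1, (w r).2 + (mat fun l => algebraMap (ZMod 3) K ((g + h) l)).mulVec (w r).1) =
    ((w r).1, ((w r).2 + (mat fun l => algebraMap (ZMod 3) K (h l)).mulVec (w r).1) +
      (mat fun l => algebraMap (ZMod 3) K (g l)).mulVec (w r).1)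
  rw [hmat, Matrix.add_mulVec]
  refine Prod.ext rfl ?_
  simp only
  abel

theorem rho_fixed (N : ℕ) (g : Fin 3 → ZMod 3) (hg : g ≠ 0) :
    Module.finrank K (LinearMap.ker (rho N g - LinearMap.id)) = 3 * N := by
  set ι : (Fin N → Fin 3 → K) →ₗ[K] V N :=
    LinearMap.pi (fun r => (LinearMap.inr K (Fin 3 → K) (Fin 3 → K)).comp (LinearMap.proj r)) with hι
  have hιa : ∀ u r, ι u r = (0, u r) := fun u r => rfl
  have hker : LinearMap.ker (rho N g - LinearMap.id) = LinearMap.range ι := by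
    ext w
    rw [LinearMap.mem_ker, LinearMap.mem_range]
    constructor
    · intro h
      refine ⟨fun r => (w r).2, ?_⟩
      funext r
      have hr := congrFun h r
      have hr2 : (w r).2 + (mat fun l => algebraMap (ZMod 3) K (g l)).mulVec (w r).1 - (w r).2 = 0 :=
        congrArg Prod.snd hr
      have hr3 : (mat fun l => algebraMap (ZMod 3) K (g l)).mulVec (w r).1 = 0 := by
        rw [add_sub_cancel_left] at hr2
        exact hr2
      have hr4 := Matrix.eq_zero_of_mulVec_eq_zero (mat_F3 g hg) hr3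
      rw [hιa]
      exact Prod.ext hr4.symm rfl
    · rintro ⟨u, rfl⟩
      funext r
      have e : ((rho N g - (LinearMap.id : V N →ₗ[K] V N) : V N →ₗ[K] V N) (ι u)) r =
        ((0 : Fin 3 → K), u r + (mat fun l => algebraMap (ZMod 3) K (g l)).mulVec 0) - ((0 : Fin 3 → K), u r) := rfl
      rw [e, Matrix.mulVec_zero, add_zero, sub_self]
      rfl
  have hinj : Function.Injective ι := by
    intro u v h
    funext r
    have := congrFun h r
    rw [hιa, hιa] at this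
    exact congrArg Prod.snd this
  rw [hker, LinearMap.finrank_range_of_inj hinj, Module.finrank_pi_fintype]
  simp [mul_comm]

theorem finrank_V (N : ℕ) : Module.finrank K (V N) = 6 * N := by
  have h : Module.finrank K ((Fin 3 → K) × (Fin 3 → K)) = 6 := by
    rw [Module.finrank_prod, Module.finrank_fin_fun]
  show Module.finrank K (Fin N → (Fin 3 → K) × (Fin 3 → K)) = 6 * N
  rw [Module.finrank_pi_fintype, Finset.sum_const, h, Finset.card_univ, Fintype.card_fin, smul_eq_mul, mul_comm]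

end Pool.Agent.Helper449.MST
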