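import Pool.Agent.Helper449.MST.Defs2
import Pool.Agent.Helper449.MST.A

/-! # the representation -/

namespace Pool.Agent.Helper449.MST

open MvPolynomial

private theorem rep_add_matG (g h : Fin 3 → ZMod 3) : matG (g + h) = matG g + matG h := by
  unfold matG mat
  ext i j
  fin_cases i <;> fin_cases j <;> simp <;> ring

theorem rep_add (N : ℕ) (g h : Fin 3 → ZMod 3) : rep N (g + h) = rep N g * rep N h := by
  unfold rep
  rw [← Matrix.blockDiagonal_mul]
  congr 1
  funext r
  rw [Matrix.fromBlocks_multiply, rep_add_matG]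
  simp [add_comm]

theorem rep_injective_sub (c c' : Fin 3 → K) : mat (c - c') = mat c - mat c' := by
  ext i j
  fin_cases i <;> fin_cases j <;> simp [mat] <;> ring

theorem rep_injective (N : ℕ) (hN : 1 ≤ N) : Function.Injective (rep N) := by
  intro g h hgh
  have hm : matG g = matG h := by
    ext i j
    have h1 := congrFun (congrFun hgh (Sum.inr i, (⟨0, hN⟩ : Fin N))) (Sum.inl j, (⟨0, hN⟩ : Fin N))
    simpa [rep, Matrix.blockDiagonal_apply] using h1
  by_contra hne
  have h0 : g - h ≠ 0 := sub_ne_zero.2 hne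
  apply mat_F3 (g - h) h0
  have h2 : (mat fun l => algebraMap (ZMod 3) K ((g - h) l)) = 0 := by
    have h3 : (fun l => algebraMap (ZMod 3) K ((g - h) l)) =
        (fun l => algebraMap (ZMod 3) K (g l)) - (fun l => algebraMap (ZMod 3) K (h l)) := by
      funext l
      simp
    rw [h3, rep_injective_sub]
    exact sub_eq_zero.2 hm
  rw [h2]
  exact Matrix.det_zero

private theorem rep_rank_mulVec (N : ℕ) (M : Matrix (Fin 3) (Fin 3) K) (w : Idx N → K)
    (a : Fin 3 ⊕ Fin 3) (r : Fin N) :
    ((Matrix.blockDiagonal fun _ : Fin N => Matrix.fromBlocks 0 0 M 0).mulVec w) (a, r) =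
      Sum.elim (fun _ => (0 : K)) (fun i => (M.mulVec fun j => w (Sum.inl j, r)) i) a := by
  simp only [Matrix.mulVec, dotProduct, Fintype.sum_prod_type]
  rw [Fintype.sum_sum_type]
  simp only [Matrix.blockDiagonal_apply, ite_mul, zero_mul, Finset.sum_ite_eq, Finset.mem_univ,
    if_true]
  rcases a with i | i
  · simp
  · simp

private noncomputable def rep_rank_iota (N : ℕ) : (Fin 3 × Fin N → K) →ₗ[K] (Idx N → K) where
  toFun z := fun p => Sum.elim (fun _ => (0 : K)) (fun i => z (i, p.2)) p.1
  map_add' z z' := by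
    funext p
    rcases p with ⟨i | i, r⟩ <;> simp
  map_smul' c z := by
    funext p
    rcases p with ⟨i | i, r⟩ <;> simp

private theorem rep_rank_iota_inj (N : ℕ) : Function.Injective (rep_rank_iota N) := by
  intro z z' h
  funext p
  have := congrFun h (Sum.inr p.1, p.2)
  simpa [rep_rank_iota] using this

private theorem rep_rank_range (N : ℕ) (M : Matrix (Fin 3) (Fin 3) K) (hM : M.det ≠ 0) :
    LinearMap.range (Matrix.mulVecLin
      (Matrix.blockDiagonal fun _ : Fin N => Matrix.fromBlocks 0 0 M 0 :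
        Matrix (Idx N) (Idx N) K)) =
      LinearMap.range (rep_rank_iota N) := by
  ext v
  constructor
  · rintro ⟨w, rfl⟩
    refine ⟨fun p => (M.mulVec fun j => w (Sum.inl j, p.2)) p.1, ?_⟩
    funext p
    rcases p with ⟨a, r⟩
    rw [Matrix.mulVecLin_apply, rep_rank_mulVec]
    rfl
  · rintro ⟨z, rfl⟩
    refine ⟨fun p => Sum.elim (fun i => (M⁻¹.mulVec fun j => z (j, p.2)) i) (fun _ => 0) p.1, ?_⟩
    funext p
    rcases p with ⟨a, r⟩
    rw [Matrix.mulVecLin_apply, rep_rank_mulVec]
    have h1 : (M.mulVec fun j => (M⁻¹.mulVec fun j => z (j, r)) j) = fun j => z (j, r) := by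
      show M.mulVec (M⁻¹.mulVec fun j => z (j, r)) = _
      rw [Matrix.mulVec_mulVec, Matrix.mul_nonsing_inv M (isUnit_iff_ne_zero.2 hM),
        Matrix.one_mulVec]
    rcases a with i | i
    · rfl
    · exact congrFun h1 i

theorem rep_rank (N : ℕ) (g : Fin 3 → ZMod 3) (hg : g ≠ 0) : (rep N g - 1).rank = 3 * N := by
  have h1 : rep N g - 1 =
      Matrix.blockDiagonal fun _ : Fin N => Matrix.fromBlocks 0 0 (matG g) 0 := by
    unfold rep
    rw [← Matrix.blockDiagonal_one, ← Matrix.blockDiagonal_sub]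
    congr 1
    funext _
    rw [Pi.sub_apply, Pi.one_apply, ← Matrix.fromBlocks_one, sub_eq_add_neg, Matrix.fromBlocks_neg,
      Matrix.fromBlocks_add]
    simp
  rw [h1, Matrix.rank, rep_rank_range N (matG g) (mat_F3 g hg),
    LinearMap.finrank_range_of_inj (rep_rank_iota_inj N)]
  simp

end Pool.Agent.Helper449.MST
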