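import Pool.Agent.Helper449.MST.Defs2
import Pool.Agent.Helper449.MST.B

/-! # Hahn series -/

namespace Pool.Agent.Helper449.MST

open MvPolynomial

/-- generalised power series with rational exponents -/
abbrev Om : Type := HahnSeries ℚ K

/-- the embedding of Laurent series -/
noncomputable def emb : LaurentSeries K →+* Om :=
  HahnSeries.embDomainRingHom (Int.castAddHom ℚ) (fun _ _ h => Int.cast_injective h)
    (fun _ _ => Int.cast_le)

/-- the embedding of power series -/
noncomputable def embP : PowerSeries K →+* Om :=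
  emb.comp (algebraMap (PowerSeries K) (LaurentSeries K))

theorem emb_coeff_int (f : LaurentSeries K) (n : ℤ) : (emb f).coeff (n : ℚ) = f.coeff n :=
  HahnSeries.embDomain_coeff (a := n)

theorem emb_coeff_ne (f : LaurentSeries K) (r : ℚ) (h : ∀ n : ℤ, (n : ℚ) ≠ r) :
    (emb f).coeff r = 0 := by
  unfold emb
  refine HahnSeries.embDomain_notin_range ?_
  rintro ⟨n, hn⟩
  exact h n hn

/-- no negative exponents -/
def Nonneg (z : Om) : Prop := ∀ r : ℚ, r < 0 → z.coeff r = 0

private theorem exists_alpha_frob_succ (e : ℕ) (c : K) : (frobInv (e + 1) c) ^ 3 = frobInv e c := by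
  apply (iterateFrobeniusEquiv K 3 e).injective
  unfold frobInv
  rw [RingEquiv.apply_symm_apply, iterateFrobeniusEquiv_def, ← pow_mul]
  have h := (iterateFrobeniusEquiv K 3 (e + 1)).apply_symm_apply c
  rw [iterateFrobeniusEquiv_def] at h
  rw [show 3 * 3 ^ e = 3 ^ (e + 1) by ring]
  exact h

private theorem exists_alpha_frob_zero (c : K) : frobInv 0 c = c := by
  unfold frobInv
  have h := (iterateFrobeniusEquiv K 3 0).apply_symm_apply c
  rwa [iterateFrobeniusEquiv_zero_apply] at h

private theorem exists_alpha_frob_map_zero (e : ℕ) : frobInv e (0 : K) = 0 := by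
  unfold frobInv
  exact map_zero _

/-- the exponents `-(j+1)/3^(e+N+1)` -/
private noncomputable def exists_alpha_ord (j N : ℕ) : ℕ ↪o ℚ :=
  OrderEmbedding.ofStrictMono (fun e : ℕ => -((j + 1 : ℕ) : ℚ) / 3 ^ (e + N + 1)) (by
    intro a b hab
    show -((j + 1 : ℕ) : ℚ) / 3 ^ (a + N + 1) < -((j + 1 : ℕ) : ℚ) / 3 ^ (b + N + 1)
    rw [neg_div, neg_div, neg_lt_neg_iff]
    apply div_lt_div_of_pos_left
    · positivity
    · positivity
    · exact pow_lt_pow_right₀ (by norm_num) (by omega))

private theorem exists_alpha_ord_apply (j N e : ℕ) :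
    exists_alpha_ord j N e = -((j + 1 : ℕ) : ℚ) / 3 ^ (e + N + 1) := rfl

/-- the tail of the series for `c t^{-(j+1)}` -/
private noncomputable def exists_alpha_T (j N : ℕ) (c : K) : Om :=
  HahnSeries.embDomain (exists_alpha_ord j N)
    ⟨fun e : ℕ => frobInv (e + N + 1) c, Set.isPWO_of_wellQuasiOrderedLE _⟩

private theorem exists_alpha_T_coeff (j N : ℕ) (c : K) (e : ℕ) :
    (exists_alpha_T j N c).coeff (-((j + 1 : ℕ) : ℚ) / 3 ^ (e + N + 1)) = frobInv (e + N + 1) c := by
  rw [← exists_alpha_ord_apply]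
  unfold exists_alpha_T
  rw [HahnSeries.embDomain_coeff]

private theorem exists_alpha_T_coeff_ne (j N : ℕ) (c : K) (r : ℚ)
    (h : ∀ e : ℕ, r ≠ -((j + 1 : ℕ) : ℚ) / 3 ^ (e + N + 1)) :
    (exists_alpha_T j N c).coeff r = 0 := by
  unfold exists_alpha_T
  apply HahnSeries.embDomain_of_notMem_range
  rintro ⟨e, he⟩
  exact h e (by rw [← he]; rfl)

private theorem exists_alpha_T_succ (j N : ℕ) (c : K) :
    exists_alpha_T j N c = HahnSeries.single (-((j + 1 : ℕ) : ℚ) / 3 ^ (N + 1)) (frobInv (N + 1) c)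
      + exists_alpha_T j (N + 1) c := by
  have hinj : ∀ a b : ℕ, -((j + 1 : ℕ) : ℚ) / 3 ^ (a + N + 1) = -((j + 1 : ℕ) : ℚ) / 3 ^ (b + N + 1) → a = b := by
    intro a b h
    exact (exists_alpha_ord j N).injective h
  ext r
  rw [HahnSeries.coeff_add]
  by_cases hr : ∃ e : ℕ, r = -((j + 1 : ℕ) : ℚ) / 3 ^ (e + N + 1)
  · obtain ⟨e, rfl⟩ := hr
    rw [exists_alpha_T_coeff]
    rcases Nat.eq_zero_or_pos e with rfl | he
    · rw [zero_add, HahnSeries.coeff_single_same, exists_alpha_T_coeff_ne, add_zero]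
      intro e he
      have h2 := hinj 0 (e + 1) (by rw [zero_add, he]; congr 2; ring)
      omega
    · obtain ⟨k, rfl⟩ : ∃ k, e = k + 1 := ⟨e - 1, by omega⟩
      rw [HahnSeries.coeff_single_of_ne, zero_add]
      · have h3 := exists_alpha_T_coeff j (N + 1) c k
        have e1 : k + (N + 1) + 1 = k + 1 + N + 1 := by ring
        rw [e1] at h3
        exact h3.symm
      · intro hcon
        have h2 := hinj (k + 1) 0 (by rw [hcon, zero_add])
        omega
  · push Not at hr
    rw [exists_alpha_T_coeff_ne j N c r hr, exists_alpha_T_coeff_ne, HahnSeries.coeff_single_of_ne, add_zero]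
    · have := hr 0
      rwa [zero_add] at this
    · intro e
      have := hr (e + 1)
      intro hcon
      apply this
      rw [hcon]
      congr 2
      ring

private theorem exists_alpha_mul_supp (x y : Om) (r : ℚ) (h : (x * y).coeff r ≠ 0) :
    ∃ a b : ℚ, a + b = r ∧ x.coeff a ≠ 0 ∧ y.coeff b ≠ 0 := by
  have h1 : r ∈ (x * y).support := h
  obtain ⟨a, ha, b, hb, hab⟩ := HahnSeries.support_mul_subset h1
  exact ⟨a, b, hab, ha, hb⟩

private theorem exists_alpha_T_supp (j N : ℕ) (c : K) (r : ℚ)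
    (h : (exists_alpha_T j N c).coeff r ≠ 0) :
    -((j + 1 : ℕ) : ℚ) / 3 ^ (N + 1) ≤ r ∧ r < 0 := by
  by_cases hr : ∃ e : ℕ, r = -((j + 1 : ℕ) : ℚ) / 3 ^ (e + N + 1)
  · obtain ⟨e, rfl⟩ := hr
    constructor
    · rw [neg_div, neg_div, neg_le_neg_iff]
      apply div_le_div_of_nonneg_left
      · positivity
      · positivity
      · exact pow_le_pow_right₀ (by norm_num) (by omega)
    · rw [neg_div, neg_lt_zero]
      positivity
  · push Not at hr
    exact absurd (exists_alpha_T_coeff_ne j N c r hr) h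

private theorem exists_alpha_T_cube_supp (j N : ℕ) (c : K) (r : ℚ)
    (h : ((exists_alpha_T j N c) ^ 3).coeff r ≠ 0) :
    -((j + 1 : ℕ) : ℚ) / 3 ^ N ≤ r ∧ r < 0 := by
  rw [pow_succ, pow_two] at h
  obtain ⟨a, b, hab, ha, hb⟩ := exists_alpha_mul_supp _ _ _ h
  obtain ⟨a1, a2, ha12, ha1, ha2⟩ := exists_alpha_mul_supp _ _ _ ha
  have h1 := exists_alpha_T_supp j N c _ ha1
  have h2 := exists_alpha_T_supp j N c _ ha2
  have h3 := exists_alpha_T_supp j N c _ hb
  have h4 : -((j + 1 : ℕ) : ℚ) / 3 ^ N = 3 * (-((j + 1 : ℕ) : ℚ) / 3 ^ (N + 1)) := by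
    rw [pow_succ]
    field_simp
  rw [h4]
  constructor
  · linarith [h1.1, h2.1, h3.1]
  · linarith [h1.2, h2.2, h3.2]

private theorem exists_alpha_char : CharP Om 3 :=
  charP_of_injective_algebraMap (algebraMap K Om).injective 3

private theorem exists_alpha_step (j N : ℕ) (c : K) :
    (exists_alpha_T j N c) ^ 3 - exists_alpha_T j N c
        - HahnSeries.single (-((j + 1 : ℕ) : ℚ) / 3 ^ N) (frobInv N c)
      = (exists_alpha_T j (N + 1) c) ^ 3 - exists_alpha_T j (N + 1) c
        - HahnSeries.single (-((j + 1 : ℕ) : ℚ) / 3 ^ (N + 1)) (frobInv (N + 1) c) := by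
  have := exists_alpha_char
  have : ExpChar Om 3 := ExpChar.prime Nat.prime_three
  have h3 : (HahnSeries.single (-((j + 1 : ℕ) : ℚ) / 3 ^ (N + 1)) (frobInv (N + 1) c) : Om) ^ 3
      = HahnSeries.single (-((j + 1 : ℕ) : ℚ) / 3 ^ N) (frobInv N c) := by
    rw [HahnSeries.single_pow, exists_alpha_frob_succ]
    congr 1
    rw [pow_succ]
    simp only [nsmul_eq_mul]
    push_cast
    field_simp
  rw [exists_alpha_T_succ j N c, add_pow_expChar, h3]
  ring

private theorem exists_alpha_all (j N : ℕ) (c : K) :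
    (exists_alpha_T j 0 c) ^ 3 - exists_alpha_T j 0 c
        - HahnSeries.single (-((j + 1 : ℕ) : ℚ) / 3 ^ 0) (frobInv 0 c)
      = (exists_alpha_T j N c) ^ 3 - exists_alpha_T j N c
        - HahnSeries.single (-((j + 1 : ℕ) : ℚ) / 3 ^ N) (frobInv N c) := by
  induction N with
  | zero => rfl
  | succ N ih => rw [ih, exists_alpha_step]

private theorem exists_alpha_eq (j : ℕ) (c : K) :
    (exists_alpha_T j 0 c) ^ 3 - exists_alpha_T j 0 c
      = HahnSeries.single (-((j + 1 : ℕ) : ℚ)) c := by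
  have hD : (exists_alpha_T j 0 c) ^ 3 - exists_alpha_T j 0 c
        - HahnSeries.single (-((j + 1 : ℕ) : ℚ) / 3 ^ 0) (frobInv 0 c) = 0 := by
    ext r
    rw [HahnSeries.coeff_zero]
    by_contra hne
    have key : ∀ N : ℕ, -((j + 1 : ℕ) : ℚ) / 3 ^ N ≤ r ∧ r < 0 := by
      intro N
      rw [exists_alpha_all j N c, HahnSeries.coeff_sub, HahnSeries.coeff_sub] at hne
      by_contra hcon
      have e1 : ((exists_alpha_T j N c) ^ 3).coeff r = 0 := by
        by_contra h
        exact hcon (exists_alpha_T_cube_supp j N c r h)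
      have hle : -((j + 1 : ℕ) : ℚ) / 3 ^ N ≤ -((j + 1 : ℕ) : ℚ) / 3 ^ (N + 1) := by
        rw [neg_div, neg_div, neg_le_neg_iff]
        apply div_le_div_of_nonneg_left
        · positivity
        · positivity
        · exact pow_le_pow_right₀ (by norm_num) (by omega)
      have e2 : (exists_alpha_T j N c).coeff r = 0 := by
        by_contra h
        have := exists_alpha_T_supp j N c r h
        exact hcon ⟨hle.trans this.1, this.2⟩
      have e3 : (HahnSeries.single (-((j + 1 : ℕ) : ℚ) / 3 ^ N) (frobInv N c) : Om).coeff r = 0 := by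
        apply HahnSeries.coeff_single_of_ne
        intro h
        apply hcon
        rw [h]
        refine ⟨le_rfl, ?_⟩
        rw [neg_div, neg_lt_zero]
        positivity
      rw [e1, e2, e3] at hne
      simp at hne
    have hr := (key 0).2
    have hj : (0 : ℚ) < ((j + 1 : ℕ) : ℚ) := by positivity
    obtain ⟨N, hN⟩ := pow_unbounded_of_one_lt (((j + 1 : ℕ) : ℚ) / (-r)) (by norm_num : (1 : ℚ) < 3)
    have h1 := (key N).1
    have hr' : (0 : ℚ) < -r := by linarith
    rw [div_lt_iff₀ hr'] at hN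
    rw [div_le_iff₀ (by positivity)] at h1
    nlinarith
  rw [pow_zero, div_one, exists_alpha_frob_zero] at hD
  exact sub_eq_zero.1 hD

private theorem exists_alpha_uniq (j e j' e' : ℕ) (hj : ¬ 3 ∣ j) (hj' : ¬ 3 ∣ j')
    (h : -(j : ℚ) / 3 ^ e = -(j' : ℚ) / 3 ^ e') : e = e' ∧ j = j' := by
  rw [div_eq_div_iff (by positivity) (by positivity)] at h
  have h1 : (j : ℚ) * 3 ^ e' = (j' : ℚ) * 3 ^ e := by linarith
  have h2 : j * 3 ^ e' = j' * 3 ^ e := by exact_mod_cast h1
  have he : e = e' := by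
    rcases lt_trichotomy e e' with hlt | heq | hgt
    · exfalso
      obtain ⟨k, rfl⟩ := Nat.exists_eq_add_of_lt hlt
      have h3 : j * 3 ^ (k + 1) = j' := by
        have hpos : 0 < 3 ^ e := by positivity
        apply Nat.eq_of_mul_eq_mul_right hpos
        rw [← h2]
        ring
      exact hj' ⟨j * 3 ^ k, by rw [← h3]; ring⟩
    · exact heq
    · exfalso
      obtain ⟨k, rfl⟩ := Nat.exists_eq_add_of_lt hgt
      have h3 : j' * 3 ^ (k + 1) = j := by
        have hpos : 0 < 3 ^ e' := by positivity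
        apply Nat.eq_of_mul_eq_mul_right hpos
        rw [h2]
        ring
      exact hj ⟨j' * 3 ^ k, by rw [← h3]; ring⟩
  refine ⟨he, ?_⟩
  subst he
  exact Nat.eq_of_mul_eq_mul_right (by positivity) h2

private theorem exists_alpha_emb_single (n : ℤ) (c : K) :
    emb (HahnSeries.single n c) = HahnSeries.single (n : ℚ) c := by
  show HahnSeries.embDomain _ (HahnSeries.single n c) = _
  rw [HahnSeries.embDomain_single]
  rfl

theorem exists_alpha (F : ℕ →₀ K) : ∃ α : Fin 3 → Om,
    (∀ l, α l ^ 3 - α l = emb (fser F l)) ∧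
    (∀ l (e j : ℕ), 1 ≤ e → 1 ≤ j → ¬ 3 ∣ j →
      (α l).coeff (-(j : ℚ) / 3 ^ e) = frobInv e (coef F j l)) ∧
    (∀ l (r : ℚ), (∀ e j : ℕ, 1 ≤ e → 1 ≤ j → ¬ 3 ∣ j → r ≠ -(j : ℚ) / 3 ^ e) →
      (α l).coeff r = 0) := by
  have := exists_alpha_char
  have : ExpChar Om 3 := ExpChar.prime Nat.prime_three
  have hcz : ∀ j, 3 ∣ j → ∀ l, coef F j l = 0 := by
    intro j hj l
    unfold coef
    rw [if_pos (Nat.eq_zero_of_dvd_of_lt (by omega) (Nat.mod_lt _ (by norm_num)))]
  have hTz : ∀ j N, exists_alpha_T j N 0 = 0 := by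
    intro j N
    ext r
    rw [HahnSeries.coeff_zero]
    by_cases hr : ∃ e : ℕ, r = -((j + 1 : ℕ) : ℚ) / 3 ^ (e + N + 1)
    · obtain ⟨e, rfl⟩ := hr
      rw [exists_alpha_T_coeff, exists_alpha_frob_map_zero]
    · push Not at hr
      exact exists_alpha_T_coeff_ne j N 0 r hr
  set M := F.support.sup id + 1 with hM
  have hcoeffsum : ∀ (l : Fin 3) (r : ℚ),
      (∑ j ∈ Finset.range M, exists_alpha_T j 0 (coef F (j + 1) l)).coeff r
        = ∑ j ∈ Finset.range M, (exists_alpha_T j 0 (coef F (j + 1) l)).coeff r := by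
    intro l r
    exact map_sum (HahnSeries.coeff.addMonoidHom r : Om →+ K) _ _
  refine ⟨fun l => ∑ j ∈ Finset.range M, exists_alpha_T j 0 (coef F (j + 1) l), ?_, ?_, ?_⟩
  · intro l
    show (∑ j ∈ Finset.range M, exists_alpha_T j 0 (coef F (j + 1) l)) ^ 3
      - ∑ j ∈ Finset.range M, exists_alpha_T j 0 (coef F (j + 1) l) = _
    have hfr : (∑ j ∈ Finset.range M, exists_alpha_T j 0 (coef F (j + 1) l)) ^ 3
        = ∑ j ∈ Finset.range M, (exists_alpha_T j 0 (coef F (j + 1) l)) ^ 3 :=
      map_sum (frobenius Om 3) (fun j => exists_alpha_T j 0 (coef F (j + 1) l)) (Finset.range M)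
    rw [hfr, ← Finset.sum_sub_distrib]
    unfold fser
    rw [map_sum, show F.support.sup id + 2 = M + 1 by omega,
      Finset.sum_range_succ' (fun x : ℕ => emb (HahnSeries.single (-(x : ℤ)) (coef F x l))) M]
    have h0 : emb (HahnSeries.single (-((0 : ℕ) : ℤ)) (coef F 0 l)) = 0 := by
      rw [hcz 0 (by norm_num), map_zero, map_zero]
    rw [h0, add_zero]
    apply Finset.sum_congr rfl
    intro j _
    rw [exists_alpha_eq]
    rw [exists_alpha_emb_single]
    push_cast
    rfl
  · intro l e j he hj h3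
    show (∑ j ∈ Finset.range M, exists_alpha_T j 0 (coef F (j + 1) l)).coeff _ = _
    rw [hcoeffsum]
    obtain ⟨e, rfl⟩ := Nat.exists_eq_add_of_le he
    obtain ⟨j, rfl⟩ := Nat.exists_eq_add_of_le hj
    have hself : (exists_alpha_T j 0 (coef F (j + 1) l)).coeff (-((1 + j : ℕ) : ℚ) / 3 ^ (1 + e))
        = frobInv (1 + e) (coef F (1 + j) l) := by
      have := exists_alpha_T_coeff j 0 (coef F (j + 1) l) e
      rw [add_zero] at this
      rw [add_comm 1 j, add_comm 1 e]
      exact this
    rw [← hself]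
    by_cases hjM : j ∈ Finset.range M
    · apply Finset.sum_eq_single_of_mem j hjM
      intro j' _ hne
      by_cases h3' : 3 ∣ j' + 1
      · rw [hcz _ h3', hTz, HahnSeries.coeff_zero]
      · apply exists_alpha_T_coeff_ne
        intro e' hcon
        have := (exists_alpha_uniq _ _ _ _ h3 h3' hcon).2
        omega
    · have hz : coef F (j + 1) = 0 := by
        apply coef_eq_zero_of_top
        rw [Finset.mem_range] at hjM
        omega
      rw [hz]
      show _ = (exists_alpha_T j 0 (0 : K)).coeff _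
      rw [hTz, HahnSeries.coeff_zero]
      apply Finset.sum_eq_zero
      intro j' hj'
      by_cases h3' : 3 ∣ j' + 1
      · rw [hcz _ h3', hTz, HahnSeries.coeff_zero]
      · apply exists_alpha_T_coeff_ne
        intro e' hcon
        have := (exists_alpha_uniq _ _ _ _ h3 h3' hcon).2
        rw [Finset.mem_range] at hjM hj'
        omega
  · intro l r hr
    show (∑ j ∈ Finset.range M, exists_alpha_T j 0 (coef F (j + 1) l)).coeff _ = _
    rw [hcoeffsum]
    apply Finset.sum_eq_zero
    intro j' hj'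
    by_cases h3' : 3 ∣ j' + 1
    · rw [hcz _ h3', hTz, HahnSeries.coeff_zero]
    · apply exists_alpha_T_coeff_ne
      intro e'
      exact hr (e' + 0 + 1) (j' + 1) (by omega) (by omega) h3'

/-- the Artin-Schreier generators as Hahn series -/
noncomputable def alpha (F : ℕ →₀ K) : Fin 3 → Om := Classical.choose (exists_alpha F)

theorem alpha_pow (F : ℕ →₀ K) (l : Fin 3) : alpha F l ^ 3 - alpha F l = emb (fser F l) :=
  (Classical.choose_spec (exists_alpha F)).1 l

theorem alpha_coeff (F : ℕ →₀ K) (l : Fin 3) (e j : ℕ) (he : 1 ≤ e) (hj : 1 ≤ j) (h3 : ¬ 3 ∣ j) :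
    (alpha F l).coeff (-(j : ℚ) / 3 ^ e) = frobInv e (coef F j l) :=
  (Classical.choose_spec (exists_alpha F)).2.1 l e j he hj h3

theorem alpha_coeff_ne (F : ℕ →₀ K) (l : Fin 3) (r : ℚ)
    (h : ∀ e j : ℕ, 1 ≤ e → 1 ≤ j → ¬ 3 ∣ j → r ≠ -(j : ℚ) / 3 ^ e) : (alpha F l).coeff r = 0 :=
  (Classical.choose_spec (exists_alpha F)).2.2 l r h

theorem ev_aux (F : ℕ →₀ K) : ∀ P ∈ asIdeal (fser F), eval₂Hom emb (alpha F) P = 0 := by
  intro P hP
  have h1 : asIdeal (fser F) ≤ RingHom.ker (eval₂Hom emb (alpha F)) := by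
    unfold asIdeal
    rw [Ideal.span_le]
    rintro _ ⟨l, rfl⟩
    show eval₂Hom emb (alpha F) _ = 0
    simp only [map_sub, map_pow, eval₂Hom_X', eval₂Hom_C]
    rw [alpha_pow, sub_self]
  exact h1 hP

/-- evaluation of the torsor algebra in Hahn series -/
noncomputable def ev (F : ℕ →₀ K) : AS (fser F) →+* Om :=
  Ideal.Quotient.lift (asIdeal (fser F)) (eval₂Hom emb (alpha F)) (ev_aux F)

theorem ev_gen (F : ℕ →₀ K) (l : Fin 3) : ev F (gen (fser F) l) = alpha F l := by
  unfold ev gen
  rw [Ideal.Quotient.lift_mk]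
  exact eval₂Hom_X' emb (alpha F) l

theorem ev_algebraMap (F : ℕ →₀ K) (y : LaurentSeries K) :
    ev F (algebraMap (LaurentSeries K) (AS (fser F)) y) = emb y := by
  have h1 : algebraMap (LaurentSeries K) (AS (fser F)) y =
      Ideal.Quotient.mk (asIdeal (fser F)) (C y) := rfl
  rw [h1]
  unfold ev
  rw [Ideal.Quotient.lift_mk]
  exact eval₂Hom_C _ _ _

theorem ev_algebraMapP (F : ℕ →₀ K) (y : PowerSeries K) :
    ev F (algebraMap (PowerSeries K) (AS (fser F)) y) = embP y := by
  rw [IsScalarTower.algebraMap_apply (PowerSeries K) (LaurentSeries K) (AS (fser F)) y,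
    ev_algebraMap]
  rfl

private theorem nonneg_of_root_embP (a : PowerSeries K) :
    (0 : WithTop ℚ) ≤ HahnSeries.addVal ℚ K (embP a) := by
  rw [HahnSeries.addVal_apply, HahnSeries.le_orderTop_iff_forall]
  intro r hr
  have hr' : r < 0 := by exact_mod_cast hr
  by_cases h : ∃ n : ℤ, (n:ℚ) = r
  · obtain ⟨n, rfl⟩ := h
    have hn : n < 0 := by exact_mod_cast hr'
    show (emb (algebraMap (PowerSeries K) (LaurentSeries K) a)).coeff (n:ℚ) = 0
    rw [emb_coeff_int, LaurentSeries.coe_algebraMap, PowerSeries.coeff_coe, if_pos hn]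
  · push Not at h
    exact emb_coeff_ne _ _ h

theorem nonneg_of_root (z : Om) (P : Polynomial (PowerSeries K)) (hP : P.Monic)
    (h : P.eval₂ embP z = 0) : Nonneg z := by
  intro r hr
  by_contra hne
  have hz1 : HahnSeries.addVal ℚ K z ≤ (r : WithTop ℚ) :=
    HahnSeries.addVal_le_of_coeff_ne_zero hne
  obtain ⟨γ, hγ⟩ : ∃ γ : ℚ, HahnSeries.addVal ℚ K z = (γ : WithTop ℚ) := by
    have h1 : HahnSeries.addVal ℚ K z ≠ ⊤ := ne_top_of_le_ne_top (WithTop.coe_ne_top) hz1
    exact ⟨_, (WithTop.coe_untop _ h1).symm⟩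
  have hγ0 : γ < 0 := by
    rw [hγ] at hz1
    have := WithTop.coe_le_coe.1 hz1
    linarith
  have hpow : ∀ i : ℕ, HahnSeries.addVal ℚ K (z^i) = ((i * γ : ℚ) : WithTop ℚ) := by
    intro i
    rw [AddValuation.map_pow, hγ, ← WithTop.coe_nsmul, nsmul_eq_mul]
  have hsum : z^P.natDegree = - ∑ i ∈ Finset.range P.natDegree, embP (P.coeff i) * z^i := by
    rw [Polynomial.eval₂_eq_sum_range, Finset.sum_range_succ, hP.coeff_natDegree, map_one,
      one_mul] at h
    exact eq_neg_of_add_eq_zero_right h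
  have h1 : HahnSeries.addVal ℚ K (z^P.natDegree) <
      HahnSeries.addVal ℚ K (∑ i ∈ Finset.range P.natDegree, embP (P.coeff i) * z^i) := by
    apply AddValuation.map_lt_sum
    · rw [hpow]
      exact WithTop.coe_ne_top
    · intro i hi
      rw [AddValuation.map_mul, hpow, hpow]
      have hi' : i < P.natDegree := Finset.mem_range.1 hi
      have h2 : ((P.natDegree * γ : ℚ) : WithTop ℚ) < ((i * γ : ℚ) : WithTop ℚ) := by
        rw [WithTop.coe_lt_coe]
        have h3 : (i:ℚ) < P.natDegree := by exact_mod_cast hi'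
        nlinarith
      calc ((P.natDegree * γ : ℚ) : WithTop ℚ) < ((i * γ : ℚ) : WithTop ℚ) := h2
        _ = 0 + ((i * γ : ℚ) : WithTop ℚ) := (zero_add _).symm
        _ ≤ _ := add_le_add (nonneg_of_root_embP _) le_rfl
  have h4 : HahnSeries.addVal ℚ K (z^P.natDegree) =
      HahnSeries.addVal ℚ K (∑ i ∈ Finset.range P.natDegree, embP (P.coeff i) * z^i) := by
    conv_lhs => rw [hsum, AddValuation.map_neg]
  exact absurd h4 (ne_of_lt h1)

theorem nonneg_of_integral (F : ℕ →₀ K) (u : AS (fser F)) (hu : IsIntegral (PowerSeries K) u) :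
    Nonneg (ev F u) := by
  obtain ⟨P, hP, hPu⟩ := hu
  have h := congrArg (ev F) hPu
  rw [Polynomial.hom_eval₂, map_zero] at h
  have hc : (ev F).comp (algebraMap (PowerSeries K) (AS (fser F))) = embP :=
    RingHom.ext fun y => ev_algebraMapP F y
  rw [hc] at h
  exact nonneg_of_root (ev F u) P hP h

theorem integral_iff_step {R L : Type} [CommRing R] [CommRing L] [Algebra R L] (c : R) (z : L)
    (h : IsIntegral R (z ^ 3 - (algebraMap R L c) ^ 2 * z)) : IsIntegral R z := by
  let A' := integralClosure R L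
  let w : A' := ⟨z ^ 3 - (algebraMap R L c) ^ 2 * z, h⟩
  have hz : IsIntegral A' z := by
    refine ⟨Polynomial.X ^ (2 + 1) - (Polynomial.C ((algebraMap R A' c) ^ 2) * Polynomial.X +
      Polynomial.C w), ?_, ?_⟩
    · have hdeg : (Polynomial.C ((algebraMap R A' c) ^ 2) * Polynomial.X +
        Polynomial.C w).degree ≤ 1 := Polynomial.degree_linear_le
      apply Polynomial.monic_X_pow_sub
      exact lt_of_le_of_lt hdeg (by norm_num)
    · simp only [Polynomial.eval₂_sub, Polynomial.eval₂_pow, Polynomial.eval₂_X, Polynomial.eval₂_add,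
        Polynomial.eval₂_mul, Polynomial.eval₂_C]
      have h1 : algebraMap A' L w = z ^ 3 - (algebraMap R L c) ^ 2 * z := rfl
      have h2 : algebraMap A' L ((algebraMap R A' c) ^ 2) = (algebraMap R L c) ^ 2 := rfl
      rw [h1, h2]
      ring
  exact isIntegral_trans (R := R) (A := A') z hz

theorem integral_iff_shape {R E L : Type} [CommRing R] [CommRing E] [CommRing L]
    [Algebra R E] [Algebra E L] [Algebra R L] [IsScalarTower R E L] (h3 : (3 : L) = 0)
    (f : Fin 3 → E) (g : Fin 3 → L) (hg : ∀ l, g l ^ 3 - g l = algebraMap E L (f l))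
    (m : Fin 3 → R) (y : E) (c : R) :
    (∑ l, algebraMap R L (m l) * g l + algebraMap E L y) ^ 3 -
      (algebraMap R L c) ^ 2 * (∑ l, algebraMap R L (m l) * g l + algebraMap E L y) =
    ∑ l, algebraMap R L (m l ^ 3 - c ^ 2 * m l) * g l +
      algebraMap E L (∑ l, (algebraMap R E (m l)) ^ 3 * f l + y ^ 3 - (algebraMap R E c) ^ 2 * y) := by
  have cube : ∀ x y : L, (x + y) ^ 3 = x ^ 3 + y ^ 3 := fun x y => by
    linear_combination (x * y * (x + y)) * h3
  have hg' : ∀ l, g l ^ 3 = g l + algebraMap E L (f l) := fun l => by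
    linear_combination hg l
  simp only [Fin.sum_univ_three, map_add, map_sub, map_mul, map_pow,
    ← IsScalarTower.algebraMap_apply R E L]
  rw [cube, cube, cube, mul_pow, mul_pow, mul_pow, hg' 0, hg' 1, hg' 2]
  ring

theorem integral_iff_gen {R E L O : Type} [CommRing R] [CommRing E] [CommRing L] [CommRing O]
    [Algebra R E] [Algebra E L] [Algebra R L] [IsScalarTower R E L] (h3 : (3 : L) = 0)
    (f : Fin 3 → E) (g : Fin 3 → L) (hg : ∀ l, g l ^ 3 - g l = algebraMap E L (f l))
    (ev : L →+* O) (NN : O → Prop) (hNsub : ∀ a b, NN a → NN b → NN (a - b))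
    (hNmul : ∀ a b, NN a → NN b → NN (a * b)) (hNR : ∀ c : R, NN (ev (algebraMap R L c)))
    (hNE : ∀ y : E, NN (ev (algebraMap E L y)) → ∃ p : R, algebraMap R E p = y)
    (m : Fin 3 → R) (y : E) (h : NN (ev (∑ l, algebraMap R L (m l) * g l + algebraMap E L y))) :
    IsIntegral R (∑ l, algebraMap R L (m l) * g l + algebraMap E L y) := by
  have hstep : ∀ (m : Fin 3 → R) (y : E) (c : R),
      NN (ev (∑ l, algebraMap R L (m l) * g l + algebraMap E L y)) →
      NN (ev (∑ l, algebraMap R L (m l ^ 3 - c ^ 2 * m l) * g l +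
        algebraMap E L (∑ l, (algebraMap R E (m l)) ^ 3 * f l + y ^ 3 - (algebraMap R E c) ^ 2 * y))) := by
    intro m y c hN
    rw [← integral_iff_shape h3 f g hg m y c, map_sub, map_mul, map_pow, map_pow]
    apply hNsub
    · rw [pow_succ, pow_two]
      exact hNmul _ _ (hNmul _ _ hN hN) hN
    · apply hNmul _ _ _ hN
      rw [pow_two]
      exact hNmul _ _ (hNR c) (hNR c)
  have hback : ∀ (m : Fin 3 → R) (y : E) (c : R),
      IsIntegral R (∑ l, algebraMap R L (m l ^ 3 - c ^ 2 * m l) * g l +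
        algebraMap E L (∑ l, (algebraMap R E (m l)) ^ 3 * f l + y ^ 3 - (algebraMap R E c) ^ 2 * y)) →
      IsIntegral R (∑ l, algebraMap R L (m l) * g l + algebraMap E L y) := by
    intro m y c hI
    rw [← integral_iff_shape h3 f g hg m y c] at hI
    exact integral_iff_step c _ hI
  -- the base case
  have base : ∀ (m : Fin 3 → R) (y : E), m 0 = 0 → m 1 = 0 → m 2 = 0 →
      NN (ev (∑ l, algebraMap R L (m l) * g l + algebraMap E L y)) →
      IsIntegral R (∑ l, algebraMap R L (m l) * g l + algebraMap E L y) := by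
    intro m y h0 h1 h2 hN
    have hs : ∑ l, algebraMap R L (m l) * g l = 0 := by
      rw [Fin.sum_univ_three, h0, h1, h2, map_zero]; ring
    rw [hs, zero_add] at hN ⊢
    obtain ⟨p, rfl⟩ := hNE y hN
    rw [← IsScalarTower.algebraMap_apply R E L]
    exact isIntegral_algebraMap
  have s2 : ∀ (m : Fin 3 → R) (y : E), m 0 = 0 → m 1 = 0 →
      NN (ev (∑ l, algebraMap R L (m l) * g l + algebraMap E L y)) →
      IsIntegral R (∑ l, algebraMap R L (m l) * g l + algebraMap E L y) := by
    intro m y h0 h1 hN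
    apply hback m y (m 2)
    apply base (fun l => m l ^ 3 - (m 2) ^ 2 * m l) _ _ _ _ (hstep m y (m 2) hN)
    · simp only [h0]; ring
    · simp only [h1]; ring
    · ring
  have s1 : ∀ (m : Fin 3 → R) (y : E), m 0 = 0 →
      NN (ev (∑ l, algebraMap R L (m l) * g l + algebraMap E L y)) →
      IsIntegral R (∑ l, algebraMap R L (m l) * g l + algebraMap E L y) := by
    intro m y h0 hN
    apply hback m y (m 1)
    apply s2 (fun l => m l ^ 3 - (m 1) ^ 2 * m l) _ _ _ (hstep m y (m 1) hN)
    · simp only [h0]; ring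
    · ring
  apply hback m y (m 0)
  apply s1 (fun l => m l ^ 3 - (m 0) ^ 2 * m l) _ _ (hstep m y (m 0) h)
  ring

theorem integral_iff_Nmul (a b : Om) (ha : Nonneg a) (hb : Nonneg b) : Nonneg (a * b) := by
  intro r hr
  rw [HahnSeries.coeff_mul]
  apply Finset.sum_eq_zero
  rintro ⟨i, j⟩ hij
  have hs : i + j = r := (Finset.mem_addAntidiagonal.mp hij).2.2
  rcases lt_or_ge i 0 with hi | hi
  · simp only [ha i hi, zero_mul]
  · have hj : j < 0 := by linarith
    simp only [hb j hj, mul_zero]

theorem integral_iff_Nsub (a b : Om) (ha : Nonneg a) (hb : Nonneg b) : Nonneg (a - b) := by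
  intro r hr
  rw [HahnSeries.coeff_sub, ha r hr, hb r hr, sub_zero]

theorem integral_iff_Nemb (c : PowerSeries K) : Nonneg (embP c) := by
  intro r hr
  show (emb (algebraMap (PowerSeries K) (LaurentSeries K) c)).coeff r = 0
  by_cases h : ∃ n : ℤ, (n : ℚ) = r
  · obtain ⟨n, rfl⟩ := h
    rw [emb_coeff_int]
    have hn : n < 0 := by exact_mod_cast hr
    have : (algebraMap (PowerSeries K) (LaurentSeries K) c) = ((c : PowerSeries K) : LaurentSeries K) := rfl
    rw [this, PowerSeries.coeff_coe, if_pos hn]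
  · push Not at h
    exact emb_coeff_ne _ _ h

theorem integral_iff_Nback (y : LaurentSeries K) (h : Nonneg (emb y)) :
    ∃ p : PowerSeries K, algebraMap (PowerSeries K) (LaurentSeries K) p = y := by
  refine ⟨PowerSeries.mk (fun n => y.coeff (n : ℤ)), ?_⟩
  have h1 : ∀ c : PowerSeries K, (algebraMap (PowerSeries K) (LaurentSeries K) c) =
    ((c : PowerSeries K) : LaurentSeries K) := fun c => rfl
  rw [h1]
  apply HahnSeries.ext
  funext n
  rw [PowerSeries.coeff_coe]
  by_cases hn : n < 0
  · rw [if_pos hn]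
    have h2 := h (n : ℚ) (by exact_mod_cast hn)
    rw [emb_coeff_int] at h2
    exact h2.symm
  · rw [if_neg hn, PowerSeries.coeff_mk]
    congr 1
    omega

theorem integral_iff (F : ℕ →₀ K) (m : Fin 3 → PowerSeries K) (y : LaurentSeries K) :
    IsIntegral (PowerSeries K) (∑ l, algebraMap (PowerSeries K) (AS (fser F)) (m l) *
      gen (fser F) l + algebraMap (LaurentSeries K) (AS (fser F)) y) ↔
    Nonneg (∑ l, embP (m l) * alpha F l + emb y) := by
  have hev : ev F (∑ l, algebraMap (PowerSeries K) (AS (fser F)) (m l) *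
      gen (fser F) l + algebraMap (LaurentSeries K) (AS (fser F)) y) =
      ∑ l, embP (m l) * alpha F l + emb y := by
    rw [map_add, map_sum, ev_algebraMap]
    congr 1
    apply Finset.sum_congr rfl
    intro l _
    rw [map_mul, ev_gen, ev_algebraMapP]
  constructor
  · intro h
    rw [← hev]
    exact nonneg_of_integral F _ h
  · intro h
    rw [← hev] at h
    have h3 : (3 : AS (fser F)) = 0 := by
      have h1 : (3 : LaurentSeries K) = 0 := by
        have := CharP.cast_eq_zero (LaurentSeries K) 3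
        exact_mod_cast this
      calc (3 : AS (fser F)) = algebraMap (LaurentSeries K) (AS (fser F)) 3 := (map_ofNat _ 3).symm
        _ = 0 := by rw [h1, map_zero]
    refine integral_iff_gen (R := PowerSeries K) (E := LaurentSeries K) (L := AS (fser F)) (O := Om) h3
      (fser F) (gen (fser F)) (gen_pow (fser F)) (ev F) Nonneg integral_iff_Nsub integral_iff_Nmul
      ?_ ?_ m y h
    · intro c
      rw [ev_algebraMapP]
      exact integral_iff_Nemb c
    · intro y hy
      rw [ev_algebraMap] at hy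
      exact integral_iff_Nback y hy

private theorem coeff_mul_alpha_embP (m : PowerSeries K) (s : ℕ) :
    (embP m).coeff (s : ℚ) = PowerSeries.coeff s m := by
  have h := emb_coeff_int (algebraMap (PowerSeries K) (LaurentSeries K) m) (s : ℤ)
  have h2 : ((s : ℤ) : ℚ) = (s : ℚ) := by push_cast; rfl
  rw [h2] at h
  show (emb (algebraMap (PowerSeries K) (LaurentSeries K) m)).coeff (s : ℚ) = _
  rw [h, LaurentSeries.coe_algebraMap]
  exact LaurentSeries.coeff_coe_powerSeries m s

private theorem coeff_mul_alpha_supp (m : PowerSeries K) (u : ℚ) (hu : (embP m).coeff u ≠ 0) :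
    ∃ s : ℕ, u = s := by
  by_contra hc
  push Not at hc
  apply hu
  show (emb (algebraMap (PowerSeries K) (LaurentSeries K) m)).coeff u = 0
  by_cases hn : ∃ n : ℤ, (n : ℚ) = u
  · obtain ⟨n, rfl⟩ := hn
    rw [emb_coeff_int, LaurentSeries.coe_algebraMap]
    have hn0 : n < 0 := by
      by_contra h0
      push Not at h0
      apply hc n.toNat
      have : ((n.toNat : ℤ) : ℚ) = (n : ℚ) := by rw [Int.toNat_of_nonneg h0]
      rw [← this]
      push_cast
      rfl
    have h := PowerSeries.coeff_coe m n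
    rw [if_pos hn0] at h
    exact h
  · push Not at hn
    exact emb_coeff_ne _ u hn


theorem coeff_mul_alpha (F : ℕ →₀ K) (J : ℕ) (hJ : ∀ j, J < j → coef F j = 0)
    (m : PowerSeries K) (l : Fin 3) (e i : ℕ) (he : 1 ≤ e) (hi : 1 ≤ i) (h3 : ¬ 3 ∣ i) :
    (embP m * alpha F l).coeff (-(i : ℚ) / 3 ^ e) =
      ∑ s ∈ Finset.range (J + 1), PowerSeries.coeff s m *
        frobInv e (coef F (i + 3 ^ e * s) l) := by
  classical
  have h3e : (3 : ℚ) ^ e ≠ 0 := by positivity
  set S : Finset (ℚ × ℚ) :=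
    (Finset.range (J + 1)).image (fun s : ℕ => ((s : ℚ), -(i : ℚ) / 3 ^ e - s)) with hS
  have hal : ∀ s : ℕ, (alpha F l).coeff (-(i : ℚ) / 3 ^ e - s) =
      frobInv e (coef F (i + 3 ^ e * s) l) := by
    intro s
    have h1 : -(i : ℚ) / 3 ^ e - s = -((i + 3 ^ e * s : ℕ) : ℚ) / 3 ^ e := by
      push_cast
      field_simp
      ring
    rw [h1]
    refine alpha_coeff F l e (i + 3 ^ e * s) he (by omega) ?_
    intro h
    apply h3
    have h2 : 3 ∣ 3 ^ e * s := Dvd.dvd.mul_right (dvd_pow_self 3 (by omega)) s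
    exact (Nat.dvd_add_left h2).mp h
  have hz : frobInv e 0 = 0 := by
    unfold frobInv
    exact map_zero _
  rw [HahnSeries.coeff_mul]
  have hsub : Finset.antidiagonal (embP m).isPWO_support (alpha F l).isPWO_support
      (-(i : ℚ) / 3 ^ e) ⊆ S := by
    intro p hp
    rw [Finset.mem_antidiagonal] at hp
    obtain ⟨h1, h2, h4⟩ := hp
    rw [HahnSeries.mem_support] at h1 h2
    obtain ⟨s, hs⟩ := coeff_mul_alpha_supp m _ h1
    have p2 : p.2 = -(i : ℚ) / 3 ^ e - s := by
      rw [← h4, hs]; ring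
    rw [p2, hal] at h2
    have h5 : i + 3 ^ e * s ≤ J := by
      by_contra hc
      apply h2
      rw [hJ _ (not_le.mp hc)]
      exact hz
    have h6 : s ≤ 3 ^ e * s := Nat.le_mul_of_pos_left s (by positivity)
    rw [hS, Finset.mem_image]
    exact ⟨s, Finset.mem_range.mpr (by omega), Prod.ext hs.symm p2.symm⟩
  rw [Finset.sum_subset hsub]
  · rw [hS, Finset.sum_image]
    · refine Finset.sum_congr rfl fun s _ => ?_
      simp only
      rw [coeff_mul_alpha_embP, hal]
    · intro s _ t _ hst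
      have := congrArg Prod.fst hst
      simpa using this
  · intro p hp hp2
    by_contra hne
    apply hp2
    rw [Finset.mem_antidiagonal]
    rw [hS, Finset.mem_image] at hp
    obtain ⟨s, _, rfl⟩ := hp
    refine ⟨?_, ?_, ?_⟩
    · rw [HahnSeries.mem_support]
      exact left_ne_zero_of_mul hne
    · rw [HahnSeries.mem_support]
      exact right_ne_zero_of_mul hne
    · simp only
      ring

theorem coeff_mul_alpha_ne (F : ℕ →₀ K) (m : PowerSeries K) (l : Fin 3) (r : ℚ) (hr : r < 0)
    (h : ∀ e i : ℕ, 1 ≤ e → 1 ≤ i → ¬ 3 ∣ i → r ≠ -(i : ℚ) / 3 ^ e) :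
    (embP m * alpha F l).coeff r = 0 := by
  rw [HahnSeries.coeff_mul]
  apply Finset.sum_eq_zero
  rintro ⟨a, b⟩ hab
  rw [Finset.mem_addAntidiagonal] at hab
  obtain ⟨-, -, hsum⟩ := hab
  by_cases ha : (embP m).coeff a = 0
  · rw [ha, zero_mul]
  have hs : ∃ s : ℕ, a = (s : ℚ) := by
    by_contra hcon
    apply ha
    by_cases hn : ∃ n : ℤ, (n : ℚ) = a
    · obtain ⟨n, hn⟩ := hn
      have hneg : n < 0 := by
        by_contra h0
        push Not at h0
        apply hcon
        refine ⟨n.toNat, ?_⟩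
        rw [← hn]
        have := Int.toNat_of_nonneg h0
        exact_mod_cast this.symm
      rw [← hn]
      change (emb (m : LaurentSeries K)).coeff (n : ℚ) = 0
      rw [emb_coeff_int, PowerSeries.coeff_coe, if_pos hneg]
    · push Not at hn
      exact emb_coeff_ne _ a hn
  obtain ⟨s, hs⟩ := hs
  have hb : (alpha F l).coeff b = 0 := by
    apply alpha_coeff_ne
    intro e i he hi h3 hbe
    have hr2 : r = (s : ℚ) + b := by rw [← hsum, hs]
    have h3e : (0 : ℚ) < 3 ^ e := by positivity
    have hr3 : r * 3 ^ e = (3 : ℚ) ^ e * s - i := by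
      rw [hr2, hbe]
      field_simp
      ring
    have hlt : (3 : ℚ) ^ e * s < i := by
      have : r * 3 ^ e < 0 := mul_neg_of_neg_of_pos hr h3e
      linarith
    have hlt' : 3 ^ e * s < i := by exact_mod_cast hlt
    apply h e (i - 3 ^ e * s) he (by omega)
    · intro hd
      apply h3
      have h4 : 3 ∣ 3 ^ e * s := Dvd.dvd.mul_right (dvd_pow_self 3 (by omega)) s
      have h5 : i = (i - 3 ^ e * s) + 3 ^ e * s := by omega
      rw [h5]
      exact Dvd.dvd.add hd h4
    · rw [eq_div_iff h3e.ne', hr3]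
      push_cast [Nat.cast_sub hlt'.le]
      ring
  rw [hb, mul_zero]

/-- the coefficient of `α_l` in the `i`-th coordinate of `M(α) x` -/
noncomputable def mel (x : Fin 3 → PowerSeries K) (i l : Fin 3) : PowerSeries K :=
  ∑ k, PowerSeries.C (mat (Pi.single l 1) i k) * x k

theorem mat_linear (c : Fin 3 → K) : mat c = ∑ l, c l • mat (Pi.single l 1) := by
  rw [Fin.sum_univ_three]
  ext i j
  fin_cases i <;> fin_cases j <;> simp [mat, Pi.single_apply]

/-- the `i`-th coordinate of `M(α) x + y` in the torsor algebra -/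
noncomputable def lin (F : ℕ →₀ K) (x : Fin 3 → PowerSeries K) (y : Fin 3 → LaurentSeries K)
    (i : Fin 3) : AS (fser F) :=
  ∑ l, algebraMap (PowerSeries K) (AS (fser F)) (mel x i l) * gen (fser F) l +
    algebraMap (LaurentSeries K) (AS (fser F)) (y i)

theorem lin_add (F : ℕ →₀ K) (x x' : Fin 3 → PowerSeries K) (y y' : Fin 3 → LaurentSeries K)
    (i : Fin 3) : lin F (x + x') (y + y') i = lin F x y i + lin F x' y' i := by
  have hmel : ∀ l, mel (x + x') i l = mel x i l + mel x' i l := by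
    intro l
    unfold mel
    rw [← Finset.sum_add_distrib]
    refine Finset.sum_congr rfl (fun k _ => ?_)
    rw [Pi.add_apply, mul_add]
  unfold lin
  have h1 : ∑ l, algebraMap (PowerSeries K) (AS (fser F)) (mel (x + x') i l) * gen (fser F) l
      = ∑ l, algebraMap (PowerSeries K) (AS (fser F)) (mel x i l) * gen (fser F) l
        + ∑ l, algebraMap (PowerSeries K) (AS (fser F)) (mel x' i l) * gen (fser F) l := by
    rw [← Finset.sum_add_distrib]
    refine Finset.sum_congr rfl (fun l _ => ?_)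
    rw [hmel, map_add, add_mul]
  rw [h1, Pi.add_apply, map_add]
  abel

theorem lin_smul_mel (a : PowerSeries K) (x : Fin 3 → PowerSeries K) (i l : Fin 3) :
    mel (a • x) i l = a * mel x i l := by
  unfold mel
  rw [Finset.mul_sum]
  apply Finset.sum_congr rfl
  intro k _
  rw [Pi.smul_apply, smul_eq_mul]
  ring

theorem lin_smul_gen {R L A : Type*} [CommRing R] [CommRing L] [CommRing A] (φ : R →+* A)
    (ψ : L →+* A) (ι : R →+* L) (h : ∀ a, ψ (ι a) = φ a) (a : R) (m m' : Fin 3 → R)
    (hm : ∀ l, m' l = a * m l) (g : Fin 3 → A) (y : L) :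
    ∑ l, φ (m' l) * g l + ψ (ι a * y) = φ a * (∑ l, φ (m l) * g l + ψ y) := by
  rw [mul_add, map_mul, h, Finset.mul_sum]
  congr 1
  apply Finset.sum_congr rfl
  intro l _
  rw [hm, map_mul]
  ring

theorem lin_smul (F : ℕ →₀ K) (a : PowerSeries K) (x : Fin 3 → PowerSeries K)
    (y : Fin 3 → LaurentSeries K) (i : Fin 3) :
    lin F (a • x) (fun k => algebraMap (PowerSeries K) (LaurentSeries K) a * y k) i =
      algebraMap (PowerSeries K) (AS (fser F)) a * lin F x y i := by
  exact lin_smul_gen (algebraMap (PowerSeries K) (AS (fser F)))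
    (algebraMap (LaurentSeries K) (AS (fser F))) (algebraMap (PowerSeries K) (LaurentSeries K))
    (fun _ => rfl) a (mel x i) (mel (a • x) i) (fun l => lin_smul_mel a x i l)
    (gen (fser F)) (y i)

theorem lattice_iff_int (e i : ℕ) (he : 1 ≤ e) (h3 : ¬ 3 ∣ i) (n : ℤ) :
    (n : ℚ) ≠ -(i : ℚ) / 3 ^ e := by
  intro h
  have h1 : (n : ℚ) * 3 ^ e = -(i : ℚ) := by
    rw [h]
    field_simp
  have h2 : n * 3 ^ e = -(i : ℤ) := by exact_mod_cast h1
  apply h3
  have h4 : (3 : ℤ) ∣ (i : ℤ) := by
    rw [← dvd_neg, ← h2]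
    exact Dvd.dvd.mul_left (dvd_pow_self 3 (by omega)) n
  exact_mod_cast h4

theorem lattice_iff_key (F : ℕ →₀ K) (J : ℕ) (hJ : ∀ j, J < j → coef F j = 0)
    (x : Fin 3 → PowerSeries K) (y : LaurentSeries K) (i : Fin 3) (e i0 : ℕ) (he : 1 ≤ e)
    (hi : 1 ≤ i0) (h3 : ¬ 3 ∣ i0) :
    (∑ l, embP (mel x i l) * alpha F l + emb y).coeff (-(i0 : ℚ) / 3 ^ e) =
      (∑ s ∈ Finset.range (J + 1), (mat fun l => frobInv e (coef F (i0 + 3 ^ e * s) l)).mulVec
        (fun l => PowerSeries.coeff s (x l))) i := by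
  rw [HahnSeries.coeff_add, emb_coeff_ne y _ (lattice_iff_int e i0 he h3), add_zero,
    HahnSeries.coeff_sum, Finset.sum_apply]
  have h1 : ∀ l ∈ (Finset.univ : Finset (Fin 3)),
      (embP (mel x i l) * alpha F l).coeff (-(i0 : ℚ) / 3 ^ e) =
      ∑ s ∈ Finset.range (J + 1), ∑ k, mat (Pi.single l 1) i k * PowerSeries.coeff s (x k) *
        frobInv e (coef F (i0 + 3 ^ e * s) l) := by
    intro l _
    rw [coeff_mul_alpha F J hJ (mel x i l) l e i0 he hi h3]
    refine Finset.sum_congr rfl fun s _ => ?_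
    rw [← Finset.sum_mul]
    congr 1
    unfold mel
    rw [map_sum]
    refine Finset.sum_congr rfl fun k _ => ?_
    rw [PowerSeries.coeff_C_mul]
  rw [Finset.sum_congr rfl h1, Finset.sum_comm]
  refine Finset.sum_congr rfl fun s _ => ?_
  rw [Finset.sum_comm]
  show _ = ∑ k, mat (fun l => frobInv e (coef F (i0 + 3 ^ e * s) l)) i k *
    PowerSeries.coeff s (x k)
  refine Finset.sum_congr rfl fun k _ => ?_
  rw [mat_linear (fun l => frobInv e (coef F (i0 + 3 ^ e * s) l)), Matrix.sum_apply,
    Finset.sum_mul]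
  refine Finset.sum_congr rfl fun l _ => ?_
  rw [Matrix.smul_apply, smul_eq_mul]
  ring

theorem lattice_iff (F : ℕ →₀ K) (x : Fin 3 → PowerSeries K) :
    (fun s l => PowerSeries.coeff s (x l)) ∈ lattice F ↔
      ∃ y : Fin 3 → LaurentSeries K, ∀ i, IsIntegral (PowerSeries K) (lin F x y i) := by
  have hJ : ∀ j, F.support.sup id + 1 < j → coef F j = 0 := fun j hj =>
    coef_eq_zero_of_top F j (by omega)
  rw [mem_lattice_iff F (F.support.sup id + 1) hJ]
  constructor
  · intro h
    refine ⟨0, fun i => ?_⟩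
    unfold lin
    rw [integral_iff]
    intro r hr
    by_cases hex : ∃ e i0 : ℕ, 1 ≤ e ∧ 1 ≤ i0 ∧ ¬ 3 ∣ i0 ∧ r = -(i0 : ℚ) / 3 ^ e
    · obtain ⟨e, i0, he, hi, h3, rfl⟩ := hex
      rw [lattice_iff_key F _ hJ x _ i e i0 he hi h3, h e i0 he hi h3]
      rfl
    · rw [HahnSeries.coeff_add, HahnSeries.coeff_sum]
      have h0 : emb ((0 : Fin 3 → LaurentSeries K) i) = 0 := by
        rw [Pi.zero_apply, map_zero]
      rw [h0, HahnSeries.coeff_zero, add_zero]
      apply Finset.sum_eq_zero
      intro l _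
      apply coeff_mul_alpha_ne F _ l r hr
      intro e i0 he hi h3 hr'
      exact hex ⟨e, i0, he, hi, h3, hr'⟩
  · rintro ⟨y, hy⟩ e i0 he hi h3
    funext i
    have h1 := hy i
    unfold lin at h1
    rw [integral_iff] at h1
    have hr : -(i0 : ℚ) / 3 ^ e < 0 := by
      have h2 : (0 : ℚ) < i0 := by exact_mod_cast hi
      exact div_neg_of_neg_of_pos (by linarith) (by positivity)
    have h2 := h1 _ hr
    rw [lattice_iff_key F _ hJ x _ i e i0 he hi h3] at h2
    exact h2

/-- the projection of the tuning module -/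
noncomputable def Lam (F : ℕ →₀ K) : Submodule (PowerSeries K) (Fin 3 → PowerSeries K) where
  carrier := {x | ∃ y : Fin 3 → LaurentSeries K, ∀ i, IsIntegral (PowerSeries K) (lin F x y i)}
  zero_mem' := ⟨0, fun i => by
    have h : lin F 0 0 i = 0 := by simp [lin, mel]
    rw [h]
    exact isIntegral_zero⟩
  add_mem' := by
    rintro x x' ⟨y, hy⟩ ⟨y', hy'⟩
    refine ⟨y + y', fun i => ?_⟩
    rw [lin_add]
    exact (hy i).add (hy' i)
  smul_mem' := by
    rintro a x ⟨y, hy⟩
    refine ⟨fun k => algebraMap (PowerSeries K) (LaurentSeries K) a * y k, fun i => ?_⟩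
    rw [lin_smul]
    exact isIntegral_algebraMap.mul (hy i)

theorem length_eq_finrank_simple (k : Type) [Field k] (S : Type) [AddCommGroup S]
    [Module (PowerSeries k) S] [Module k S] [IsScalarTower k (PowerSeries k) S]
    [IsSimpleModule (PowerSeries k) S] : Module.finrank k S = 1 := by
  have : Nontrivial S := IsSimpleModule.nontrivial (PowerSeries k) S
  have hX : ∀ s : S, (PowerSeries.X : PowerSeries k) • s = 0 := by
    intro s
    by_contra h
    obtain ⟨f, hf⟩ := IsSimpleModule.toSpanSingleton_surjective (PowerSeries k) h s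
    rw [LinearMap.toSpanSingleton_apply, smul_smul] at hf
    have h1 : (1 - f * PowerSeries.X : PowerSeries k) • s = 0 := by
      rw [sub_smul, one_smul, hf, sub_self]
    have h2 : IsUnit (1 - f * PowerSeries.X : PowerSeries k) := by
      rw [PowerSeries.isUnit_iff_constantCoeff]
      simp
    have h3 : s = 0 := (h2.smul_eq_zero).1 h1
    exact h (by rw [h3, smul_zero])
  obtain ⟨s0, hs0⟩ := exists_ne (0 : S)
  refine finrank_eq_one s0 hs0 ?_
  intro w
  obtain ⟨f, hf⟩ := IsSimpleModule.toSpanSingleton_surjective (PowerSeries k) hs0 w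
  rw [LinearMap.toSpanSingleton_apply] at hf
  refine ⟨PowerSeries.constantCoeff f, ?_⟩
  rw [← hf]
  have h1 : ∃ g : PowerSeries k, f = PowerSeries.X * g + PowerSeries.C (PowerSeries.constantCoeff f) :=
    ⟨_, PowerSeries.eq_X_mul_shift_add_const f⟩
  obtain ⟨g, hg⟩ := h1
  conv_rhs => rw [hg]
  rw [add_smul, mul_comm, mul_smul, hX, smul_zero, zero_add]
  have h2 : (PowerSeries.C (PowerSeries.constantCoeff f) : PowerSeries k)
      = (PowerSeries.constantCoeff f) • (1 : PowerSeries k) := by
    rw [Algebra.smul_def, mul_one]; rfl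
  rw [h2, smul_assoc, one_smul]

theorem length_eq_finrank_aux (k : Type) [Field k] (n : ℕ) : ∀ (M : Type) [AddCommGroup M]
    [Module (PowerSeries k) M] [Module k M] [IsScalarTower k (PowerSeries k) M]
    [FiniteDimensional k M], Module.finrank k M = n →
    Module.length (PowerSeries k) M = (n : ℕ∞) := by
  induction n with
  | zero =>
    intro M _ _ _ _ _ h
    have : Subsingleton M := Module.finrank_zero_iff.1 h
    simp
  | succ n ih =>
    intro M _ _ _ _ _ h
    have hnt : Nontrivial M := Module.nontrivial_of_finrank_pos (R := k) (by omega)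
    have hfin : Module.Finite (PowerSeries k) M := Module.Finite.of_restrictScalars_finite k _ M
    obtain ⟨N, hN⟩ := IsCoatomic.exists_coatom (Submodule (PowerSeries k) M)
    have hS : IsSimpleModule (PowerSeries k) (M ⧸ N) := isSimpleModule_iff_isCoatom.2 hN
    have hS1 : Module.finrank k (M ⧸ N) = 1 := length_eq_finrank_simple k (M ⧸ N)
    have hfd : FiniteDimensional k ↥N :=
      (inferInstance : FiniteDimensional k ↥(N.restrictScalars k))
    have hsum : Module.finrank k (M ⧸ N) + Module.finrank k ↥N = Module.finrank k M :=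
      Submodule.finrank_quotient_add_finrank (N.restrictScalars k)
    have hNn : Module.finrank k ↥N = n := by omega
    have h1 := ih ↥N hNn
    have h2 : Module.length (PowerSeries k) M
        = Module.length (PowerSeries k) ↥N + Module.length (PowerSeries k) (M ⧸ N) :=
      Module.length_eq_add_of_exact N.subtype N.mkQ N.subtype_injective N.mkQ_surjective
        (LinearMap.exact_subtype_mkQ N)
    rw [h2, h1, Module.length_eq_one]
    push_cast
    rfl

theorem length_eq_finrank (M : Type) [AddCommGroup M] [Module (PowerSeries K) M] [Module K M]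
    [IsScalarTower K (PowerSeries K) M] [FiniteDimensional K M] :
    Module.length (PowerSeries K) M = Module.finrank K M :=
  length_eq_finrank_aux K (Module.finrank K M) M rfl

/-- coefficients of power series -/
noncomputable def length_Lam_e : (Fin 3 → PowerSeries K) ≃ₗ[K] (ℕ → Fin 3 → K) where
  toFun x := fun s l => PowerSeries.coeff s (x l)
  invFun z := fun l => PowerSeries.mk fun s => z s l
  map_add' x y := by
    funext s l
    simp
  map_smul' a x := by
    funext s l
    simp [PowerSeries.coeff_smul]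
  left_inv x := by
    funext l
    ext s
    simp
  right_inv z := by
    funext s l
    simp

theorem length_Lam (F : ℕ →₀ K) :
    Module.length (PowerSeries K) ((Fin 3 → PowerSeries K) ⧸ Lam F) = (vfun F : ℕ∞) := by
  have hmap : ((Lam F).restrictScalars K).map (length_Lam_e : (Fin 3 → PowerSeries K) →ₗ[K] (ℕ → Fin 3 → K)) = lattice F := by
    ext z
    simp only [Submodule.mem_map, Submodule.restrictScalars_mem]
    constructor
    · rintro ⟨x, hx, rfl⟩
      exact (lattice_iff F x).2 hx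
    · intro hz
      refine ⟨length_Lam_e.symm z, ?_, by simp⟩
      refine (lattice_iff F _).1 ?_
      have : (fun s l => PowerSeries.coeff s ((length_Lam_e.symm z) l)) = z := length_Lam_e.apply_symm_apply z
      rw [this]
      exact hz
  have e1 : ((Fin 3 → PowerSeries K) ⧸ (Lam F).restrictScalars K) ≃ₗ[K] ((ℕ → Fin 3 → K) ⧸ lattice F) :=
    Submodule.Quotient.equiv _ _ length_Lam_e hmap
  have e2 : ((Fin 3 → PowerSeries K) ⧸ (Lam F).restrictScalars K) ≃ₗ[K] ((Fin 3 → PowerSeries K) ⧸ Lam F) :=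
    Submodule.Quotient.restrictScalarsEquiv K (Lam F)
  have e3 := e2.symm.trans e1
  have := finiteDim F
  have : FiniteDimensional K ((Fin 3 → PowerSeries K) ⧸ Lam F) := e3.symm.finiteDimensional
  rw [length_eq_finrank, vfun, e3.finrank_eq]

end Pool.Agent.Helper449.MST
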