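import Pool.Agent.Helper449.MST.H

/-! # the torsor algebra -/

namespace Pool.Agent.Helper449.MST

open MvPolynomial

/-- `sigma` as a homomorphism -/
noncomputable def sigmaHom {E : Type} [CommRing E] [CharP E 3] (f : Fin 3 → E)
    (g : Fin 3 → ZMod 3) : AS f →+* AS f :=
  Ideal.Quotient.lift (asIdeal f) (sigmaPoly f g) (sigmaPoly_eq_zero f g)

theorem sigma_eq {E : Type} [CommRing E] [CharP E 3] (f : Fin 3 → E)
    (g : Fin 3 → ZMod 3) (u : AS f) : sigma f g u = sigmaHom f g u := by
  rfl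

theorem sigma_gen {E : Type} [CommRing E] [CharP E 3] (f : Fin 3 → E)
    (g : Fin 3 → ZMod 3) (l : Fin 3) : sigmaHom f g (gen f l) = gen f l + ((g l).val : AS f) := by
  have h1 : sigmaHom f g (gen f l) = sigmaPoly f g (X l) := by
    unfold sigmaHom gen
    exact Ideal.Quotient.lift_mk _ _ _
  rw [h1]
  unfold sigmaPoly
  exact eval₂Hom_X' _ _ _

theorem sigma_algebraMap {E : Type} [CommRing E] [CharP E 3] (f : Fin 3 → E)
    (g : Fin 3 → ZMod 3) (y : E) :
    sigmaHom f g (algebraMap E (AS f) y) = algebraMap E (AS f) y := by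
  have h1 : (algebraMap E (AS f) y : AS f) = Ideal.Quotient.mk (asIdeal f) (MvPolynomial.C y) := rfl
  rw [h1]
  unfold sigmaHom
  rw [Ideal.Quotient.lift_mk]
  show MvPolynomial.eval₂Hom (algebraMap E (AS f)) (fun l => gen f l + ((g l).val : AS f)) (MvPolynomial.C y) = _
  rw [MvPolynomial.eval₂Hom_C]
  rfl

theorem shift_inv_one {Ω : Type} [Field Ω] [CharP Ω 3] (β : Ω) :
    ∃ w : Fin 3 → ZMod 3 → Ω, ∀ a a' : Fin 3,
      ∑ c : ZMod 3, w a c * (β + ((c.val : ℕ) : Ω)) ^ (a' : ℕ) = if a = a' then 1 else 0 := by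
  have h3 : (3 : Ω) = 0 := by
    have := CharP.cast_eq_zero Ω 3
    exact_mod_cast this
  refine ⟨fun a c => (![![-((β + 1) * (β + 2)), -(β * (β + 2)), -(β * (β + 1))],
    ![(β + 1) + (β + 2), β + (β + 2), β + (β + 1)], ![-1, -1, -1]] : Fin 3 → Fin 3 → Ω) a c, ?_⟩
  intro a a'
  have hs : ∀ f : ZMod 3 → Ω, ∑ c : ZMod 3, f c = f (show ZMod 3 from (0 : Fin 3)) + f (show ZMod 3 from (1 : Fin 3)) + f (show ZMod 3 from (2 : Fin 3)) := by
    intro f
    exact Fin.sum_univ_three (f : Fin 3 → Ω)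
  rw [hs]
  have v0 : ((ZMod.val (n := 3) (0 : Fin 3) : ℕ) : Ω) = 0 := by
    show ((0 : ℕ) : Ω) = 0
    simp
  have v1 : ((ZMod.val (n := 3) (1 : Fin 3) : ℕ) : Ω) = 1 := by
    show ((1 : ℕ) : Ω) = 1
    simp
  have v2 : ((ZMod.val (n := 3) (2 : Fin 3) : ℕ) : Ω) = 2 := by
    show ((2 : ℕ) : Ω) = 2
    simp
  rw [v0, v1, v2]
  fin_cases a <;> fin_cases a'
  · simp
    linear_combination (-β ^ 2 - 2 * β - 1) * h3
  · simp
    linear_combination (-(β * (β + 1) * (β + 2))) * h3
  · simp
    linear_combination (-(β * (β + 1) * (β + 2)) * (β + 1)) * h3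
  · simp
    linear_combination (2 * β + 2) * h3
  · simp
    linear_combination (2 * β ^ 2 + 4 * β + 1) * h3
  · simp
    linear_combination ((β + 1) * (3 * β ^ 2 + 6 * β + 5) - (β ^ 3 + 3 * β ^ 2 + 5 * β + 3)) * h3
  · simp
    linear_combination (-1 : Ω) * h3
  · simp
    linear_combination (-β - 1) * h3
  · simp
    linear_combination (-β ^ 2 - 2 * β - 2) * h3

theorem shift_inv {Ω : Type} [Field Ω] [CharP Ω 3] (α : Fin 3 → Ω) :
    ∃ W : (Fin 3 → Fin 3) → (Fin 3 → ZMod 3) → Ω, ∀ a a' : Fin 3 → Fin 3,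
      ∑ g : Fin 3 → ZMod 3, W a g * ∏ l, (α l + ((g l).val : Ω)) ^ (a' l : ℕ) =
        if a = a' then 1 else 0 := by
  choose w hw using fun l : Fin 3 => shift_inv_one (α l)
  refine ⟨fun a g => ∏ l, w l (a l) (g l), fun a a' => ?_⟩
  have h1 : ∀ g : Fin 3 → ZMod 3, (∏ l, w l (a l) (g l)) * ∏ l, (α l + ((g l).val : Ω)) ^ (a' l : ℕ)
      = ∏ l, (w l (a l) (g l) * (α l + ((g l).val : Ω)) ^ (a' l : ℕ)) := by
    intro g
    rw [Finset.prod_mul_distrib]
  rw [Finset.sum_congr rfl fun g _ => h1 g]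
  have h2 := Finset.prod_univ_sum (fun _ : Fin 3 => (Finset.univ : Finset (ZMod 3)))
    (fun l c => w l (a l) c * (α l + ((c).val : Ω)) ^ (a' l : ℕ))
  rw [Fintype.piFinset_univ] at h2
  rw [← h2, Finset.prod_congr rfl fun l _ => hw l (a l) (a' l)]
  by_cases h : a = a'
  · subst h
    simp
  · rw [if_neg h]
    obtain ⟨l, hl⟩ : ∃ l, a l ≠ a' l := by
      by_contra hcon
      push Not at hcon
      exact h (funext hcon)
    exact Finset.prod_eq_zero (Finset.mem_univ l) (if_neg hl)

private theorem as_basis_smul {E : Type} [Field E] (f : Fin 3 → E) (c : E) (x : AS f) :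
    c • x = algebraMap E (AS f) c * x := by
  obtain ⟨P, rfl⟩ := Ideal.Quotient.mk_surjective x
  have : (Ideal.Quotient.mk (asIdeal f)) (c • P) = algebraMap E (AS f) c * Ideal.Quotient.mk (asIdeal f) P := by
    rw [MvPolynomial.smul_eq_C_mul, map_mul]
    rfl
  exact this

private theorem as_basis_red {E : Type} [Field E] (f : Fin 3 → E) (l : Fin 3) (i : ℕ) :
    gen f l ^ (i + 3) = gen f l ^ (i + 1) + f l • gen f l ^ i := by
  have h := gen_pow f l
  rw [as_basis_smul, ← h]
  ring

private theorem as_basis_mem {E : Type} [Field E] (f : Fin 3 → E) (W : Submodule E (AS f))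
    (hW : ∀ i j k : ℕ, i < 3 → j < 3 → k < 3 → gen f 0 ^ i * gen f 1 ^ j * gen f 2 ^ k ∈ W) :
    ∀ s i j k : ℕ, i + j + k = s → gen f 0 ^ i * gen f 1 ^ j * gen f 2 ^ k ∈ W := by
  have hred := as_basis_red f
  have hsm : ∀ (c : E) (x : AS f), x ∈ W → algebraMap E (AS f) c * x ∈ W := by
    intro c x hx
    rw [← as_basis_smul]
    exact W.smul_mem c hx
  intro s
  induction s using Nat.strong_induction_on with
  | _ s ih =>
    intro i j k hs
    by_cases hi : i < 3
    · by_cases hj : j < 3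
      · by_cases hk : k < 3
        · exact hW i j k hi hj hk
        · obtain ⟨k', rfl⟩ : ∃ k', k = k' + 3 := ⟨k - 3, by omega⟩
          have : gen f 0 ^ i * gen f 1 ^ j * gen f 2 ^ (k' + 3) =
              gen f 0 ^ i * gen f 1 ^ j * gen f 2 ^ (k' + 1) +
              algebraMap E (AS f) (f 2) * (gen f 0 ^ i * gen f 1 ^ j * gen f 2 ^ k') := by
            rw [hred, as_basis_smul]; ring
          rw [this]
          exact W.add_mem (ih _ (by omega) i j (k' + 1) rfl)
            (hsm _ _ (ih _ (by omega) i j k' rfl))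
      · obtain ⟨j', rfl⟩ : ∃ j', j = j' + 3 := ⟨j - 3, by omega⟩
        have : gen f 0 ^ i * gen f 1 ^ (j' + 3) * gen f 2 ^ k =
              gen f 0 ^ i * gen f 1 ^ (j' + 1) * gen f 2 ^ k +
              algebraMap E (AS f) (f 1) * (gen f 0 ^ i * gen f 1 ^ j' * gen f 2 ^ k) := by
            rw [hred, as_basis_smul]; ring
        rw [this]
        exact W.add_mem (ih _ (by omega) i (j' + 1) k rfl)
          (hsm _ _ (ih _ (by omega) i j' k rfl))
    · obtain ⟨i', rfl⟩ : ∃ i', i = i' + 3 := ⟨i - 3, by omega⟩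
      have : gen f 0 ^ (i' + 3) * gen f 1 ^ j * gen f 2 ^ k =
              gen f 0 ^ (i' + 1) * gen f 1 ^ j * gen f 2 ^ k +
              algebraMap E (AS f) (f 0) * (gen f 0 ^ i' * gen f 1 ^ j * gen f 2 ^ k) := by
            rw [hred, as_basis_smul]; ring
      rw [this]
      exact W.add_mem (ih _ (by omega) (i' + 1) j k rfl)
        (hsm _ _ (ih _ (by omega) i' j k rfl))

private theorem as_basis_span {E : Type} [Field E] (f : Fin 3 → E) :
    ⊤ ≤ Submodule.span E (Set.range fun a : Fin 3 → Fin 3 => ∏ l, gen f l ^ (a l : ℕ)) := by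
  have hall := as_basis_mem f
    (Submodule.span E (Set.range fun a : Fin 3 → Fin 3 => ∏ l, gen f l ^ (a l : ℕ))) (by
    intro i j k hi hj hk
    apply Submodule.subset_span
    refine ⟨![⟨i, hi⟩, ⟨j, hj⟩, ⟨k, hk⟩], ?_⟩
    simp [Fin.prod_univ_three])
  have key : ∀ P : MvPolynomial (Fin 3) E, Ideal.Quotient.mk (asIdeal f) P ∈
      Submodule.span E (Set.range fun a : Fin 3 → Fin 3 => ∏ l, gen f l ^ (a l : ℕ)) := by
    intro P
    induction P using MvPolynomial.induction_on' with
    | monomial u c =>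
      have : (Ideal.Quotient.mk (asIdeal f)) (monomial u c) =
          c • (gen f 0 ^ (u 0) * gen f 1 ^ (u 1) * gen f 2 ^ (u 2)) := by
        rw [monomial_eq, Finsupp.prod_fintype _ _ (fun i => pow_zero _), Fin.prod_univ_three,
          map_mul, map_mul, map_mul, map_pow, map_pow, map_pow, as_basis_smul]
        rfl
      rw [this]
      exact Submodule.smul_mem _ _ (hall _ _ _ _ rfl)
    | add p q hp hq =>
      rw [map_add]
      exact Submodule.add_mem _ hp hq
  intro x _
  obtain ⟨P, rfl⟩ := Ideal.Quotient.mk_surjective x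
  exact key P

open scoped TensorProduct in
private theorem as_basis_indep {E : Type} [Field E] (f : Fin 3 → E) :
    LinearIndependent E (fun a : Fin 3 → Fin 3 => ∏ l, gen f l ^ (a l : ℕ)) := by
  let g : Fin 3 → Polynomial E := fun l => Polynomial.X ^ 3 - (Polynomial.X + Polynomial.C (f l))
  have hgd : ∀ l, g l = Polynomial.X ^ 3 - (Polynomial.X + Polynomial.C (f l)) := fun l => rfl
  have hg : ∀ l, (g l).Monic := by
    intro l
    rw [hgd]
    apply Polynomial.monic_X_pow_sub
    rw [Polynomial.degree_X_add_C]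
    norm_num
  have hnd : ∀ l, (g l).natDegree = 3 := by
    intro l
    rw [hgd]
    rw [Polynomial.natDegree_sub_eq_left_of_natDegree_lt]
    · simp
    · rw [Polynomial.natDegree_X_add_C, Polynomial.natDegree_X_pow]; norm_num
  have hroot : ∀ l, AdjoinRoot.root (g l) ^ 3 - AdjoinRoot.root (g l) -
      algebraMap E (AdjoinRoot (g l)) (f l) = 0 := by
    intro l
    have h : Polynomial.eval₂ (AdjoinRoot.of (g l)) (AdjoinRoot.root (g l))
        (Polynomial.X ^ 3 - (Polynomial.X + Polynomial.C (f l))) = 0 := AdjoinRoot.eval₂_root (g l)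
    rw [Polynomial.eval₂_sub, Polynomial.eval₂_add, Polynomial.eval₂_X_pow, Polynomial.eval₂_X,
        Polynomial.eval₂_C, ← sub_sub] at h
    exact h
  clear_value g
  let b : ∀ l, Module.Basis (Fin 3) E (AdjoinRoot (g l)) := fun l =>
    (AdjoinRoot.powerBasis' (hg l)).basis.reindex (finCongr (hnd l))
  have hb : ∀ l (i : Fin 3), b l i = AdjoinRoot.root (g l) ^ (i : ℕ) := by
    intro l i
    show (AdjoinRoot.powerBasis' (hg l)).basis.reindex (finCongr (hnd l)) i = _
    rw [Module.Basis.reindex_apply, PowerBasis.basis_eq_pow]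
    rfl
  clear_value b
  let x0 : TensorProduct E (AdjoinRoot (g 0)) (TensorProduct E (AdjoinRoot (g 1)) (AdjoinRoot (g 2))) :=
    AdjoinRoot.root (g 0) ⊗ₜ[E] (1 ⊗ₜ[E] 1)
  let x1 : TensorProduct E (AdjoinRoot (g 0)) (TensorProduct E (AdjoinRoot (g 1)) (AdjoinRoot (g 2))) :=
    1 ⊗ₜ[E] (AdjoinRoot.root (g 1) ⊗ₜ[E] 1)
  let x2 : TensorProduct E (AdjoinRoot (g 0)) (TensorProduct E (AdjoinRoot (g 1)) (AdjoinRoot (g 2))) :=
    1 ⊗ₜ[E] (1 ⊗ₜ[E] AdjoinRoot.root (g 2))
  let x : Fin 3 → TensorProduct E (AdjoinRoot (g 0)) (TensorProduct E (AdjoinRoot (g 1)) (AdjoinRoot (g 2))) :=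
    ![x0, x1, x2]
  have hx0 : x0 ^ 3 - x0 - algebraMap E _ (f 0) = 0 := by
    have h := hroot 0
    have h2 : x0 ^ 3 - x0 - algebraMap E _ (f 0) =
      (AdjoinRoot.root (g 0) ^ 3 - AdjoinRoot.root (g 0) -
      algebraMap E (AdjoinRoot (g 0)) (f 0)) ⊗ₜ[E] (1 ⊗ₜ[E] 1) := by
      rw [TensorProduct.sub_tmul, TensorProduct.sub_tmul]
      congr 1
      · congr 1
        show (AdjoinRoot.root (g 0) ⊗ₜ[E] (1 ⊗ₜ[E] 1)) ^ 3 = _
        rw [Algebra.TensorProduct.tmul_pow, Algebra.TensorProduct.tmul_pow, one_pow, one_pow]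
    rw [h2, h, TensorProduct.zero_tmul]
  have hx1 : x1 ^ 3 - x1 - algebraMap E _ (f 1) = 0 := by
    have h := hroot 1
    have h2 : x1 ^ 3 - x1 - algebraMap E _ (f 1) =
      1 ⊗ₜ[E] ((AdjoinRoot.root (g 1) ^ 3 - AdjoinRoot.root (g 1) -
      algebraMap E (AdjoinRoot (g 1)) (f 1)) ⊗ₜ[E] 1) := by
      rw [TensorProduct.sub_tmul, TensorProduct.sub_tmul, TensorProduct.tmul_sub, TensorProduct.tmul_sub]
      congr 1
      · congr 1
        show (1 ⊗ₜ[E] (AdjoinRoot.root (g 1) ⊗ₜ[E] 1)) ^ 3 = _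
        rw [Algebra.TensorProduct.tmul_pow, Algebra.TensorProduct.tmul_pow, one_pow, one_pow]
      · rw [Algebra.algebraMap_eq_smul_one, Algebra.algebraMap_eq_smul_one, ← TensorProduct.smul_tmul', TensorProduct.tmul_smul]
        rfl
    rw [h2, h, TensorProduct.zero_tmul, TensorProduct.tmul_zero]
  have hx2 : x2 ^ 3 - x2 - algebraMap E _ (f 2) = 0 := by
    have h := hroot 2
    have h2 : x2 ^ 3 - x2 - algebraMap E _ (f 2) =
      1 ⊗ₜ[E] (1 ⊗ₜ[E] (AdjoinRoot.root (g 2) ^ 3 - AdjoinRoot.root (g 2) -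
      algebraMap E (AdjoinRoot (g 2)) (f 2))) := by
      rw [TensorProduct.tmul_sub, TensorProduct.tmul_sub, TensorProduct.tmul_sub, TensorProduct.tmul_sub]
      congr 1
      · congr 1
        show (1 ⊗ₜ[E] (1 ⊗ₜ[E] AdjoinRoot.root (g 2))) ^ 3 = _
        rw [Algebra.TensorProduct.tmul_pow, Algebra.TensorProduct.tmul_pow, one_pow, one_pow]
      · rw [Algebra.algebraMap_eq_smul_one, Algebra.algebraMap_eq_smul_one, TensorProduct.tmul_smul, TensorProduct.tmul_smul]
        rfl
    rw [h2, h, TensorProduct.tmul_zero, TensorProduct.tmul_zero]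
  have hle : ∀ P ∈ asIdeal f, aeval x P = 0 := by
    have : asIdeal f ≤ RingHom.ker (aeval (R := E) x).toRingHom := by
      refine Ideal.span_le.2 ?_
      rintro _ ⟨l, rfl⟩
      simp only [SetLike.mem_coe, RingHom.mem_ker, AlgHom.toRingHom_eq_coe, RingHom.coe_coe,
        map_sub, map_pow, aeval_X, algHom_C]
      fin_cases l
      · exact hx0
      · exact hx1
      · exact hx2
    intro P hP
    exact this hP
  obtain ⟨φ, hφ⟩ : ∃ φ : AS f →ₐ[E] TensorProduct E (AdjoinRoot (g 0)) (TensorProduct E (AdjoinRoot (g 1)) (AdjoinRoot (g 2))),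
      ∀ l, φ (gen f l) = x l := by
    refine ⟨Ideal.Quotient.liftₐ (asIdeal f) (aeval (R := E) x) hle, ?_⟩
    intro l
    show aeval x (X l) = x l
    rw [aeval_X]
  have hB := ((b 0).tensorProduct ((b 1).tensorProduct (b 2))).linearIndependent
  have hcomp := hB.comp (fun a : Fin 3 → Fin 3 => (a 0, (a 1, a 2))) (by
    intro a a' h
    simp only [Prod.mk.injEq] at h
    funext l
    fin_cases l
    · exact h.1
    · exact h.2.1
    · exact h.2.2)
  have e0 : ∀ n : ℕ, x0 ^ n = (AdjoinRoot.root (g 0) ^ n) ⊗ₜ[E] (1 ⊗ₜ[E] 1) := by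
    intro n
    show (AdjoinRoot.root (g 0) ⊗ₜ[E] ((1 : AdjoinRoot (g 1)) ⊗ₜ[E] (1 : AdjoinRoot (g 2)))) ^ n = _
    rw [Algebra.TensorProduct.tmul_pow, Algebra.TensorProduct.tmul_pow, one_pow, one_pow]
  have e1 : ∀ n : ℕ, x1 ^ n = 1 ⊗ₜ[E] ((AdjoinRoot.root (g 1) ^ n) ⊗ₜ[E] 1) := by
    intro n
    show ((1 : AdjoinRoot (g 0)) ⊗ₜ[E] (AdjoinRoot.root (g 1) ⊗ₜ[E] (1 : AdjoinRoot (g 2)))) ^ n = _
    rw [Algebra.TensorProduct.tmul_pow, Algebra.TensorProduct.tmul_pow, one_pow, one_pow]
  have e2 : ∀ n : ℕ, x2 ^ n = 1 ⊗ₜ[E] (1 ⊗ₜ[E] (AdjoinRoot.root (g 2) ^ n)) := by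
    intro n
    show ((1 : AdjoinRoot (g 0)) ⊗ₜ[E] ((1 : AdjoinRoot (g 1)) ⊗ₜ[E] AdjoinRoot.root (g 2))) ^ n = _
    rw [Algebra.TensorProduct.tmul_pow, Algebra.TensorProduct.tmul_pow, one_pow, one_pow]
  have hfun : (⇑φ.toLinearMap ∘ fun a : Fin 3 → Fin 3 => ∏ l, gen f l ^ (a l : ℕ)) =
      (⇑((b 0).tensorProduct ((b 1).tensorProduct (b 2))) ∘ fun a : Fin 3 → Fin 3 => (a 0, a 1, a 2)) := by
    funext a
    have h1 : φ (∏ l, gen f l ^ (a l : ℕ)) = x0 ^ (a 0 : ℕ) * x1 ^ (a 1 : ℕ) * x2 ^ (a 2 : ℕ) := by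
      rw [Fin.prod_univ_three, map_mul, map_mul, map_pow, map_pow, map_pow, hφ, hφ, hφ]
      rfl
    have h2 : x0 ^ (a 0 : ℕ) * x1 ^ (a 1 : ℕ) * x2 ^ (a 2 : ℕ) =
        (AdjoinRoot.root (g 0) ^ (a 0 : ℕ)) ⊗ₜ[E] ((AdjoinRoot.root (g 1) ^ (a 1 : ℕ)) ⊗ₜ[E]
          (AdjoinRoot.root (g 2) ^ (a 2 : ℕ))) := by
      rw [e0, e1, e2]
      simp only [Algebra.TensorProduct.tmul_mul_tmul, one_mul, mul_one]
    have h3 : ((b 0).tensorProduct ((b 1).tensorProduct (b 2))) (a 0, (a 1, a 2)) =
        (AdjoinRoot.root (g 0) ^ (a 0 : ℕ)) ⊗ₜ[E] ((AdjoinRoot.root (g 1) ^ (a 1 : ℕ)) ⊗ₜ[E]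
          (AdjoinRoot.root (g 2) ^ (a 2 : ℕ))) := by
      rw [Module.Basis.tensorProduct_apply, Module.Basis.tensorProduct_apply, hb, hb, hb]
    show φ (∏ l, gen f l ^ (a l : ℕ)) = ((b 0).tensorProduct ((b 1).tensorProduct (b 2))) (a 0, (a 1, a 2))
    rw [h1, h2, h3]
  apply LinearIndependent.of_comp φ.toLinearMap
  rw [hfun]
  exact hcomp


theorem as_basis {E : Type} [Field E] (f : Fin 3 → E) :
    ∃ b : Module.Basis (Fin 3 → Fin 3) E (AS f), ∀ a, b a = ∏ l, gen f l ^ (a l : ℕ) := by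
  refine ⟨Module.Basis.mk (as_basis_indep f) (as_basis_span f), ?_⟩
  intro a
  rw [Module.Basis.mk_apply]

theorem invariants_binom {R : Type} [CommRing R] (x : R) (n : Fin 3) :
    (x + 1) ^ (n : ℕ) = ∑ t : Fin 3, (((n : ℕ).choose (t : ℕ) : ℕ) : R) * x ^ (t : ℕ) := by
  rw [Fin.sum_univ_three]
  fin_cases n
  · simp
  · simp [add_comm]
  · simp
    ring

theorem invariants_step {E : Type} [Field E] [CharP E 3] (f : Fin 3 → E)
    (b : Module.Basis (Fin 3 → Fin 3) E (AS f)) (hb : ∀ a, b a = ∏ l, gen f l ^ (a l : ℕ))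
    (l : Fin 3) (a : Fin 3 → Fin 3) :
    sigmaHom f (Pi.single l 1) (b a) =
      ∑ t : Fin 3, (((a l : ℕ).choose (t : ℕ) : ℕ) : E) • b (Function.update a l t) := by
  have h1 : ∀ j ∈ Finset.univ.erase l, sigmaHom f (Pi.single l 1) (gen f j ^ (a j : ℕ)) =
      gen f j ^ (a j : ℕ) := by
    intro j hj
    have hne : j ≠ l := (Finset.mem_erase.1 hj).1
    rw [map_pow, sigma_gen, Pi.single_eq_of_ne hne, ZMod.val_zero, Nat.cast_zero, add_zero]
  have h2 : sigmaHom f (Pi.single l 1) (gen f l ^ (a l : ℕ)) = (gen f l + 1) ^ (a l : ℕ) := by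
    rw [map_pow, sigma_gen, Pi.single_eq_same]
    have : (1 : ZMod 3).val = 1 := rfl
    rw [this, Nat.cast_one]
  have h3 : ∀ t : Fin 3, b (Function.update a l t) =
      gen f l ^ (t : ℕ) * ∏ j ∈ Finset.univ.erase l, gen f j ^ (a j : ℕ) := by
    intro t
    rw [hb, ← Finset.mul_prod_erase Finset.univ _ (Finset.mem_univ l), Function.update_self]
    congr 1
    apply Finset.prod_congr rfl
    intro j hj
    rw [Function.update_of_ne (Finset.mem_erase.1 hj).1]
  rw [hb, map_prod, ← Finset.mul_prod_erase Finset.univ _ (Finset.mem_univ l), h2,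
    Finset.prod_congr rfl h1, invariants_binom, Finset.sum_mul]
  apply Finset.sum_congr rfl
  intro t _
  rw [h3]
  refine Eq.trans ?_ (Algebra.smul_def (((a l : ℕ).choose (t : ℕ) : ℕ) : E)
    (gen f l ^ (t : ℕ) * ∏ j ∈ Finset.univ.erase l, gen f j ^ (a j : ℕ))).symm
  rw [map_natCast, mul_assoc]

theorem invariants_comb (l : Fin 3) (a a' : Fin 3 → Fin 3) {E : Type} [Field E] :
    (∑ t : Fin 3, (((a' l : ℕ).choose (t : ℕ) : ℕ) : E) * (if Function.update a' l t = a then 1 else 0)) =
      ∑ s : Fin 3, if Function.update a l s = a' then (((s : ℕ).choose (a l : ℕ) : ℕ) : E) else 0 := by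
  rw [Finset.sum_eq_single (a l), Finset.sum_eq_single (a' l)]
  · have hiff : Function.update a' l (a l) = a ↔ Function.update a l (a' l) = a' := by
      constructor
      · intro h
        rw [← h, Function.update_idem, Function.update_eq_self]
      · intro h
        rw [← h, Function.update_idem, Function.update_eq_self]
    by_cases h : Function.update a' l (a l) = a
    · rw [if_pos h, if_pos (hiff.1 h), mul_one]
    · rw [if_neg h, if_neg (fun h' => h (hiff.2 h')), mul_zero]
  · intro s _ hs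
    rw [if_neg]
    intro h
    apply hs
    have := congrFun h l
    rwa [Function.update_self] at this
  · intro h
    exact absurd (Finset.mem_univ _) h
  · intro t _ ht
    rw [if_neg, mul_zero]
    intro h
    apply ht
    have := congrFun h l
    rwa [Function.update_self] at this
  · intro h
    exact absurd (Finset.mem_univ _) h

theorem invariants_T {E : Type} [Field E] [CharP E 3] (f : Fin 3 → E)
    (b : Module.Basis (Fin 3 → Fin 3) E (AS f)) (hb : ∀ a, b a = ∏ l, gen f l ^ (a l : ℕ))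
    (l : Fin 3) (u : AS f) (a : Fin 3 → Fin 3) :
    b.repr (sigmaHom f (Pi.single l 1) u) a =
      ∑ s : Fin 3, b.repr u (Function.update a l s) * (((s : ℕ).choose (a l : ℕ) : ℕ) : E) := by
  have hsm : ∀ (c : E) (x : AS f), sigmaHom f (Pi.single l 1) (c • x) = c • sigmaHom f (Pi.single l 1) x := by
    intro c x
    calc sigmaHom f (Pi.single l 1) (c • x)
        = sigmaHom f (Pi.single l 1) (algebraMap E (AS f) c * x) :=
          congrArg _ (Algebra.smul_def c x)
      _ = algebraMap E (AS f) c * sigmaHom f (Pi.single l 1) x := by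
          rw [map_mul, sigma_algebraMap]
      _ = c • sigmaHom f (Pi.single l 1) x := (Algebra.smul_def c _).symm
  have hu : sigmaHom f (Pi.single l 1) u = ∑ a', b.repr u a' •
      ∑ t : Fin 3, (((a' l : ℕ).choose (t : ℕ) : ℕ) : E) • b (Function.update a' l t) := by
    conv_lhs => rw [← b.sum_repr u]
    rw [map_sum]
    apply Finset.sum_congr rfl
    intro a' _
    rw [hsm, invariants_step f b hb]
  rw [hu, map_sum, Finsupp.finset_sum_apply]
  have h1 : ∀ a' : Fin 3 → Fin 3, (b.repr (b.repr u a' •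
      ∑ t : Fin 3, (((a' l : ℕ).choose (t : ℕ) : ℕ) : E) • b (Function.update a' l t))) a =
      ∑ s : Fin 3, if Function.update a l s = a' then b.repr u a' * (((s : ℕ).choose (a l : ℕ) : ℕ) : E) else 0 := by
    intro a'
    rw [map_smul, Finsupp.smul_apply, map_sum, Finsupp.finset_sum_apply]
    have h2 : ∀ t : Fin 3, (b.repr ((((a' l : ℕ).choose (t : ℕ) : ℕ) : E) • b (Function.update a' l t))) a =
        (((a' l : ℕ).choose (t : ℕ) : ℕ) : E) * (if Function.update a' l t = a then 1 else 0) := by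
      intro t
      rw [map_smul, Finsupp.smul_apply, Module.Basis.repr_self, Finsupp.single_apply, smul_eq_mul]
    rw [Finset.sum_congr rfl (fun t _ => h2 t), invariants_comb, smul_eq_mul, Finset.mul_sum]
    apply Finset.sum_congr rfl
    intro s _
    rw [mul_ite, mul_zero]
  rw [Finset.sum_congr rfl (fun a' _ => h1 a'), Finset.sum_comm]
  apply Finset.sum_congr rfl
  intro s _
  rw [Finset.sum_ite_eq, if_pos (Finset.mem_univ _)]

theorem invariants {E : Type} [Field E] [CharP E 3] (f : Fin 3 → E) (u : AS f)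
    (h : ∀ g, sigma f g u = u) : ∃ y : E, u = algebraMap E (AS f) y := by
  obtain ⟨b, hb⟩ := as_basis f
  have h2 : (2 : E) ≠ 0 := by
    intro h0
    have h3 : (3 : E) = 0 := by
      have := CharP.cast_eq_zero E 3
      exact_mod_cast this
    have : (1 : E) = 0 := by linear_combination h3 - h0
    exact one_ne_zero this
  have hfix : ∀ l, sigmaHom f (Pi.single l 1) u = u := fun l => by rw [← sigma_eq]; exact h _
  have key : ∀ (l : Fin 3) (a : Fin 3 → Fin 3), b.repr u a =
      ∑ s : Fin 3, b.repr u (Function.update a l s) * (((s : ℕ).choose (a l : ℕ) : ℕ) : E) := by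
    intro l a
    have := invariants_T f b hb l u a
    rwa [hfix l] at this
  have hz : ∀ (l : Fin 3) (a : Fin 3 → Fin 3), b.repr u (Function.update a l 2) = 0 ∧
      b.repr u (Function.update a l 1) = 0 := by
    intro l a
    have k1 := key l (Function.update a l 1)
    have k0 := key l (Function.update a l 0)
    rw [Fin.sum_univ_three] at k1 k0
    simp only [Function.update_idem, Function.update_self] at k1 k0
    norm_num [Nat.choose] at k1 k0
    have e2 : b.repr u (Function.update a l 2) = 0 := by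
      rcases k1 with h | h
      · exact h
      · exact absurd h h2
    refine ⟨e2, ?_⟩
    linear_combination -k0 - e2
  have hall : ∀ a : Fin 3 → Fin 3, a ≠ 0 → b.repr u a = 0 := by
    intro a ha
    obtain ⟨l, hl⟩ := Function.ne_iff.1 ha
    have hc : a l = 1 ∨ a l = 2 := by
      have hl' : a l ≠ 0 := hl
      revert hl'
      generalize a l = x
      fin_cases x
      · intro h; exact absurd rfl h
      · intro _; left; rfl
      · intro _; right; rfl
    rcases hc with hc | hc
    · have := (hz l a).2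
      rwa [← hc, Function.update_eq_self] at this
    · have := (hz l a).1
      rwa [← hc, Function.update_eq_self] at this
  refine ⟨b.repr u 0, ?_⟩
  have hs := b.sum_repr u
  rw [Finset.sum_eq_single 0] at hs
  · have hb0 : b 0 = 1 := by
      rw [hb]
      apply Finset.prod_eq_one
      intro l _
      simp
    rw [hb0, ← Algebra.algebraMap_eq_smul_one] at hs
    exact hs.symm
  · intro a _ ha
    rw [hall a ha, zero_smul]
  · intro h
    exact absurd (Finset.mem_univ _) h

theorem integral_algebraMap (F : ℕ →₀ K) (y : LaurentSeries K)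
    (h : IsIntegral (PowerSeries K) (algebraMap (LaurentSeries K) (AS (fser F)) y)) :
    ∃ z : PowerSeries K, y = algebraMap (PowerSeries K) (LaurentSeries K) z := by
  have h1 : Nonneg (emb y) := by
    rw [← ev_algebraMap F y]
    exact nonneg_of_integral F _ h
  have h2 : ∀ n : ℤ, n < 0 → y.coeff n = 0 := by
    intro n hn
    rw [← emb_coeff_int y n]
    exact h1 (n : ℚ) (by exact_mod_cast hn)
  refine ⟨PowerSeries.mk (fun n : ℕ => y.coeff (n : ℤ)), ?_⟩
  rw [LaurentSeries.coe_algebraMap]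
  ext n
  have h3 := PowerSeries.coeff_coe (PowerSeries.mk (fun n : ℕ => y.coeff (n : ℤ))) n
  rw [h3]
  split_ifs with hn
  · exact h2 n hn
  · rw [PowerSeries.coeff_mk]
    congr 1
    omega

theorem sigma_integral (F : ℕ →₀ K) (g : Fin 3 → ZMod 3) (u : AS (fser F))
    (h : IsIntegral (PowerSeries K) u) : IsIntegral (PowerSeries K) (sigma (fser F) g u) := by
  rw [sigma_eq]
  obtain ⟨P, hP, hPu⟩ := h
  refine ⟨P, hP, ?_⟩
  have hcomp : (sigmaHom (fser F) g).comp (algebraMap (PowerSeries K) (AS (fser F))) =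
      algebraMap (PowerSeries K) (AS (fser F)) := by
    refine RingHom.ext fun y => ?_
    rw [RingHom.comp_apply, IsScalarTower.algebraMap_apply (PowerSeries K) (LaurentSeries K)
      (AS (fser F)), sigma_algebraMap]
  have h2 := Polynomial.hom_eval₂ P (algebraMap (PowerSeries K) (AS (fser F)))
    (sigmaHom (fser F) g) u
  rw [hPu, map_zero, hcomp] at h2
  exact h2.symm

private theorem bounded_coeff (W z : Om) (M : ℚ) (hW : ∀ r : ℚ, r < -M → W.coeff r = 0)
    (hz : Nonneg z) (r : ℚ) (hr : r < -M) : (W * z).coeff r = 0 := by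
  rw [HahnSeries.coeff_mul]
  apply Finset.sum_eq_zero
  rintro ⟨i, j⟩ hij
  rw [Finset.mem_addAntidiagonal] at hij
  obtain ⟨h1, h2, h3⟩ := hij
  simp only at h1 h2 h3 ⊢
  by_cases hi : i < -M
  · rw [hW i hi, zero_mul]
  · have : j < 0 := by linarith
    rw [hz j this, mul_zero]

private theorem bounded_order (W : Om) : ∃ M : ℕ, ∀ r : ℚ, r < -(M : ℚ) → W.coeff r = 0 := by
  obtain ⟨M, hM⟩ := exists_nat_gt (-W.order)
  exact ⟨M, fun r hr => HahnSeries.coeff_eq_zero_of_lt_order (by linarith)⟩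

private theorem bounded_laurent (c : LaurentSeries K) (M : ℕ)
    (h : ∀ n : ℤ, n < -(M : ℤ) → c.coeff n = 0) :
    ∃ m : PowerSeries K, algebraMap (PowerSeries K) (LaurentSeries K) (PowerSeries.X ^ M) * c =
      algebraMap (PowerSeries K) (LaurentSeries K) m := by
  refine ⟨PowerSeries.mk fun n => c.coeff ((n : ℤ) - M), ?_⟩
  have hX : algebraMap (PowerSeries K) (LaurentSeries K) (PowerSeries.X ^ M) =
      HahnSeries.single (M : ℤ) (1 : K) := by
    rw [LaurentSeries.coe_algebraMap, HahnSeries.ofPowerSeries_X_pow]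
  rw [hX, LaurentSeries.coe_algebraMap]
  ext n
  have h1 : (HahnSeries.single (M : ℤ) (1 : K) * c).coeff n = c.coeff (n - M) := by
    have h2 := HahnSeries.coeff_single_mul_add (r := (1 : K)) (x := c) (a := n - M) (b := (M : ℤ))
    rw [sub_add_cancel, one_mul] at h2
    exact h2
  rw [h1, PowerSeries.coeff_coe]
  split_ifs with hn
  · exact h _ (by omega)
  · rw [PowerSeries.coeff_mk]
    congr 1
    omega

theorem bounded (F : ℕ →₀ K) : ∃ M : ℕ, ∀ u : AS (fser F), IsIntegral (PowerSeries K) u →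
    ∃ m : (Fin 3 → Fin 3) → PowerSeries K,
      algebraMap (PowerSeries K) (AS (fser F)) (PowerSeries.X ^ M) * u =
        ∑ a, algebraMap (PowerSeries K) (AS (fser F)) (m a) *
          ∏ l, gen (fser F) l ^ (a l : ℕ) := by
  have : CharP Om 3 :=
    charP_of_injective_ringHom (f := (HahnSeries.C : K →+* Om)) HahnSeries.C_injective 3
  obtain ⟨W, hW⟩ := shift_inv (Ω := Om) (alpha F)
  choose N hN using bounded_order
  refine ⟨∑ a, ∑ g, N (W a g), fun u hu => ?_⟩
  obtain ⟨b, hb⟩ := as_basis (fser F)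
  have hu' : u = ∑ a, algebraMap (LaurentSeries K) (AS (fser F)) (b.repr u a) *
      ∏ l, gen (fser F) l ^ (a l : ℕ) := by
    conv_lhs => rw [← b.sum_repr u]
    refine Finset.sum_congr rfl fun a _ => ?_
    rw [← hb]
    exact Algebra.smul_def (b.repr u a) (b a)
  have hev : ∀ g, ev F (sigma (fser F) g u) = ∑ a, emb (b.repr u a) *
      ∏ l, (alpha F l + ((g l).val : Om)) ^ (a l : ℕ) := by
    intro g
    rw [sigma_eq]
    conv_lhs => rw [hu']
    simp only [map_sum, map_mul, map_prod, map_pow, sigma_algebraMap, sigma_gen, ev_algebraMap,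
      map_add, ev_gen, map_natCast]
  have hc : ∀ a, emb (b.repr u a) = ∑ g, W a g * ev F (sigma (fser F) g u) := by
    intro a
    simp only [hev, Finset.mul_sum]
    rw [Finset.sum_comm]
    have h1 : ∀ a', ∑ g, W a g * (emb (b.repr u a') *
        ∏ l, (alpha F l + ((g l).val : Om)) ^ (a' l : ℕ)) =
        emb (b.repr u a') * (if a = a' then 1 else 0) := by
      intro a'
      rw [← hW a a', Finset.mul_sum]
      exact Finset.sum_congr rfl fun g _ => by ring
    simp only [h1]
    simp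
  have hnn : ∀ g, Nonneg (ev F (sigma (fser F) g u)) := fun g =>
    nonneg_of_integral F _ (sigma_integral F g u hu)
  have hle : ∀ a g, N (W a g) ≤ ∑ a, ∑ g, N (W a g) := by
    intro a g
    refine (Finset.single_le_sum (f := fun g => N (W a g)) (fun _ _ => Nat.zero_le _)
      (Finset.mem_univ g)).trans ?_
    exact Finset.single_le_sum (f := fun a => ∑ g, N (W a g)) (fun _ _ => Nat.zero_le _)
      (Finset.mem_univ a)
  have hlow : ∀ a, ∀ n : ℤ, n < -((∑ a, ∑ g, N (W a g) : ℕ) : ℤ) → (b.repr u a).coeff n = 0 := by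
    intro a n hn
    rw [← emb_coeff_int, hc, HahnSeries.coeff_sum]
    refine Finset.sum_eq_zero fun g _ => ?_
    refine bounded_coeff _ _ ((∑ a, ∑ g, N (W a g) : ℕ) : ℚ) ?_ (hnn g) _ (by exact_mod_cast hn)
    intro r hr
    refine hN _ r (hr.trans_le ?_)
    have : (N (W a g) : ℚ) ≤ ((∑ a, ∑ g, N (W a g) : ℕ) : ℚ) := by exact_mod_cast hle a g
    linarith
  choose m hm using fun a => bounded_laurent (b.repr u a) _ (hlow a)
  refine ⟨m, ?_⟩
  conv_lhs => rw [hu']
  rw [Finset.mul_sum]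
  refine Finset.sum_congr rfl fun a _ => ?_
  rw [← mul_assoc]
  congr 1
  rw [IsScalarTower.algebraMap_apply (PowerSeries K) (LaurentSeries K) (AS (fser F)),
    IsScalarTower.algebraMap_apply (PowerSeries K) (LaurentSeries K) (AS (fser F)), ← map_mul, hm]

theorem gen_integral_fser (F : ℕ →₀ K) (l : Fin 3) : ∃ F0 : PowerSeries K,
    algebraMap (PowerSeries K) (LaurentSeries K) F0 =
      algebraMap (PowerSeries K) (LaurentSeries K) (PowerSeries.X ^ (F.support.sup id + 2)) *
        fser F l := by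
  refine ⟨∑ j ∈ Finset.range (F.support.sup id + 2), PowerSeries.C (coef F j l) *
    PowerSeries.X ^ (F.support.sup id + 2 - j), ?_⟩
  rw [map_sum, map_pow]
  unfold fser
  rw [Finset.mul_sum]
  refine Finset.sum_congr rfl fun j hj => ?_
  have hj' : j ≤ F.support.sup id + 2 := (Finset.mem_range.1 hj).le
  have hX : algebraMap (PowerSeries K) (LaurentSeries K) PowerSeries.X
      = HahnSeries.single (1 : ℤ) (1 : K) := by
    rw [LaurentSeries.coe_algebraMap, HahnSeries.ofPowerSeries_X]
  have hC : algebraMap (PowerSeries K) (LaurentSeries K) (PowerSeries.C (coef F j l))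
      = HahnSeries.single (0 : ℤ) (coef F j l) := by
    rw [LaurentSeries.coe_algebraMap, HahnSeries.ofPowerSeries_C]
    rfl
  rw [map_mul, map_pow, hX, hC, HahnSeries.single_pow, HahnSeries.single_pow,
    HahnSeries.single_mul_single, HahnSeries.single_mul_single]
  rw [one_pow, one_pow, one_mul, mul_one]
  congr 1
  rw [nsmul_eq_mul, nsmul_eq_mul]
  push_cast [Nat.cast_sub hj']
  ring_nf

theorem gen_integral (F : ℕ →₀ K) : ∃ M : ℕ, ∀ l, IsIntegral (PowerSeries K)
    (algebraMap (PowerSeries K) (AS (fser F)) (PowerSeries.X ^ M) * gen (fser F) l) := by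
  refine ⟨F.support.sup id + 2, fun l => ?_⟩
  obtain ⟨F0, hF0⟩ := gen_integral_fser F l
  generalize F.support.sup id + 2 = M at hF0 ⊢
  have h1 : algebraMap (PowerSeries K) (AS (fser F)) F0 =
      algebraMap (PowerSeries K) (AS (fser F)) (PowerSeries.X ^ M) *
        (gen (fser F) l ^ 3 - gen (fser F) l) := by
    rw [gen_pow, IsScalarTower.algebraMap_apply (PowerSeries K) (LaurentSeries K) (AS (fser F)) F0,
      hF0, map_mul, ← IsScalarTower.algebraMap_apply (PowerSeries K) (LaurentSeries K) (AS (fser F))]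
  refine ⟨Polynomial.X ^ (2 + 1) - (Polynomial.C (PowerSeries.X ^ M * PowerSeries.X ^ M) *
    Polynomial.X + Polynomial.C (PowerSeries.X ^ M * PowerSeries.X ^ M * F0)), ?_, ?_⟩
  · refine Polynomial.monic_X_pow_sub (n := 2 + 1) (lt_of_le_of_lt Polynomial.degree_linear_le ?_)
    norm_num
  · rw [Polynomial.eval₂_sub, Polynomial.eval₂_pow, Polynomial.eval₂_X, Polynomial.eval₂_add,
      Polynomial.eval₂_mul, Polynomial.eval₂_C, Polynomial.eval₂_C, Polynomial.eval₂_X,
      map_mul (algebraMap (PowerSeries K) (AS (fser F))) (PowerSeries.X ^ M * PowerSeries.X ^ M) F0,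
      map_mul (algebraMap (PowerSeries K) (AS (fser F))) (PowerSeries.X ^ M) (PowerSeries.X ^ M), h1]
    ring

private theorem free_rank_tower (F : ℕ →₀ K) (a : PowerSeries K) :
    algebraMap (PowerSeries K) (AS (fser F)) a =
      algebraMap (LaurentSeries K) (AS (fser F)) (algebraMap (PowerSeries K) (LaurentSeries K) a) :=
  IsScalarTower.algebraMap_apply (PowerSeries K) (LaurentSeries K) (AS (fser F)) a

private theorem free_rank_algInj : Function.Injective
    (algebraMap (PowerSeries K) (LaurentSeries K)) :=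
  FaithfulSMul.algebraMap_injective _ _

private theorem free_rank_inj (F : ℕ →₀ K) (m : (Fin 3 → Fin 3) → PowerSeries K)
    (h : ∑ a, algebraMap (PowerSeries K) (AS (fser F)) (m a) *
      ∏ l, gen (fser F) l ^ (a l : ℕ) = 0) (a : Fin 3 → Fin 3) : m a = 0 := by
  obtain ⟨b, hb⟩ := as_basis (fser F)
  have h1 : ∑ a, (algebraMap (PowerSeries K) (LaurentSeries K) (m a)) • b a = 0 := by
    rw [← h]
    apply Finset.sum_congr rfl
    intro a _
    refine (Algebra.smul_def (algebraMap (PowerSeries K) (LaurentSeries K) (m a)) (b a)).trans ?_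
    rw [hb, free_rank_tower]
  have h2 := Fintype.linearIndependent_iff.mp b.linearIndependent _ h1 a
  exact free_rank_algInj (by rw [h2, map_zero])

private theorem free_rank_canc (F : ℕ →₀ K) (M : ℕ) (u : AS (fser F))
    (h : algebraMap (PowerSeries K) (AS (fser F)) (PowerSeries.X ^ M) * u = 0) : u = 0 := by
  rw [free_rank_tower, ← Algebra.smul_def, smul_eq_zero] at h
  rcases h with h | h
  · exfalso
    have h1 : (PowerSeries.X : PowerSeries K) ^ M = 0 := free_rank_algInj (by rw [h, map_zero])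
    exact pow_ne_zero M PowerSeries.X_ne_zero h1
  · exact h

private theorem free_rank_map (F : ℕ →₀ K) :
    ∃ Φ : integralClosure (PowerSeries K) (AS (fser F)) →ₗ[PowerSeries K]
      ((Fin 3 → Fin 3) → PowerSeries K), Function.Injective Φ := by
  obtain ⟨M, hM⟩ := bounded F
  choose! m hm using hM
  have hO : ∀ u : integralClosure (PowerSeries K) (AS (fser F)),
      IsIntegral (PowerSeries K) (u : AS (fser F)) := fun u => u.2
  refine ⟨{ toFun := fun u => m u, map_add' := ?_, map_smul' := ?_ }, ?_⟩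
  · intro u v
    funext a
    have h1 := hm _ (hO u)
    have h2 := hm _ (hO v)
    have h3 := hm _ (hO (u + v))
    have h4 : ∑ a, algebraMap (PowerSeries K) (AS (fser F)) (m (u + v : integralClosure (PowerSeries K) (AS (fser F))) a - (m u a + m v a)) *
        ∏ l, gen (fser F) l ^ (a l : ℕ) = 0 := by
      simp only [map_sub, map_add, sub_mul, add_mul, Finset.sum_sub_distrib, Finset.sum_add_distrib]
      rw [← h1, ← h2, ← h3]
      push_cast
      ring
    have h5 := free_rank_inj F _ h4 a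
    rw [sub_eq_zero] at h5
    exact h5
  · intro c u
    funext a
    have h1 := hm _ (hO u)
    have h3 := hm _ (hO (c • u))
    have h4 : ∑ a, algebraMap (PowerSeries K) (AS (fser F)) (m (c • u : integralClosure (PowerSeries K) (AS (fser F))) a - (c * m u a)) *
        ∏ l, gen (fser F) l ^ (a l : ℕ) = 0 := by
      simp only [map_sub, map_mul, sub_mul, Finset.sum_sub_distrib, mul_assoc]
      rw [← Finset.mul_sum, ← h1, ← h3]
      have h6 : ((c • u : integralClosure (PowerSeries K) (AS (fser F))) : AS (fser F)) =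
          algebraMap (PowerSeries K) (AS (fser F)) c * u := by
        rw [← Algebra.smul_def]
        rfl
      rw [h6]
      ring
    have h5 := free_rank_inj F _ h4 a
    rw [sub_eq_zero] at h5
    exact h5
  · intro u v huv
    have huv' : m u = m v := huv
    have h1 := hm _ (hO u)
    have h2 := hm _ (hO v)
    rw [huv', ← h2] at h1
    have h3 : (u : AS (fser F)) - v = 0 := by
      apply free_rank_canc F M
      rw [mul_sub, h1, sub_self]
    exact Subtype.ext (sub_eq_zero.mp h3)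

private theorem free_rank_indep (F : ℕ →₀ K) :
    ∃ e : (Fin 3 → Fin 3) → integralClosure (PowerSeries K) (AS (fser F)),
      LinearIndependent (PowerSeries K) e := by
  obtain ⟨M, hM⟩ := gen_integral F
  have hint : ∀ a : Fin 3 → Fin 3, (∏ l, (algebraMap (PowerSeries K) (AS (fser F))
      (PowerSeries.X ^ M) * gen (fser F) l) ^ (a l : ℕ)) ∈
        integralClosure (PowerSeries K) (AS (fser F)) := by
    intro a
    exact Subalgebra.prod_mem _ (fun l _ => Subalgebra.pow_mem _ (hM l) _)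
  refine ⟨fun a => ⟨_, hint a⟩, ?_⟩
  rw [Fintype.linearIndependent_iff]
  intro c hc a
  have h1 : ∑ a, algebraMap (PowerSeries K) (AS (fser F)) (c a * ∏ l, (PowerSeries.X ^ M) ^ (a l : ℕ)) *
      ∏ l, gen (fser F) l ^ (a l : ℕ) = 0 := by
    have h2 := congrArg (integralClosure (PowerSeries K) (AS (fser F))).val hc
    rw [map_zero, map_sum] at h2
    rw [← h2]
    apply Finset.sum_congr rfl
    intro a _
    have h7 : (integralClosure (PowerSeries K) (AS (fser F))).val
        (c a • ⟨∏ l, (algebraMap (PowerSeries K) (AS (fser F))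
          (PowerSeries.X ^ M) * gen (fser F) l) ^ (a l : ℕ), hint a⟩) =
        algebraMap (PowerSeries K) (AS (fser F)) (c a) * (∏ l, (algebraMap (PowerSeries K) (AS (fser F))
      (PowerSeries.X ^ M) * gen (fser F) l) ^ (a l : ℕ)) :=
      Algebra.smul_def (c a) (∏ l, (algebraMap (PowerSeries K) (AS (fser F))
      (PowerSeries.X ^ M) * gen (fser F) l) ^ (a l : ℕ))
    refine Eq.trans ?_ h7.symm
    rw [map_mul, map_prod, mul_assoc, ← Finset.prod_mul_distrib]
    congr 1
    apply Finset.prod_congr rfl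
    intro l _
    rw [mul_pow, map_pow]
  have h3 := free_rank_inj F _ h1 a
  rcases mul_eq_zero.mp h3 with h4 | h4
  · exact h4
  · exfalso
    have h5 : ∏ l, ((PowerSeries.X : PowerSeries K) ^ M) ^ (a l : ℕ) ≠ 0 := by
      apply Finset.prod_ne_zero_iff.mpr
      intro l _
      exact pow_ne_zero _ (pow_ne_zero _ PowerSeries.X_ne_zero)
    exact h5 h4

theorem free_rank (F : ℕ →₀ K) : Nonempty (Module.Basis (Fin 27) (PowerSeries K)
    (integralClosure (PowerSeries K) (AS (fser F)))) := by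
  obtain ⟨Φ, hΦ⟩ := free_rank_map F
  obtain ⟨n, ⟨b⟩⟩ := Submodule.nonempty_basis_of_pid
    (Pi.basisFun (PowerSeries K) (Fin 3 → Fin 3)) (LinearMap.range Φ)
  have b' : Module.Basis (Fin n) (PowerSeries K)
      (integralClosure (PowerSeries K) (AS (fser F))) :=
    b.map (LinearEquiv.ofInjective Φ hΦ).symm
  have hfree : Module.Free (PowerSeries K) (integralClosure (PowerSeries K) (AS (fser F))) :=
    Module.Free.of_basis b'
  have hfin : Module.Finite (PowerSeries K) (integralClosure (PowerSeries K) (AS (fser F))) :=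
    Module.Finite.of_basis b'
  have h27 : Fintype.card (Fin 3 → Fin 3) = 27 := by
    rw [Fintype.card_fun, Fintype.card_fin]
    norm_num
  have hn : Module.finrank (PowerSeries K) (integralClosure (PowerSeries K) (AS (fser F))) = n := by
    rw [Module.finrank_eq_card_basis b', Fintype.card_fin]
  have h1 : n ≤ 27 := by
    have h2 := (b'.linearIndependent.map' Φ (LinearMap.ker_eq_bot.mpr hΦ)).fintype_card_le_finrank
    rw [Module.finrank_fintype_fun_eq_card, h27, Fintype.card_fin] at h2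
    exact h2
  obtain ⟨e, he⟩ := free_rank_indep F
  have h3 : 27 ≤ n := by
    have h4 := he.fintype_card_le_finrank
    rw [h27, hn] at h4
    exact h4
  have h5 : n = 27 := le_antisymm h1 h3
  exact ⟨b'.reindex (finCongr h5)⟩

end Pool.Agent.Helper449.MST
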