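import Pool.Agent.Helper449.MST.I

/-! # the value of v -/

namespace Pool.Agent.Helper449.MST

open MvPolynomial

/-- the coordinate map -/
noncomputable def length_free_map {A O : Type} [CommRing A] [CommRing O] [Algebra A O] {n : ℕ}
    (b : Module.Basis (Fin n) A O) (Λ : Submodule A (Fin 3 → A)) :
    (Fin 3 → O) →ₗ[A] (Fin n → ((Fin 3 → A) ⧸ Λ)) :=
  LinearMap.pi fun j => Λ.mkQ ∘ₗ LinearMap.pi fun i => (b.coord j) ∘ₗ LinearMap.proj i

theorem length_free_map_apply {A O : Type} [CommRing A] [CommRing O] [Algebra A O] {n : ℕ}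
    (b : Module.Basis (Fin n) A O) (Λ : Submodule A (Fin 3 → A)) (w : Fin 3 → O) (j : Fin n) :
    length_free_map b Λ w j = Λ.mkQ (fun i => b.repr (w i) j) := rfl

theorem length_free_mem {A O : Type} [CommRing A] [CommRing O] [Algebra A O] {n : ℕ}
    (b : Module.Basis (Fin n) A O) (Λ : Submodule A (Fin 3 → A)) (w : Fin 3 → O) :
    length_free_map b Λ w = 0 ↔ ∀ j, (fun i => b.repr (w i) j) ∈ Λ := by
  constructor
  · intro h j
    have h1 := congrFun h j
    rw [length_free_map_apply] at h1
    simpa using h1
  · intro h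
    funext j
    rw [length_free_map_apply]
    simpa using h j

theorem length_free_ker {A O : Type} [CommRing A] [CommRing O] [Algebra A O] {n : ℕ}
    (b : Module.Basis (Fin n) A O) (Λ : Submodule A (Fin 3 → A)) :
    LinearMap.ker (length_free_map b Λ) = (Submodule.span O
      {w : Fin 3 → O | ∃ x ∈ Λ, ∀ i, w i = algebraMap A O (x i)}).restrictScalars A := by
  ext w
  rw [LinearMap.mem_ker, Submodule.restrictScalars_mem, length_free_mem]
  constructor
  · intro h
    have hw : w = ∑ j, b j • (fun i => algebraMap A O (b.repr (w i) j)) := by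
      funext i
      rw [Finset.sum_apply]
      conv_lhs => rw [← b.sum_repr (w i)]
      refine Finset.sum_congr rfl fun j _ => ?_
      rw [Pi.smul_apply, Algebra.smul_def, smul_eq_mul, mul_comm]
    rw [hw]
    refine Submodule.sum_mem _ fun j _ => Submodule.smul_mem _ _ (Submodule.subset_span ?_)
    exact ⟨_, h j, fun i => rfl⟩
  · intro h
    have key : ∀ o : O, ∀ j, (fun i => b.repr ((o • w) i) j) ∈ Λ := by
      induction h using Submodule.span_induction with
      | mem w hw =>
        obtain ⟨x, hx, hxw⟩ := hw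
        intro o j
        have e : (fun i => b.repr ((o • w) i) j) = (b.repr o j) • x := by
          funext i
          rw [Pi.smul_apply, hxw i, smul_eq_mul, mul_comm, ← Algebra.smul_def, map_smul,
            Finsupp.smul_apply, Pi.smul_apply, smul_eq_mul, smul_eq_mul, mul_comm]
        rw [e]
        exact Λ.smul_mem _ hx
      | zero =>
        intro o j
        have e : (fun i => b.repr ((o • (0 : Fin 3 → O)) i) j) = 0 := by
          funext i
          simp
        rw [e]
        exact Λ.zero_mem
      | add u v _ _ hu hv =>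
        intro o j
        have e : (fun i => b.repr ((o • (u + v)) i) j) =
            (fun i => b.repr ((o • u) i) j) + (fun i => b.repr ((o • v) i) j) := by
          funext i
          simp only [smul_add, Pi.add_apply, map_add, Finsupp.add_apply]
        rw [e]
        exact Λ.add_mem (hu o j) (hv o j)
      | smul a u _ hu =>
        intro o j
        have := hu (o * a) j
        rwa [mul_smul] at this
    intro j
    have := key 1 j
    rwa [one_smul] at this

theorem length_free {A O : Type} [CommRing A] [CommRing O] [Algebra A O] {n : ℕ}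
    (b : Module.Basis (Fin n) A O) (Λ : Submodule A (Fin 3 → A)) :
    spanColength A {w : Fin 3 → O | ∃ x ∈ Λ, ∀ i, w i = algebraMap A O (x i)} =
      n * Module.length A ((Fin 3 → A) ⧸ Λ) := by
  have hsurj : Function.Surjective (length_free_map b Λ) := by
    intro y
    choose x hx using fun j => Submodule.mkQ_surjective Λ (y j)
    refine ⟨fun i => ∑ j, x j i • b j, ?_⟩
    funext j
    rw [length_free_map_apply, ← hx j]
    congr 1
    funext i
    have := b.repr_sum_self (fun j => x j i)
    exact congrFun this j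
  unfold spanColength
  have e1 := (Submodule.Quotient.restrictScalarsEquiv A (Submodule.span O
      {w : Fin 3 → O | ∃ x ∈ Λ, ∀ i, w i = algebraMap A O (x i)})).symm
  have e2 := Submodule.quotEquivOfEq _ _ (length_free_ker b Λ).symm
  have e3 := (length_free_map b Λ).quotKerEquivOfSurjective hsurj
  rw [(e1.trans (e2.trans e3)).length_eq, Module.length_pi]
  simp

theorem tuning_iff_sum (N : ℕ) (F : ℕ →₀ K) (g : Fin 3 → ZMod 3)
    (w : Idx N → integralClosure (PowerSeries K) (AS (fser F))) (a : Fin 3 ⊕ Fin 3) (r : Fin N) :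
    ∑ k, algebraMap (PowerSeries K) (AS (fser F)) ((rep N g).map PowerSeries.C (a, r) k) *
      (w k : AS (fser F)) =
    ∑ c, algebraMap (PowerSeries K) (AS (fser F))
      (PowerSeries.C (Matrix.fromBlocks 1 0 (matG g) 1 a c)) * (w (c, r) : AS (fser F)) := by
  rw [Fintype.sum_prod_type]
  refine Finset.sum_congr rfl fun c _ => ?_
  rw [Finset.sum_eq_single r]
  · simp [rep, Matrix.blockDiagonal_apply]
  · intro r' _ hr
    simp [rep, Matrix.blockDiagonal_apply, hr.symm]
  · simp

theorem tuning_iff_inl (N : ℕ) (F : ℕ →₀ K) (g : Fin 3 → ZMod 3)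
    (w : Idx N → integralClosure (PowerSeries K) (AS (fser F))) (i : Fin 3) (r : Fin N) :
    ∑ k, algebraMap (PowerSeries K) (AS (fser F)) ((rep N g).map PowerSeries.C (Sum.inl i, r) k) *
      (w k : AS (fser F)) = w (Sum.inl i, r) := by
  rw [tuning_iff_sum, Fintype.sum_sum_type]
  simp [Matrix.one_apply]

theorem tuning_iff_inr (N : ℕ) (F : ℕ →₀ K) (g : Fin 3 → ZMod 3)
    (w : Idx N → integralClosure (PowerSeries K) (AS (fser F))) (i : Fin 3) (r : Fin N) :
    ∑ k, algebraMap (PowerSeries K) (AS (fser F)) ((rep N g).map PowerSeries.C (Sum.inr i, r) k) *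
      (w k : AS (fser F)) = ∑ k, algebraMap (PowerSeries K) (AS (fser F))
        (PowerSeries.C (matG g i k)) * (w (Sum.inl k, r) : AS (fser F)) + w (Sum.inr i, r) := by
  rw [tuning_iff_sum, Fintype.sum_sum_type]
  simp [Matrix.one_apply]

theorem tuning_iff_mel (x : Fin 3 → PowerSeries K) (g : Fin 3 → ZMod 3) (i : Fin 3) :
    ∑ l, mel x i l * ((g l).val : PowerSeries K) = ∑ k, PowerSeries.C (matG g i k) * x k := by
  have h : ∀ k, matG g i k = ∑ l, ((g l).val : K) * mat (Pi.single l 1) i k := by
    intro k
    rw [matG, mat_linear, Matrix.sum_apply]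
    refine Finset.sum_congr rfl fun l _ => ?_
    rw [Matrix.smul_apply, smul_eq_mul]
    congr 1
    rw [← map_natCast (algebraMap (ZMod 3) K), ZMod.natCast_zmod_val]
  simp_rw [h, mel, map_sum, map_mul, map_natCast, Finset.sum_mul]
  rw [Finset.sum_comm]
  refine Finset.sum_congr rfl fun k _ => Finset.sum_congr rfl fun l _ => ?_
  ring

theorem tuning_iff_tower (F : ℕ →₀ K) (z : PowerSeries K) :
    algebraMap (LaurentSeries K) (AS (fser F)) (algebraMap (PowerSeries K) (LaurentSeries K) z) =
      algebraMap (PowerSeries K) (AS (fser F)) z := rfl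

theorem tuning_iff_sigma (F : ℕ →₀ K) (g : Fin 3 → ZMod 3) (x : Fin 3 → PowerSeries K)
    (y : Fin 3 → LaurentSeries K) (i : Fin 3) :
    sigma (fser F) g (lin F x y i) = ∑ k, algebraMap (PowerSeries K) (AS (fser F))
        (PowerSeries.C (matG g i k)) * algebraMap (PowerSeries K) (AS (fser F)) (x k) +
        lin F x y i := by
  have h := congrArg (algebraMap (PowerSeries K) (AS (fser F))) (tuning_iff_mel x g i)
  simp only [map_sum, map_mul, map_natCast] at h
  rw [← h, sigma_eq, lin, map_add, map_sum, sigma_algebraMap]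
  have h2 : ∀ l, sigmaHom (fser F) g (algebraMap (PowerSeries K) (AS (fser F)) (mel x i l) *
      gen (fser F) l) = algebraMap (PowerSeries K) (AS (fser F)) (mel x i l) *
      ((g l).val : AS (fser F)) + algebraMap (PowerSeries K) (AS (fser F)) (mel x i l) *
      gen (fser F) l := by
    intro l
    rw [map_mul, sigma_gen, ← tuning_iff_tower, sigma_algebraMap]
    ring
  simp_rw [h2, Finset.sum_add_distrib]
  ring

theorem tuning_iff (N : ℕ) (F : ℕ →₀ K)
    (w : Idx N → integralClosure (PowerSeries K) (AS (fser F))) :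
    w ∈ tuning (sigma (fser F)) (fun g => (rep N g).map PowerSeries.C) ↔
      ∀ r, ∃ x ∈ Lam F, ∃ y : Fin 3 → LaurentSeries K, ∀ i,
        (w (Sum.inl i, r) : AS (fser F)) = algebraMap (PowerSeries K) (AS (fser F)) (x i) ∧
        (w (Sum.inr i, r) : AS (fser F)) = lin F x y i := by
  constructor
  · intro hw r
    have h1 : ∀ i, ∃ z : PowerSeries K,
        (w (Sum.inl i, r) : AS (fser F)) = algebraMap (PowerSeries K) (AS (fser F)) z := by
      intro i
      obtain ⟨y, hy⟩ := invariants (fser F) (w (Sum.inl i, r) : AS (fser F)) (fun g => by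
        have := hw g (Sum.inl i, r)
        rw [tuning_iff_inl] at this
        exact this)
      have hi : IsIntegral (PowerSeries K) (algebraMap (LaurentSeries K) (AS (fser F)) y) := by
        rw [← hy]
        exact (w (Sum.inl i, r)).2
      obtain ⟨z, hz⟩ := integral_algebraMap F y hi
      exact ⟨z, by rw [hy, hz, tuning_iff_tower]⟩
    choose x hx using h1
    have h2 : ∀ i, ∃ y : LaurentSeries K, (w (Sum.inr i, r) : AS (fser F)) - lin F x 0 i =
        algebraMap (LaurentSeries K) (AS (fser F)) y := by
      intro i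
      refine invariants (fser F) _ fun g => ?_
      have := hw g (Sum.inr i, r)
      rw [tuning_iff_inr] at this
      have h3 := tuning_iff_sigma F g x 0 i
      rw [sigma_eq] at this h3 ⊢
      rw [map_sub, this, h3]
      simp_rw [hx]
      ring
    choose y hy using h2
    have h4 : ∀ i, (w (Sum.inr i, r) : AS (fser F)) = lin F x y i := by
      intro i
      have := hy i
      rw [sub_eq_iff_eq_add] at this
      rw [this, lin, lin]
      simp only [Pi.zero_apply, map_zero]
      ring
    refine ⟨x, ⟨y, fun i => ?_⟩, y, fun i => ⟨hx i, h4 i⟩⟩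
    rw [← h4 i]
    exact (w (Sum.inr i, r)).2
  · rintro h g ⟨a, r⟩
    obtain ⟨x, -, y, hxy⟩ := h r
    rcases a with i | i
    · show sigma (fser F) g (w (Sum.inl i, r)) = ∑ k, algebraMap (PowerSeries K) (AS (fser F))
        ((rep N g).map PowerSeries.C (Sum.inl i, r) k) * (w k : AS (fser F))
      rw [tuning_iff_inl, (hxy i).1, sigma_eq, ← tuning_iff_tower, sigma_algebraMap]
    · show sigma (fser F) g (w (Sum.inr i, r)) = ∑ k, algebraMap (PowerSeries K) (AS (fser F))
        ((rep N g).map PowerSeries.C (Sum.inr i, r) k) * (w k : AS (fser F))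
      rw [tuning_iff_inr, (hxy i).2, tuning_iff_sigma]
      simp_rw [(hxy _).1]

theorem v27_eq_mul_aux {A O : Type} [CommRing A] [CommRing O] [Algebra A O] (N : ℕ)
    (T : Set (Idx N → O)) (S : Set (Fin 3 → O))
    (h1 : ∀ w ∈ T, ∀ r, (fun i => w (Sum.inl i, r)) ∈ S)
    (h2 : ∀ s ∈ S, ∀ r, ∃ w ∈ T, ∀ r', (fun i => w (Sum.inl i, r')) = if r' = r then s else 0)
    (h3 : ∀ j r, (Pi.single (Sum.inr j, r) 1 : Idx N → O) ∈ T) :
    spanColength A T = N * spanColength A S := by
  let Φ : (Idx N → O) →ₗ[O] (Fin N → (Fin 3 → O)) :=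
    { toFun := fun w r i => w (Sum.inl i, r)
      map_add' := fun _ _ => rfl
      map_smul' := fun _ _ => rfl }
  have hΦ : ∀ w r i, Φ w r i = w (Sum.inl i, r) := fun _ _ _ => rfl
  have hsurj : Function.Surjective Φ := by
    intro p
    refine ⟨fun k => Sum.elim (fun i => p k.2 i) (fun _ => 0) k.1, ?_⟩
    funext r i
    rfl
  let P : Submodule O (Fin N → (Fin 3 → O)) := Submodule.pi Set.univ (fun _ => Submodule.span O S)
  have hker : ∀ u : Idx N → O, Φ u = 0 → u ∈ Submodule.span O T := by
    intro u hu
    rw [pi_eq_sum_univ' u]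
    apply Submodule.sum_mem
    rintro ⟨k, r⟩ -
    rcases k with i | j
    · have : u (Sum.inl i, r) = 0 := by
        rw [← hΦ u r i, hu]; rfl
      rw [this, zero_smul]
      exact Submodule.zero_mem _
    · apply Submodule.smul_mem
      apply Submodule.subset_span
      convert h3 j r using 1
  have hcomap : Submodule.span O T = P.comap Φ := by
    apply le_antisymm
    · rw [Submodule.span_le]
      intro w hw
      rw [SetLike.mem_coe, Submodule.mem_comap, Submodule.mem_pi]
      intro r _
      exact Submodule.subset_span (h1 w hw r)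
    · intro w hw
      rw [Submodule.mem_comap, Submodule.mem_pi] at hw
      have hmap : Φ w ∈ (Submodule.span O T).map Φ := by
        rw [← Finset.univ_sum_single (Φ w)]
        apply Submodule.sum_mem
        intro r _
        have hle : Submodule.span O S ≤ ((Submodule.span O T).map Φ).comap
            (LinearMap.single O (fun _ : Fin N => (Fin 3 → O)) r) := by
          rw [Submodule.span_le]
          intro x hx
          rw [SetLike.mem_coe, Submodule.mem_comap]
          obtain ⟨v, hv, hv'⟩ := h2 x hx r
          refine ⟨v, Submodule.subset_span hv, ?_⟩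
          funext r'
          have := hv' r'
          rw [show Φ v r' = (fun i => v (Sum.inl i, r')) from rfl, this]
          by_cases hr : r' = r
          · subst hr
            simp
          · simp [hr]
        exact hle (hw r (Set.mem_univ r))
      obtain ⟨w', hw', hww⟩ := hmap
      have hd : w - w' ∈ Submodule.span O T := by
        apply hker
        rw [map_sub, hww, sub_self]
      have := Submodule.add_mem _ hd hw'
      rwa [sub_add_cancel] at this
  unfold spanColength
  have e1 : ((Idx N → O) ⧸ Submodule.span O T) ≃ₗ[O] ((Fin N → (Fin 3 → O)) ⧸ P) := by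
    refine LinearEquiv.trans (Submodule.quotEquivOfEq _ (LinearMap.ker (P.mkQ.comp Φ)) ?_)
      (LinearMap.quotKerEquivOfSurjective (P.mkQ.comp Φ) ?_)
    · rw [hcomap, LinearMap.ker_comp, Submodule.ker_mkQ]
    · exact (Submodule.mkQ_surjective P).comp hsurj
  have e2 : ((Fin N → (Fin 3 → O)) ⧸ P) ≃ₗ[O] (Fin N → ((Fin 3 → O) ⧸ Submodule.span O S)) :=
    Submodule.quotientPi (fun _ => Submodule.span O S)
  rw [((e1.trans e2).restrictScalars A).length_eq, Module.length_pi]
  simp

theorem v27_eq_mul (N : ℕ) (F : ℕ →₀ K) : v27 N F = N * spanColength (PowerSeries K)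
    {w : Fin 3 → integralClosure (PowerSeries K) (AS (fser F)) |
      ∃ x ∈ Lam F, ∀ i, w i = algebraMap (PowerSeries K) _ (x i)} := by
  classical
  unfold v27 colength
  have hlin : ∀ (y : Fin 3 → LaurentSeries K) (i : Fin 3),
      lin F 0 y i = algebraMap (LaurentSeries K) (AS (fser F)) (y i) := by
    intro y i
    simp [lin, mel]
  apply v27_eq_mul_aux
  · intro w hw r
    obtain ⟨x, hx, y, h⟩ := (tuning_iff N F w).1 hw r
    refine ⟨x, hx, fun i => ?_⟩
    apply Subtype.ext
    exact (h i).1
  · rintro u ⟨x, hx, hu⟩ r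
    obtain ⟨y, hy⟩ := hx
    refine ⟨fun k => Sum.elim (fun i => if k.2 = r then u i else 0)
      (fun i => if k.2 = r then ⟨lin F x y i, hy i⟩ else 0) k.1, ?_, ?_⟩
    · rw [tuning_iff]
      intro r'
      by_cases hr : r' = r
      · refine ⟨x, ⟨y, hy⟩, y, fun i => ⟨?_, ?_⟩⟩
        · simp only [Sum.elim_inl, hr, if_true]
          rw [hu i]
          rfl
        · simp only [Sum.elim_inr, hr, if_true]
      · refine ⟨0, (Lam F).zero_mem, 0, fun i => ⟨?_, ?_⟩⟩
        · simp only [Sum.elim_inl, hr, if_false]
          simp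
        · simp only [Sum.elim_inr, hr, if_false]
          rw [hlin]
          simp
    · intro r'
      by_cases hr : r' = r
      · simp [hr]
      · simp [hr]
        rfl
  · intro j r
    rw [tuning_iff]
    intro r'
    refine ⟨0, (Lam F).zero_mem, if r' = r then Pi.single j 1 else 0, fun i => ⟨?_, ?_⟩⟩
    · rw [Pi.single_apply, if_neg (by simp)]
      simp
    · rw [hlin, Pi.single_apply]
      by_cases hr : r' = r
      · by_cases hi : i = j
        · simp [hr, hi]
        · simp [hr, hi]
      · simp [hr]

theorem v27_eq (N : ℕ) (F : ℕ →₀ K) : v27 N F = ((27 * N * vfun F : ℕ) : ℕ∞) := by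
  obtain ⟨b⟩ := free_rank F
  rw [v27_eq_mul, length_free b (Lam F), length_Lam]
  push_cast
  ring

end Pool.Agent.Helper449.MST
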