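import Pool.Agent.Helper449.MST.Defs2
import Pool.Agent.Helper449.MST.B

/-! # Artin-Schreier theory -/

namespace Pool.Agent.Helper449.MST

open MvPolynomial

theorem as_exists_coeff (h : PowerSeries K) (n : ℕ) :
    PowerSeries.coeff n (h ^ 3) = if 3 ∣ n then (PowerSeries.coeff (n / 3) h) ^ 3 else 0 := by
  have e : h ^ 3 = PowerSeries.map (frobenius K 3) (PowerSeries.expand 3 (by norm_num) h) :=
    (MvPowerSeries.map_frobenius_expand 3 (by norm_num) (f := h)).symm
  rw [e, PowerSeries.coeff_map, PowerSeries.coeff_expand]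
  split_ifs
  · rw [frobenius_def]
  · rw [map_zero]

noncomputable def as_exists_seq (g : ℕ → K) (r : K) : ℕ → K
  | 0 => r
  | (n + 1) => - g (n + 1) + if 3 ∣ (n + 1) then (as_exists_seq g r ((n + 1) / 3)) ^ 3 else 0
  decreasing_by exact Nat.div_lt_self (Nat.succ_pos n) (by norm_num)

theorem as_exists_ps (g : PowerSeries K) : ∃ h : PowerSeries K, g = h ^ 3 - h := by
  obtain ⟨r, hr⟩ : ∃ r : K, PowerSeries.coeff 0 g = r ^ 3 - r := by
    obtain ⟨θ, h⟩ := IsAlgClosed.exists_root (Polynomial.X ^ 3 - Polynomial.X -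
        Polynomial.C (PowerSeries.coeff 0 g) : Polynomial K) (by
      have : (Polynomial.X ^ 3 - Polynomial.X -
          Polynomial.C (PowerSeries.coeff 0 g) : Polynomial K).degree = 3 := by
        compute_degree!
      rw [this]; decide)
    refine ⟨θ, ?_⟩
    simp only [Polynomial.IsRoot, Polynomial.eval_sub, Polynomial.eval_pow, Polynomial.eval_X,
      Polynomial.eval_C] at h
    linear_combination -h
  refine ⟨PowerSeries.mk (as_exists_seq (fun n => PowerSeries.coeff n g) r), ?_⟩
  ext n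
  rw [map_sub, as_exists_coeff, PowerSeries.coeff_mk, PowerSeries.coeff_mk]
  cases n with
  | zero =>
    rw [hr]
    simp [as_exists_seq]
  | succ n =>
    rw [as_exists_seq.eq_2]
    split_ifs <;> ring

def as_exists_P (f : LaurentSeries K) : Prop := ∃ (c : ℕ →₀ K) (h : LaurentSeries K),
    (∀ j, c j ≠ 0 → 1 ≤ j ∧ ¬ 3 ∣ j) ∧
      f - c.sum (fun j a => HahnSeries.single (-(j : ℤ)) a) = h ^ 3 - h

theorem as_exists_add {f₁ f₂ : LaurentSeries K} (h₁ : as_exists_P f₁) (h₂ : as_exists_P f₂) :
    as_exists_P (f₁ + f₂) := by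
  obtain ⟨c₁, u₁, a₁, b₁⟩ := h₁
  obtain ⟨c₂, u₂, a₂, b₂⟩ := h₂
  refine ⟨c₁ + c₂, u₁ + u₂, ?_, ?_⟩
  · intro j hj
    by_cases h1 : c₁ j = 0
    · refine a₂ j (fun h2 => hj ?_)
      rw [Finsupp.add_apply, h1, h2, add_zero]
    · exact a₁ j h1
  · rw [Finsupp.sum_add_index' (fun j => by simp) (fun j a b => by simp),
      add_pow_char u₁ u₂ 3]
    linear_combination b₁ + b₂

theorem as_exists_pc (h : LaurentSeries K) : as_exists_P (h ^ 3 - h) :=
  ⟨0, h, fun j hj => absurd rfl hj, by simp⟩

theorem as_exists_single (j : ℕ) : ∀ a : K, 1 ≤ j → as_exists_P (HahnSeries.single (-(j : ℤ)) a) := by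
  induction j using Nat.strong_induction_on with
  | _ j ih =>
    intro a hj
    by_cases h3 : 3 ∣ j
    · obtain ⟨i, rfl⟩ := h3
      obtain ⟨b, hb⟩ := IsAlgClosed.exists_pow_nat_eq a (n := 3) (by norm_num)
      have e : HahnSeries.single (-((3 * i : ℕ) : ℤ)) a =
          ((HahnSeries.single (-(i : ℤ)) b : LaurentSeries K) ^ 3 - HahnSeries.single (-(i : ℤ)) b) +
            HahnSeries.single (-(i : ℤ)) b := by
        rw [sub_add_cancel, HahnSeries.single_pow, hb]
        congr 1
        push_cast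
        simp
      rw [e]
      exact as_exists_add (as_exists_pc _) (ih i (by omega) b (by omega))
    · refine ⟨Finsupp.single j a, 0, ?_, ?_⟩
      · intro k hk
        rw [Finsupp.single_apply] at hk
        split_ifs at hk with h
        · subst h; exact ⟨hj, h3⟩
        · exact absurd rfl hk
      · rw [Finsupp.sum_single_index (by simp)]
        simp

theorem as_exists_shift (N : ℕ) : ∀ g : PowerSeries K,
    as_exists_P (HahnSeries.single (-(N : ℤ)) (1 : K) * (HahnSeries.ofPowerSeries ℤ K g)) := by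
  induction N with
  | zero =>
    intro g
    obtain ⟨h, hh⟩ := as_exists_ps g
    have e : HahnSeries.single (-((0 : ℕ) : ℤ)) (1 : K) * (HahnSeries.ofPowerSeries ℤ K g) =
        (HahnSeries.ofPowerSeries ℤ K h) ^ 3 - HahnSeries.ofPowerSeries ℤ K h := by
      rw [← map_pow, ← map_sub, ← hh]
      have : HahnSeries.single (-((0 : ℕ) : ℤ)) (1 : K) = 1 := by
        simp
      rw [this, one_mul]
    rw [e]
    exact as_exists_pc _
  | succ N ih =>
    intro g
    have e : HahnSeries.single (-((N + 1 : ℕ) : ℤ)) (1 : K) * (HahnSeries.ofPowerSeries ℤ K g) =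
        HahnSeries.single (-(N : ℤ)) (1 : K) *
          (HahnSeries.ofPowerSeries ℤ K (PowerSeries.mk fun p => PowerSeries.coeff (p + 1) g)) +
        HahnSeries.single (-((N + 1 : ℕ) : ℤ)) (PowerSeries.constantCoeff g) := by
      conv_lhs => rw [PowerSeries.eq_X_mul_shift_add_const g]
      rw [map_add, map_mul, HahnSeries.ofPowerSeries_X, HahnSeries.ofPowerSeries_C, mul_add, ← mul_assoc,
        HahnSeries.single_mul_single, HahnSeries.C_apply, HahnSeries.single_mul_single]
      rw [show (-((N + 1 : ℕ) : ℤ) + 1) = -(N : ℤ) by push_cast; ring, mul_one, add_zero, one_mul]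
    rw [e]
    exact as_exists_add (ih _) (as_exists_single (N + 1) _ (by omega))

theorem as_exists (f : LaurentSeries K) : ∃ (c : ℕ →₀ K) (h : LaurentSeries K),
    (∀ j, c j ≠ 0 → 1 ≤ j ∧ ¬ 3 ∣ j) ∧
      f - c.sum (fun j a => HahnSeries.single (-(j : ℤ)) a) = h ^ 3 - h := by
  have key : ∃ (N : ℕ) (g : PowerSeries K),
      f = HahnSeries.single (-(N : ℤ)) (1 : K) * (HahnSeries.ofPowerSeries ℤ K g) := by
    refine ⟨f.order.natAbs, PowerSeries.X ^ (f.order + f.order.natAbs).toNat * f.powerSeriesPart, ?_⟩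
    rw [map_mul, map_pow, HahnSeries.ofPowerSeries_X, HahnSeries.single_pow, ← mul_assoc,
      HahnSeries.single_mul_single]
    conv_lhs => rw [← LaurentSeries.single_order_mul_powerSeriesPart f]
    have e1 : -(f.order.natAbs : ℤ) + (f.order + (f.order.natAbs : ℤ)).toNat • (1 : ℤ) = f.order := by
      simp only [nsmul_eq_mul, mul_one]
      omega
    rw [e1, one_pow, mul_one]
  obtain ⟨N, g, hg⟩ := key
  have := as_exists_shift N g
  rw [← hg] at this
  exact this

theorem as_unique (c : ℕ →₀ K) (h : LaurentSeries K) (hc : ∀ j, c j ≠ 0 → 1 ≤ j ∧ ¬ 3 ∣ j)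
    (hh : c.sum (fun j a => HahnSeries.single (-(j : ℤ)) a) = h ^ 3 - h) : c = 0 := by
  have hL : ∀ j : ℕ, (c.sum (fun j a => (HahnSeries.single (-(j : ℤ)) a : LaurentSeries K))).coeff
      (-(j : ℤ)) = c j := by
    intro j
    rw [Finsupp.sum, HahnSeries.coeff_sum]
    rw [Finset.sum_eq_single j]
    · simp
    · intro b _ hb
      rw [HahnSeries.coeff_single_of_ne]
      intro h
      apply hb
      omega
    · intro hj
      rw [Finsupp.notMem_support_iff.mp hj]
      simp
  by_cases h0 : h = 0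
  · ext j
    rw [← hL j, hh, h0]
    simp
  have hord : 0 ≤ h.order := by
    by_contra hneg
    rw [not_le] at hneg
    have h3 : (h ^ 3).order = 3 • h.order := HahnSeries.order_pow _ _
    have h3ne : (h ^ 3).coeff (3 • h.order) ≠ 0 := by
      rw [← h3]
      exact fun hz => pow_ne_zero 3 h0 (HahnSeries.coeff_order_eq_zero.mp hz)
    have h1 : h.coeff (3 • h.order) = 0 := by
      apply HahnSeries.coeff_eq_zero_of_lt_order
      simp only [nsmul_eq_mul]
      push_cast
      linarith
    obtain ⟨m, hm⟩ : ∃ m : ℕ, (m : ℤ) = -h.order := ⟨(-h.order).toNat, by omega⟩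
    have h2 : (3 • h.order : ℤ) = -((3 * m : ℕ) : ℤ) := by
      simp only [nsmul_eq_mul]
      push_cast
      linarith
    have h4 : c (3 * m) = (h ^ 3 - h).coeff (3 • h.order) := by
      rw [← hh, h2, hL]
    rw [HahnSeries.coeff_sub, h1, sub_zero] at h4
    have h5 : c (3 * m) ≠ 0 := by rw [h4]; exact h3ne
    exact (hc _ h5).2 ⟨m, rfl⟩
  ext j
  by_contra hj
  have hj' : c j ≠ 0 := hj
  have h1 := (hc j hj').1
  apply hj'
  rw [← hL j, hh, HahnSeries.coeff_sub]
  have e1 : (h ^ 3).coeff (-(j : ℤ)) = 0 := by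
    apply HahnSeries.coeff_eq_zero_of_lt_order
    rw [HahnSeries.order_pow]
    simp only [nsmul_eq_mul]
    push_cast
    have : (1 : ℤ) ≤ j := by exact_mod_cast h1
    linarith
  have e2 : h.coeff (-(j : ℤ)) = 0 := by
    apply HahnSeries.coeff_eq_zero_of_lt_order
    have : (1 : ℤ) ≤ j := by exact_mod_cast h1
    linarith
  rw [e1, e2, sub_zero]

theorem fser_coeff (F : ℕ →₀ K) (l : Fin 3) (n : ℤ) :
    (fser F l).coeff n = if n < 0 then coef F n.natAbs l else 0 := by
  have h1 : (fser F l).coeff n =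
      ∑ j ∈ Finset.range (F.support.sup id + 2), if n = -(j : ℤ) then coef F j l else 0 := by
    unfold fser
    rw [HahnSeries.coeff_sum]
    refine Finset.sum_congr rfl fun j _ => ?_
    rw [HahnSeries.coeff_single]
    by_cases hj : n = -(j : ℤ)
    · rw [if_pos hj, if_pos hj]
    · rw [if_neg hj, if_neg hj]
  rw [h1]
  by_cases hn : n < 0
  · rw [if_pos hn]
    by_cases hr : n.natAbs < F.support.sup id + 2
    · rw [Finset.sum_eq_single n.natAbs]
      · rw [if_pos (by omega)]
      · intro b _ hb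
        rw [if_neg (by omega)]
      · intro hb
        exact absurd (Finset.mem_range.2 hr) hb
    · rw [coef_eq_zero_of_top F n.natAbs (by omega)]
      refine Finset.sum_eq_zero fun j hj => ?_
      have hj' := Finset.mem_range.1 hj
      rw [if_neg (by omega)]
  · rw [if_neg hn]
    refine Finset.sum_eq_zero fun j _ => ?_
    by_cases hj : n = -(j : ℤ)
    · have hj0 : j = 0 := by omega
      subst hj0
      rw [if_pos hj]
      simp [coef]
    · rw [if_neg hj]

theorem coef_surj (c : Fin 3 → ℕ →₀ K) (hc : ∀ l j, c l j ≠ 0 → 1 ≤ j ∧ ¬ 3 ∣ j) :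
    ∃ F : ℕ →₀ K, ∀ l j, 1 ≤ j → coef F j l = c l j := by
  set M : ℕ := ∑ l : Fin 3, (c l).support.sup id with hM
  have hMle : ∀ l j, c l j ≠ 0 → j ≤ M := by
    intro l j hj
    have h1 : j ∈ (c l).support := Finsupp.mem_support_iff.mpr hj
    have h2 : j ≤ (c l).support.sup id := Finset.le_sup (f := id) h1
    have h3 : (c l).support.sup id ≤ M :=
      Finset.single_le_sum (f := fun l : Fin 3 => (c l).support.sup id)
        (fun _ _ => Nat.zero_le _) (Finset.mem_univ l)
    exact h2.trans h3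
  let f : ℕ → K := fun i => c ⟨i % 3, Nat.mod_lt _ (by norm_num)⟩ (3 * (i / 3 / 2) + i / 3 % 2 + 1)
  have hf : ∀ i, f i ≠ 0 → i ∈ Finset.range (3 * (M + 1)) := by
    intro i hi
    have := hMle _ _ hi
    rw [Finset.mem_range]
    omega
  refine ⟨Finsupp.onFinset (Finset.range (3 * (M + 1))) f hf, ?_⟩
  intro l j hj
  unfold coef
  simp only [Finsupp.onFinset_apply]
  split_ifs with h3
  · by_contra hne
    exact (hc l j (fun h => hne h.symm)).2 (Nat.dvd_of_mod_eq_zero h3)
  · have e1 : (3 * (2 * (j / 3) + j % 3 - 1) + (l : ℕ)) % 3 = l := by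
      have := l.2
      omega
    have e2 : (3 * (2 * (j / 3) + j % 3 - 1) + (l : ℕ)) / 3 = 2 * (j / 3) + j % 3 - 1 := by
      have := l.2
      omega
    have e3 : 3 * ((2 * (j / 3) + j % 3 - 1) / 2) + (2 * (j / 3) + j % 3 - 1) % 2 + 1 = j := by
      omega
    have e4 : (⟨(3 * (2 * (j / 3) + j % 3 - 1) + (l : ℕ)) % 3, Nat.mod_lt _ (by norm_num)⟩ :
        Fin 3) = l := Fin.ext e1
    change c ⟨(3 * (2 * (j / 3) + j % 3 - 1) + (l : ℕ)) % 3, _⟩
      (3 * ((3 * (2 * (j / 3) + j % 3 - 1) + (l : ℕ)) / 3 / 2) +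
        (3 * (2 * (j / 3) + j % 3 - 1) + (l : ℕ)) / 3 % 2 + 1) = c l j
    rw [e4, e2, e3]

theorem coef_inj (F F' : ℕ →₀ K) (h : ∀ j, 1 ≤ j → coef F j = coef F' j) : F = F' := by
  apply Finsupp.ext
  intro i
  have h0 : 1 ≤ 3 * (i / 3 / 2) + (i / 3) % 2 + 1 := by omega
  have hj := congrFun (h (3 * (i / 3 / 2) + (i / 3) % 2 + 1) h0)
    ⟨i % 3, Nat.mod_lt _ (by norm_num)⟩
  have h1 : ¬ ((3 * (i / 3 / 2) + (i / 3) % 2 + 1) % 3 = 0) := by omega
  have h2 : 3 * (2 * ((3 * (i / 3 / 2) + (i / 3) % 2 + 1) / 3)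
      + (3 * (i / 3 / 2) + (i / 3) % 2 + 1) % 3 - 1) + i % 3 = i := by omega
  simp only [coef, if_neg h1, h2] at hj
  exact hj

theorem torsor_param_bound (F : ℕ →₀ K) (l : Fin 3) (j : ℕ) (h : coef F j l ≠ 0) :
    j ≤ F.support.sup id + 1 := by
  unfold coef at h
  split_ifs at h with h3
  · exact absurd rfl h
  · have hm : 3 * (2 * (j / 3) + j % 3 - 1) + (l:ℕ) ∈ F.support := Finsupp.mem_support_iff.2 h
    have h2 := Finset.le_sup (f := id) hm
    simp only [id] at h2
    have h4 : F.support.sup id = F.support.sup (fun x => x) := rfl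
    omega

theorem torsor_param_sum (c : ℕ →₀ K) (h0 : c 0 = 0) (n : ℤ) :
    (c.sum (fun j a => (HahnSeries.single (-(j : ℤ)) a : LaurentSeries K))).coeff n =
      if n < 0 then c n.natAbs else 0 := by
  rw [Finsupp.sum, HahnSeries.coeff_sum]
  have h1 : ∀ j ∈ c.support, (HahnSeries.single (-(j:ℤ)) (c j) : LaurentSeries K).coeff n =
      if n = -(j:ℤ) then c j else 0 := by
    intro j _
    split_ifs with hn
    · rw [hn]; exact HahnSeries.coeff_single_same _ _
    · exact HahnSeries.coeff_single_of_ne hn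
  rw [Finset.sum_congr rfl h1]
  split_ifs with hn
  · rw [Finset.sum_eq_single n.natAbs]
    · rw [if_pos (by omega)]
    · intro j _ hj
      rw [if_neg (by omega)]
    · intro hns
      rw [Finsupp.notMem_support_iff.1 hns]; simp
  · apply Finset.sum_eq_zero
    intro j hj
    have hj0 : j ≠ 0 := by
      rintro rfl
      exact (Finsupp.mem_support_iff.1 hj) h0
    rw [if_neg (by omega)]

theorem torsor_param (f : Fin 3 → LaurentSeries K) :
    ∃! F : ℕ →₀ K, ∃ h : Fin 3 → LaurentSeries K, ∀ l, f l - fser F l = h l ^ 3 - h l := by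
  choose c h hc hh using fun l => as_exists (f l)
  obtain ⟨F, hF⟩ := coef_surj c hc
  have hc0 : ∀ l, c l 0 = 0 := by
    intro l
    by_contra h0
    have := (hc l 0 h0).1
    omega
  have hfs : ∀ l, fser F l = (c l).sum (fun j a => HahnSeries.single (-(j : ℤ)) a) := by
    intro l
    ext n
    rw [fser_coeff, torsor_param_sum _ (hc0 l)]
    split_ifs with hn
    · exact hF l n.natAbs (by omega)
    · rfl
  refine ⟨F, ⟨h, fun l => ?_⟩, ?_⟩
  · rw [hfs l]; exact hh l
  · rintro F' ⟨h', hh'⟩
    apply coef_inj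
    intro j hj
    funext l
    have hfin : ∀ j : ℕ, (if 1 ≤ j then coef F' j l - coef F j l else 0) ≠ 0 →
        j ∈ Finset.range (F.support.sup id + F'.support.sup id + 2) := by
      intro j hj
      rw [Finset.mem_range]
      by_cases h1 : 1 ≤ j
      · rw [if_pos h1] at hj
        by_cases h2 : coef F j l = 0
        · rw [h2, sub_zero] at hj
          have := torsor_param_bound F' l j hj
          omega
        · have := torsor_param_bound F l j h2
          omega
      · omega
    obtain ⟨D, hD⟩ : ∃ D : ℕ →₀ K, ∀ j, D j = if 1 ≤ j then coef F' j l - coef F j l else 0 :=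
      ⟨Finsupp.onFinset _ _ hfin, fun j => rfl⟩
    have hD0 : D 0 = 0 := by rw [hD]; simp
    have hsum : D.sum (fun j a => HahnSeries.single (-(j : ℤ)) a) = fser F' l - fser F l := by
      ext n
      rw [torsor_param_sum _ hD0, HahnSeries.coeff_sub, fser_coeff, fser_coeff]
      split_ifs with hn
      · rw [hD, if_pos (by omega)]
      · simp
    have h3 : (3 : LaurentSeries K) = 0 := by
      have := CharP.cast_eq_zero (LaurentSeries K) 3
      exact_mod_cast this
    have hz : D = 0 := by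
      refine as_unique D (h l - h' l) ?_ ?_
      · intro j hj
        rw [hD] at hj
        by_cases h1 : 1 ≤ j
        · refine ⟨h1, fun h4 => hj ?_⟩
          rw [if_pos h1]
          have h5 : j % 3 = 0 := by omega
          simp [coef, h5]
        · rw [if_neg h1] at hj
          exact absurd rfl hj
      · rw [hsum]
        have e1 := hh l
        rw [← hfs l] at e1
        have e2 := hh' l
        linear_combination e1 - e2 + (h l ^ 2 * h' l - h l * h' l ^ 2) * h3
    have h6 := hD j
    rw [hz, if_pos hj] at h6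
    simp only [Finsupp.coe_zero, Pi.zero_apply] at h6
    exact (sub_eq_zero.1 h6.symm)

end Pool.Agent.Helper449.MST
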