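import Pool.Agent.Helper449.MST.Defs2
import Pool.Agent.Helper449.MST.F

/-! # bijective relations -/

namespace Pool.Agent.Helper449.MST

open MvPolynomial

/-- The relations `Rel` together with invariance under bijective regular maps (for instance under
universal homeomorphisms). The quotient by these relations is a quotient of the Grothendieck ring,
so that being rational there is a weaker condition. -/
inductive RelUH : FreeAbelianGroup Gen → Prop
  | base {x : FreeAbelianGroup Gen} (h : Rel x) : RelUH x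
  | bij {n m : ℕ} {S : Set (Fin n → K)} {T : Set (Fin m → K)} (hS : Constr S) (hT : Constr T)
      (f : (Fin n → K) → (Fin m → K)) (hf : RegularOn S f) (h : Set.BijOn f S T) (b : ℤ) :
      RelUH (FreeAbelianGroup.of ⟨n, S, hS, b⟩ - FreeAbelianGroup.of ⟨m, T, hT, b⟩)

/-- The subgroup generated by the relations `RelUH`. -/
def relSubUH : AddSubgroup (FreeAbelianGroup Gen) := AddSubgroup.closure {x | RelUH x}

/-- The sequence `s` converges in the completion, for the dimension filtration `Fil`, of the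
quotient by `R` (it is a Cauchy sequence). For `R = relSub` this is the completed Grothendieck ring
of `K`-varieties with `L^{1/27}` adjoined. -/
def ConvergesMod (R : AddSubgroup (FreeAbelianGroup Gen)) (s : ℕ → FreeAbelianGroup Gen) : Prop :=
  ∀ m : ℤ, ∃ n₀, ∀ n ≥ n₀, ∀ n' ≥ n₀, s n - s n' ∈ R ⊔ Fil m

/-- The limit `M` of `s` in the completion of the quotient by `R` satisfies
`Q(L^{1/27}) M = P(L^{1/27})` for some integer polynomials `P`, `Q` with `Q ≠ 0`. -/
def RationalMod (R : AddSubgroup (FreeAbelianGroup Gen)) (s : ℕ → FreeAbelianGroup Gen) : Prop :=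
  ∃ P Q : Polynomial ℤ, Q ≠ 0 ∧
    ∀ m : ℤ, ∃ n₀, ∀ n ≥ n₀, act Q (s n) - act P one ∈ R ⊔ Fil m

open Filter in
theorem cnt_bij_eval {n : ℕ} (P : MvPolynomial (Fin n) K) :
    ∀ᶠ j in atTop, ∀ x : Fin n → K, (eval x P) ^ q j = eval (fun i => x i ^ q j) P := by
  induction P using MvPolynomial.induction_on with
  | C a =>
    obtain ⟨j₀, hj⟩ := eventually_fixed a
    filter_upwards [eventually_ge_atTop j₀] with j hj' x
    rw [eval_C, eval_C]
    exact hj j hj'
  | add p r hp hr =>
    filter_upwards [hp, hr] with j h1 h2 x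
    rw [map_add, map_add, ← h1 x, ← h2 x]
    unfold q
    rw [add_pow_expChar_pow]
  | mul_X p i hp =>
    filter_upwards [hp] with j h1 x
    rw [map_mul, map_mul, eval_X, eval_X, mul_pow, h1 x]

theorem cnt_bij_q_ne (j : ℕ) : q j ≠ 0 := by
  unfold q
  positivity

open Filter in
theorem cnt_bij_constr {n : ℕ} (S : Set (Fin n → K)) (hS : Constr S) :
    ∀ᶠ j in atTop, ∀ x : Fin n → K, (x ∈ S ↔ (fun i => x i ^ q j) ∈ S) := by
  induction hS with
  | zero P =>
    filter_upwards [cnt_bij_eval P] with j h1 x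
    show eval x P = 0 ↔ eval (fun i => x i ^ q j) P = 0
    rw [← h1 x, pow_eq_zero_iff (cnt_bij_q_ne j)]
  | compl _ ih =>
    filter_upwards [ih] with j h1 x
    exact not_congr (h1 x)
  | inter _ _ ih1 ih2 =>
    filter_upwards [ih1, ih2] with j h1 h2 x
    exact and_congr (h1 x) (h2 x)

open Filter in
theorem cnt_bij_reg {n m : ℕ} (S : Set (Fin n → K)) (hS : Constr S)
    (f : (Fin n → K) → (Fin m → K))
    (hf : RegularOn S f) : ∀ᶠ j in atTop, ∀ x ∈ S, ∀ i,
      f (fun k => x k ^ q j) i = f x i ^ q j := by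
  have h : ∀ i, ∀ᶠ j in atTop, ∀ x ∈ S, f (fun k => x k ^ q j) i = f x i ^ q j := by
    intro i
    obtain ⟨P, Q, hPQ⟩ := hf i
    filter_upwards [cnt_bij_eval P, cnt_bij_eval Q, cnt_bij_constr S hS] with j h1 h2 h3 x hx
    rw [(hPQ x hx).2, (hPQ _ ((h3 x).1 hx)).2, div_pow, h1 x, h2 x]
  filter_upwards [eventually_all.2 h] with j hj x hx i
  exact hj i x hx

open Filter in
theorem cnt_bij {n m : ℕ} (S : Set (Fin n → K)) (hS : Constr S) (T : Set (Fin m → K))
    (f : (Fin n → K) → (Fin m → K)) (hf : RegularOn S f) (h : Set.BijOn f S T) :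
    ∃ j₀, ∀ j ≥ j₀, cnt j S = cnt j T := by
  rw [← eventually_atTop]
  filter_upwards [cnt_iso_reg S f hf, cnt_bij_reg S hS f hf, cnt_bij_constr S hS] with j h1 h2 h4
  have h3 : pts j T = f '' pts j S := by
    ext y
    constructor
    · intro hy
      obtain ⟨x, hx, hxy⟩ := h.surjOn hy.1
      refine ⟨x, ⟨hx, ?_⟩, hxy⟩
      have h5 : f (fun k => x k ^ q j) = f x := by
        funext i
        rw [h2 x hx i, hxy]
        exact hy.2 i
      have h6 := h.injOn ((h4 x).1 hx) hx h5
      intro i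
      exact congrFun h6 i
    · rintro ⟨x, hx, rfl⟩
      exact ⟨h.mapsTo hx.1, h1 x hx⟩
  unfold cnt
  rw [h3, Set.ncard_image_of_injOn]
  intro x hx x' hx' hxx
  exact h.injOn hx.1 hx'.1 hxx

theorem mu_relUH (x : FreeAbelianGroup Gen) (hx : x ∈ relSubUH) : ∃ j₀, ∀ j ≥ j₀, mu j x = 0 := by
  have hof : ∀ (j : ℕ) (g : Gen), mu j (FreeAbelianGroup.of g) = (cnt j g.S : ℝ) * (y j : ℝ) ^ g.b := by
    intro j g
    unfold mu
    rw [FreeAbelianGroup.lift_apply_of]
  unfold relSubUH at hx
  induction hx using AddSubgroup.closure_induction with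
  | mem x hx =>
    cases hx with
    | base h => exact mu_rel x (AddSubgroup.subset_closure h)
    | bij hS hT f hf h b =>
      obtain ⟨j₀, hj⟩ := cnt_bij _ hS _ f hf h
      refine ⟨j₀, fun j hj' => ?_⟩
      rw [map_sub, hof, hof]
      simp only
      rw [hj j hj', sub_self]
  | zero => exact ⟨0, fun j _ => map_zero _⟩
  | add x y _ _ hx hy =>
    obtain ⟨j₁, h1⟩ := hx
    obtain ⟨j₂, h2⟩ := hy
    refine ⟨max j₁ j₂, fun j hj => ?_⟩
    rw [map_add, h1 j ((le_max_left _ _).trans hj), h2 j ((le_max_right _ _).trans hj), add_zero]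
  | neg x _ hx =>
    obtain ⟨j₁, h1⟩ := hx
    exact ⟨j₁, fun j hj => by rw [map_neg, h1 j hj, neg_zero]⟩

theorem relSub_le : relSub ≤ relSubUH := by
  apply AddSubgroup.closure_mono
  intro x hx
  exact RelUH.base hx

theorem rationalMod_mono {R R' : AddSubgroup (FreeAbelianGroup Gen)} (h : R ≤ R')
    (s : ℕ → FreeAbelianGroup Gen) (hs : RationalMod R s) : RationalMod R' s := by
  obtain ⟨P, Q, hQ, hm⟩ := hs
  refine ⟨P, Q, hQ, fun m => ?_⟩
  obtain ⟨n₀, hn⟩ := hm m
  exact ⟨n₀, fun n hn' => sup_le_sup_right h (Fil m) (hn n hn')⟩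

theorem not_rationalUH : ¬ RationalMod relSubUH (partialSum 100) := by
  rintro ⟨P, Q, hQ, h⟩
  obtain ⟨n₀, hn₀⟩ := h 0
  have hmem := hn₀ (max n₀ 5) (le_max_left _ _)
  obtain ⟨x, hx, z, hz, hxz⟩ := AddSubgroup.mem_sup.mp hmem
  obtain ⟨j₁, hj₁⟩ := mu_relUH x hx
  obtain ⟨C, j₂, hj₂⟩ := mu_fil z hz
  choose G hG1 hG2 using det_count
  refine analytic P Q hQ (max n₀ 5) (le_max_right _ _) C 100 rfl
    (fun j a => cnt j (level a)) G cnt_level_zero
    (fun j => cnt_level_empty j 1 (Or.inl rfl)) (fun j => cnt_level_empty j 2 (Or.inr (Or.inl rfl)))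
    cnt_level_three (fun j => cnt_level_empty j 4 (Or.inr (Or.inr rfl))) ?_ hG1 cnt_level_le
    (max j₁ j₂) ?_
  · intro j
    have h5 := cnt_level_five j
    rw [pair_count] at h5
    show ((cnt j (level 5) : ℕ) : ℤ) = _
    rw [h5]
    push_cast
    rw [hG2 j]
    ring
  · intro j hj
    have e1 : mu j (act Q (partialSum 100 (max n₀ 5)) - act P one) = mu j x + mu j z := by
      rw [← hxz, map_add]
    rw [hj₁ j (le_trans (le_max_left _ _) hj), zero_add, map_sub, mu_act, mu_act, mu_one, mul_one,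
      mu_partialSum] at e1
    have h2 := hj₂ j (le_trans (le_max_right _ _) hj)
    rw [← e1] at h2
    exact h2

end Pool.Agent.Helper449.MST
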