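import Pool.Agent.Helper449.MST.J
import Pool.Agent.Helper449.MST.Q
import Pool.Agent.Helper449.MST.G
import Pool.Agent.Helper449.MST.P

/-! # the sequence of partial sums -/

namespace Pool.Agent.Helper449.MST

open MvPolynomial

theorem constr_vfun (n a : ℕ) : Constr {x : Fin n → K | vfun (ofFin x) = a} := by
  obtain ⟨m, l, A, hA⟩ := vfun_eq_rank n
  rcases Nat.eq_zero_or_pos a with rfl | ha
  · have h1 : {x : Fin n → K | vfun (ofFin x) = 0} = {x : Fin n → K | x = 0} := by
      ext x
      simp only [Set.mem_setOf_eq]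
      constructor
      · intro hx
        by_contra hx0
        rw [hA x hx0] at hx
        omega
      · rintro rfl
        rw [constr_level_ofFin_zero, vfun_zero]
    rw [h1]
    exact constr_level_zero n
  · by_cases h3 : 3 ≤ a
    · have h1 : {x : Fin n → K | vfun (ofFin x) = a} = {x : Fin n → K | x = 0}ᶜ ∩
          {x : Fin n → K | (A.map (eval x)).rank = a - 3} := by
        ext x
        simp only [Set.mem_setOf_eq, Set.mem_inter_iff, Set.mem_compl_iff]
        constructor
        · intro hx
          have hx0 : x ≠ 0 := by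
            rintro rfl
            rw [constr_level_ofFin_zero, vfun_zero] at hx
            omega
          refine ⟨hx0, ?_⟩
          rw [hA x hx0] at hx
          omega
        · rintro ⟨hx0, hx⟩
          rw [hA x hx0, hx]
          omega
      rw [h1]
      exact (constr_level_zero _).compl.inter (constr_rank A _)
    · have h1 : {x : Fin n → K | vfun (ofFin x) = a} = Set.univᶜ := by
        ext x
        simp only [Set.mem_setOf_eq, Set.compl_univ, Set.mem_empty_iff_false, iff_false]
        intro hx
        by_cases hx0 : x = 0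
        · rw [hx0, constr_level_ofFin_zero, vfun_zero] at hx
          omega
        · rw [hA x hx0] at hx
          omega
      rw [h1]
      exact (constr_univ _).compl

private theorem constr_levelY_empty (n : ℕ) : Constr (∅ : Set (Fin n → K)) := by
  have h := (constr_univ n).compl
  rwa [Set.compl_univ] at h

theorem constr_levelY (N b : ℕ) : Constr (levelY N b) := by
  have hset : levelY N b = {x : Fin b → K | 27 * N * vfun (ofFin x) = b} := by
    ext x
    simp only [levelY, Set.mem_setOf_eq, v27_eq, Nat.cast_inj]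
  rw [hset]
  rcases Nat.eq_zero_or_pos N with hN | hN
  · by_cases hb : 0 = b
    · have : {x : Fin b → K | 27 * N * vfun (ofFin x) = b} = Set.univ := by
        ext x
        simp only [Set.mem_setOf_eq, Set.mem_univ, iff_true, hN, Nat.mul_zero, Nat.zero_mul]
        exact hb
      rw [this]
      exact constr_univ b
    · have : {x : Fin b → K | 27 * N * vfun (ofFin x) = b} = ∅ := by
        ext x
        simp only [Set.mem_setOf_eq, Set.mem_empty_iff_false, iff_false, hN, Nat.mul_zero,
          Nat.zero_mul]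
        exact hb
      rw [this]
      exact constr_levelY_empty b
  · by_cases hd : 27 * N ∣ b
    · obtain ⟨a, ha⟩ := hd
      have : {x : Fin b → K | 27 * N * vfun (ofFin x) = b} =
          {x : Fin b → K | vfun (ofFin x) = a} := by
        ext x
        simp only [Set.mem_setOf_eq]
        constructor
        · intro h
          have h2 : 27 * N * vfun (ofFin x) = 27 * N * a := h.trans ha
          exact Nat.eq_of_mul_eq_mul_left (by omega) h2
        · intro h
          rw [h]
          exact ha.symm
      rw [this]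
      exact constr_vfun b a
    · have : {x : Fin b → K | 27 * N * vfun (ofFin x) = b} = ∅ := by
        ext x
        simp only [Set.mem_setOf_eq, Set.mem_empty_iff_false, iff_false]
        intro h
        exact hd ⟨_, h.symm⟩
      rw [this]
      exact constr_levelY_empty b

/-- The partial sums `∑_{b ≤ n} {v⁻¹(b / 27)} L^{6N - b / 27}` of the stringy motive of
`K^{6N} / G`, by Yasuda's formula. -/
noncomputable def stringy (N n : ℕ) : FreeAbelianGroup Gen :=
  ∑ b ∈ Finset.range (n + 1),
    FreeAbelianGroup.of ⟨b, levelY N b, constr_levelY N b, 27 * (6 * (N : ℤ)) - b⟩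

theorem empty_rel (n : ℕ) (b : ℤ) (S : Set (Fin n → K)) (h : Constr S) (hS : S = ∅) :
    FreeAbelianGroup.of (⟨n, S, h, b⟩ : Gen) ∈ relSub := by
  have hU : Constr (S ∪ S) := by rw [Set.union_self]; exact h
  have hd : Disjoint S S := by rw [hS]; exact Set.disjoint_empty _
  have h1 : Rel (FreeAbelianGroup.of (⟨n, S ∪ S, hU, b⟩ : Gen) -
      (FreeAbelianGroup.of (⟨n, S, h, b⟩ : Gen) + FreeAbelianGroup.of (⟨n, S, h, b⟩ : Gen))) :=
    Rel.scissors h h hU hd b
  have h2 : (⟨n, S ∪ S, hU, b⟩ : Gen) = ⟨n, S, h, b⟩ := by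
    simp only [Set.union_self]
  rw [h2] at h1
  have h3 : FreeAbelianGroup.of (⟨n, S, h, b⟩ : Gen) -
      (FreeAbelianGroup.of (⟨n, S, h, b⟩ : Gen) + FreeAbelianGroup.of (⟨n, S, h, b⟩ : Gen)) ∈
      relSub := AddSubgroup.subset_closure h1
  have h4 := relSub.neg_mem h3
  have h5 : -(FreeAbelianGroup.of (⟨n, S, h, b⟩ : Gen) -
      (FreeAbelianGroup.of (⟨n, S, h, b⟩ : Gen) + FreeAbelianGroup.of (⟨n, S, h, b⟩ : Gen))) =
      FreeAbelianGroup.of (⟨n, S, h, b⟩ : Gen) := by abel
  rwa [h5] at h4

theorem level_isom_apply {n : ℕ} (x : Fin n → K) (i : ℕ) :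
    ofFin x i = if h : i < n then x ⟨i, h⟩ else 0 := rfl

theorem level_isom_mem (N a : ℕ) (hN : 1 ≤ N) (x : Fin (27 * N * a) → K) :
    x ∈ levelY N (27 * N * a) ↔ vfun (ofFin x) = a := by
  show v27 N (ofFin x) = ((27 * N * a : ℕ) : ℕ∞) ↔ _
  rw [v27_eq, Nat.cast_inj]
  have h : 0 < 27 * N := by omega
  exact Nat.mul_right_inj h.ne'

/-- copying coordinates -/
noncomputable def level_isom_f (n m : ℕ) (x : Fin n → K) : Fin m → K :=
  fun i => if h : (i : ℕ) < n then x ⟨i, h⟩ else 0

theorem level_isom_reg (n m : ℕ) (S : Set (Fin n → K)) : RegularOn S (level_isom_f n m) := by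
  intro i
  by_cases h : (i : ℕ) < n
  · refine ⟨MvPolynomial.X ⟨i, h⟩, 1, fun x _ => ⟨by simp, ?_⟩⟩
    simp [level_isom_f, h]
  · refine ⟨0, 1, fun x _ => ⟨by simp, ?_⟩⟩
    simp [level_isom_f, h]

theorem level_isom_of (n m a : ℕ) (x : Fin n → K) (hm : 6 * a ≤ m) (hx : vfun (ofFin x) = a) :
    ofFin (level_isom_f n m x) = ofFin x := by
  ext i
  rw [level_isom_apply, level_isom_apply]
  by_cases h : i < m
  · rw [dif_pos h]
    rfl
  · rw [dif_neg h]
    have h0 := support_bound (ofFin x) i (by rw [hx]; omega)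
    rw [level_isom_apply] at h0
    exact h0.symm

theorem level_isom_inj {n : ℕ} (x y : Fin n → K) (h : ofFin x = ofFin y) : x = y := by
  funext i
  have h1 := DFunLike.congr_fun h (i : ℕ)
  rw [level_isom_apply, level_isom_apply, dif_pos i.2, dif_pos i.2] at h1
  exact h1

theorem level_isom (N a : ℕ) (hN : 1 ≤ N) : Isom (levelY N (27 * N * a)) (level a) := by
  have hle : 6 * a ≤ 27 * N * a := Nat.mul_le_mul_right a (by omega)
  refine ⟨level_isom_f _ _, level_isom_f _ _, level_isom_reg _ _ _, level_isom_reg _ _ _, ?_, ?_,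
    ?_, ?_⟩
  · intro x hx
    have h1 := (level_isom_mem N a hN x).1 hx
    show vfun (ofFin (level_isom_f _ _ x)) = a
    rw [level_isom_of _ _ a x le_rfl h1, h1]
  · intro y hy
    have h1 : vfun (ofFin y) = a := hy
    rw [level_isom_mem N a hN, level_isom_of _ _ a y hle h1, h1]
  · intro x hx
    have h1 := (level_isom_mem N a hN x).1 hx
    apply level_isom_inj
    have h2 := level_isom_of _ _ a x (le_refl (6 * a)) h1
    rw [level_isom_of _ _ a _ hle (by rw [h2, h1]), h2]
  · intro y hy
    have h1 : vfun (ofFin y) = a := hy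
    apply level_isom_inj
    have h2 := level_isom_of _ _ a y hle h1
    rw [level_isom_of _ _ a _ le_rfl (by rw [h2, h1]), h2]

/-- term of `stringy` -/
noncomputable def stringy_sub_T (N b : ℕ) : FreeAbelianGroup Gen :=
  FreeAbelianGroup.of ⟨b, levelY N b, constr_levelY N b, 27 * (6 * (N : ℤ)) - b⟩

/-- term of `partialSum` -/
noncomputable def stringy_sub_S (N a : ℕ) : FreeAbelianGroup Gen :=
  FreeAbelianGroup.of ⟨6 * a, level a, constr_level a, 27 * (6 * (N : ℤ) - N * a)⟩

theorem stringy_sub_A (N b : ℕ) (h : ¬ 27 * N ∣ b) : stringy_sub_T N b ∈ relSub := by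
  apply empty_rel
  rw [Set.eq_empty_iff_forall_notMem]
  intro x hx
  have hx' : v27 N (ofFin x) = (b : ℕ∞) := hx
  rw [v27_eq] at hx'
  have h2 : 27 * N * vfun (ofFin x) = b := by exact_mod_cast hx'
  exact h ⟨_, h2.symm⟩

theorem stringy_sub_B (N a : ℕ) (hN : 1 ≤ N) :
    stringy_sub_T N (27 * N * a) - stringy_sub_S N a ∈ relSub := by
  have e : 27 * (6 * (N : ℤ)) - ((27 * N * a : ℕ) : ℤ) = 27 * (6 * (N : ℤ) - N * a) := by
    push_cast
    ring
  unfold stringy_sub_T stringy_sub_S
  rw [e]
  exact AddSubgroup.subset_closure (Rel.iso _ _ (level_isom N a hN) _)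

theorem stringy_sub_C (N n : ℕ) (hN : 1 ≤ N) :
    ∑ b ∈ Finset.range (n + 1), stringy_sub_T N b
      - ∑ a ∈ Finset.range (n / (27 * N) + 1), stringy_sub_S N a ∈ relSub := by
  induction n with
  | zero =>
    have h := stringy_sub_B N 0 hN
    rw [Nat.zero_div, zero_add, Finset.sum_range_one, Finset.sum_range_one]
    exact h
  | succ n ih =>
    rw [Finset.sum_range_succ _ (n + 1)]
    by_cases h : 27 * N ∣ n + 1
    · have e1 : (n + 1) / (27 * N) = n / (27 * N) + 1 := by
        rw [Nat.succ_div, if_pos h]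
      have e2 : 27 * N * (n / (27 * N) + 1) = n + 1 := by
        rw [← e1]
        exact Nat.mul_div_cancel' h
      rw [e1, Finset.sum_range_succ _ (n / (27 * N) + 1)]
      have h2 := stringy_sub_B N (n / (27 * N) + 1) hN
      rw [e2] at h2
      have h3 := relSub.add_mem ih h2
      rwa [sub_add_sub_comm] at h3
    · have e1 : (n + 1) / (27 * N) = n / (27 * N) := by
        rw [Nat.succ_div, if_neg h, Nat.add_zero]
      rw [e1]
      have h3 := relSub.add_mem ih (stringy_sub_A N (n + 1) h)
      rwa [sub_add_eq_add_sub] at h3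

theorem stringy_sub (N n : ℕ) (hN : 1 ≤ N) :
    stringy N n - partialSum N (n / (27 * N)) ∈ relSub := by
  exact stringy_sub_C N n hN

private theorem act_relSub_shift (j : ℤ) (x : FreeAbelianGroup Gen) (hx : x ∈ relSub) :
    shift j x ∈ relSub := by
  have hle : relSub ≤ relSub.comap (shift j) := by
    unfold relSub
    rw [AddSubgroup.closure_le]
    intro y hy
    rw [SetLike.mem_coe, AddSubgroup.mem_comap]
    have hy' : Rel y := hy
    cases hy' with
    | scissors hS hT hU h b =>
      rw [map_sub, map_add]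
      unfold shift
      rw [FreeAbelianGroup.lift_apply_of, FreeAbelianGroup.lift_apply_of,
        FreeAbelianGroup.lift_apply_of]
      exact AddSubgroup.subset_closure (Rel.scissors hS hT hU h (b + j))
    | iso hS hT h b =>
      rw [map_sub]
      unfold shift
      rw [FreeAbelianGroup.lift_apply_of, FreeAbelianGroup.lift_apply_of]
      exact AddSubgroup.subset_closure (Rel.iso hS hT h (b + j))
    | line hS hC b =>
      rw [map_sub]
      unfold shift
      rw [FreeAbelianGroup.lift_apply_of, FreeAbelianGroup.lift_apply_of]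
      have h1 := Rel.line hS hC (b + j)
      rw [add_right_comm b j 27] at h1
      exact AddSubgroup.subset_closure h1
  exact hle hx

theorem act_relSub (P : Polynomial ℤ) (x : FreeAbelianGroup Gen) (hx : x ∈ relSub) :
    act P x ∈ relSub := by
  unfold act
  rw [Polynomial.sum_def]
  exact relSub.sum_mem fun j _ => relSub.zsmul_mem (act_relSub_shift j x hx) _

theorem act_sub (P : Polynomial ℤ) (x x' : FreeAbelianGroup Gen) :
    act P (x - x') = act P x - act P x' := by
  simp only [act, map_sub, smul_sub, Polynomial.sum_def, Finset.sum_sub_distrib]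

theorem stringy_converges : ConvergesMod relSub (stringy 100) := by
  intro m
  obtain ⟨n₀, h⟩ := converges m
  refine ⟨n₀ * (27 * 100), fun n hn n' hn' => ?_⟩
  have h1 : n₀ ≤ n / (27 * 100) := (Nat.le_div_iff_mul_le (by norm_num)).2 hn
  have h2 : n₀ ≤ n' / (27 * 100) := (Nat.le_div_iff_mul_le (by norm_num)).2 hn'
  have h3 := h _ h1 _ h2
  have h4 : stringy 100 n - partialSum 100 (n / (27 * 100)) ∈ relSub ⊔ Fil m :=
    (le_sup_left : relSub ≤ relSub ⊔ Fil m) (stringy_sub 100 n (by norm_num))
  have h5 : stringy 100 n' - partialSum 100 (n' / (27 * 100)) ∈ relSub ⊔ Fil m :=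
    (le_sup_left : relSub ≤ relSub ⊔ Fil m) (stringy_sub 100 n' (by norm_num))
  have h6 : stringy 100 n - stringy 100 n' =
      (stringy 100 n - partialSum 100 (n / (27 * 100))) +
      (partialSum 100 (n / (27 * 100)) - partialSum 100 (n' / (27 * 100))) -
      (stringy 100 n' - partialSum 100 (n' / (27 * 100))) := by abel
  rw [h6]
  exact sub_mem (add_mem h4 h3) h5

theorem stringy_not_rational : ¬ RationalMod relSubUH (stringy 100) := by
  rintro ⟨P, Q, hQ, h⟩
  refine not_rationalUH ⟨P, Q, hQ, fun m => ?_⟩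
  obtain ⟨n₀, hn₀⟩ := h m
  refine ⟨n₀, fun n hn => ?_⟩
  have h1 := hn₀ (27 * 100 * n) (by omega)
  have h2 := stringy_sub 100 (27 * 100 * n) (by norm_num)
  rw [Nat.mul_div_cancel_left n (by norm_num)] at h2
  have h3 : act Q (stringy 100 (27 * 100 * n) - partialSum 100 n) ∈ relSubUH ⊔ Fil m :=
    (le_sup_left : relSubUH ≤ relSubUH ⊔ Fil m) (relSub_le (act_relSub Q _ h2))
  rw [act_sub] at h3
  have h4 := (relSubUH ⊔ Fil m).sub_mem h1 h3
  have h5 : act Q (stringy 100 (27 * 100 * n)) - act P one -
      (act Q (stringy 100 (27 * 100 * n)) - act Q (partialSum 100 n)) =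
      act Q (partialSum 100 n) - act P one := by abel
  rwa [h5] at h4

theorem support_Y (F : ℕ →₀ K) (b : ℕ) (h : v27 100 F = b) (i : ℕ) (hi : b ≤ i) : F i = 0 := by
  rw [v27_eq] at h
  have h2 : 27 * 100 * vfun F = b := by exact_mod_cast h
  exact support_bound F i (by omega)

end Pool.Agent.Helper449.MST
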